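import Pool.Agent.MP_c6582e_nt.H5.Defs
import Pool.Agent.MP_74e98a_nt.H25.Pars

/-! Basic lemmas on words, values and factorial languages. -/

namespace Pool.Agent.MP_c6582e_nt.H5

open Finset Pool.Agent.MP_74e98a_nt.H25

variable {p q : ℕ} {Lg : ℕ → Finset (List ℤ)}

lemma mem_Wd {b : ℕ} {w : List ℤ} : w ∈ Wd p b ↔ w.length = b ∧ ∀ a ∈ w, |a| < p := by
  induction b generalizing w with
  | zero => cases w <;> simp [Wd]
  | succ b ih =>
    cases w with
    | nil => simp [Wd]
    | cons a w =>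
      simp only [Wd, mem_image, mem_product, mem_Ioo, List.cons.injEq, Prod.exists, ih,
        List.length_cons, List.mem_cons, forall_eq_or_imp, Nat.add_right_cancel_iff, abs_lt]
      constructor
      · rintro ⟨a', w', ⟨h1, h2, h3⟩, rfl, rfl⟩
        exact ⟨h2, h1, h3⟩
      · rintro ⟨h2, h1, h3⟩
        exact ⟨a, w, ⟨h1, h2, h3⟩, rfl, rfl⟩

lemma card_Wd (b : ℕ) : (Wd p b).card ≤ (2 * p) ^ b := by
  induction b with
  | zero => simp [Wd]
  | succ b ih =>
    refine card_image_le.trans ?_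
    rw [card_product, pow_succ', Int.card_Ioo]
    exact Nat.mul_le_mul (by omega) ih

lemma fac_Wd : Fac p (Wd p) where
  sub _ := Subset.rfl
  tk a b w hw := by
    rw [mem_Wd] at hw ⊢
    exact ⟨by simp [hw.1], fun x hx => hw.2 x (List.mem_of_mem_take hx)⟩
  dr a b w hw := by
    rw [mem_Wd] at hw ⊢
    exact ⟨by simp [hw.1], fun x hx => hw.2 x (List.mem_of_mem_drop hx)⟩

@[simp] lemma val_nil : val p q [] = 0 := rfl

lemma val_cons (a : ℤ) (w : List ℤ) :
    val p q (a :: w) = a * (q : ℤ) ^ w.length + p * val p q w := rfl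

lemma val_append (u v : List ℤ) :
    val p q (u ++ v) = (q : ℤ) ^ v.length * val p q u + (p : ℤ) ^ u.length * val p q v := by
  induction u with
  | nil => simp
  | cons a u ih =>
    rw [List.cons_append, val_cons, val_cons, ih, List.length_append, List.length_cons]
    ring

lemma val_abs_le (hqp : q < p) {b : ℕ} {w : List ℤ} (hw : w ∈ Wd p b) :
    |val p q w| ≤ p * ((p : ℤ) ^ b - (q : ℤ) ^ b) := by
  induction w generalizing b with
  | nil =>
    obtain ⟨rfl, _⟩ := mem_Wd.1 hw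
    simp
  | cons a w ih =>
    obtain ⟨rfl, h2⟩ := mem_Wd.1 hw
    have h3 := ih (mem_Wd.2 ⟨rfl, fun x hx => h2 x (List.mem_cons_of_mem _ hx)⟩)
    have h4 := h2 a List.mem_cons_self
    have h5 : (0 : ℤ) ≤ (q : ℤ) ^ w.length := by positivity
    have h6 : (q : ℤ) + 1 ≤ p := by exact_mod_cast hqp
    have h7 : (0 : ℤ) ≤ p := by positivity
    rw [val_cons, List.length_cons, pow_succ, pow_succ]
    refine (abs_add_le _ _).trans ?_
    rw [abs_mul, abs_mul, abs_of_nonneg h5, abs_of_nonneg h7]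
    have h8 := mul_le_mul_of_nonneg_right h4.le h5
    have h9 := mul_le_mul_of_nonneg_left h3 h7
    have h10 := mul_le_mul_of_nonneg_left h6 (mul_nonneg h7 h5)
    nlinarith

lemma val_abs_lt (hq : 0 < q) (hqp : q < p) {b : ℕ} {w : List ℤ} (hw : w ∈ Wd p b) :
    |val p q w| < (p : ℤ) ^ (b + 1) := by
  have h1 := val_abs_le hqp hw
  have h2 : (0 : ℤ) < (q : ℤ) ^ b := by positivity
  have h3 : (0 : ℤ) < p := by exact_mod_cast hq.trans hqp
  rw [pow_succ]
  nlinarith [mul_pos h3 h2]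

lemma cop_pow (h : p.Coprime q) (a b : ℕ) : IsCoprime ((p : ℤ) ^ a) ((q : ℤ) ^ b) :=
  (Nat.isCoprime_iff_coprime.2 h).pow

lemma val_cons_ne (h : p.Coprime q) {a : ℤ} (ha : a ≠ 0) (hp : |a| < p) (w : List ℤ) :
    val p q (a :: w) ≠ 0 := by
  intro h0
  rw [val_cons] at h0
  have h1 : (p : ℤ) ∣ a * (q : ℤ) ^ w.length := ⟨-val p q w, by linarith⟩
  have h2 := (pow_one (p : ℤ) ▸ cop_pow h 1 w.length).dvd_of_dvd_mul_right h1
  exact ha (Int.eq_zero_of_abs_lt_dvd h2 hp)

/-- At most `2 ^ b` words have a given value. -/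
lemma card_fib (h : p.Coprime q) (b : ℕ) (c : ℤ) :
    ((Wd p b).filter fun w => val p q w = c).card ≤ 2 ^ b := by
  induction b generalizing c with
  | zero => exact (card_filter_le _ _).trans (by simp [Wd])
  | succ b ih =>
    rcases Nat.eq_zero_or_pos p with rfl | hp
    · simp [Wd]
    have hp0 : (p : ℤ) ≠ 0 := by exact_mod_cast hp.ne'
    set A := (Ioo (-(p : ℤ)) p).filter fun a => (p : ℤ) ∣ c - a * (q : ℤ) ^ b with hA
    have h1 : A.card ≤ 2 := by
      refine (card_le_card_of_injOn (t := (univ : Finset Bool)) (fun a => decide (0 ≤ a))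
        (fun _ _ => mem_coe.2 (mem_univ _)) ?_).trans (by simp)
      intro a ha a' ha' he
      simp only [hA, coe_filter, mem_Ioo, Set.mem_ofPred_eq] at ha ha'
      have h2 : (p : ℤ) ∣ (a - a') * (q : ℤ) ^ b := by
        have := dvd_sub ha'.2 ha.2
        rwa [show c - a' * (q : ℤ) ^ b - (c - a * q ^ b) = (a - a') * q ^ b by ring] at this
      have h3 := (pow_one (p : ℤ) ▸ cop_pow h 1 b).dvd_of_dvd_mul_right h2
      have h4 : (0 ≤ a ↔ 0 ≤ a') := by simpa using he
      have h5 : |a - a'| < p := by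
        rw [abs_lt]
        constructor <;> omega
      linarith [Int.eq_zero_of_abs_lt_dvd h3 h5]
    calc _ ≤ (A.biUnion fun a => ((Wd p b).filter
            fun w => val p q w = (c - a * (q : ℤ) ^ b) / p).image (a :: ·)).card := by
          refine card_le_card fun w hw => ?_
          rw [mem_filter, Wd, mem_image] at hw
          obtain ⟨⟨⟨a, w'⟩, h2, rfl⟩, h3⟩ := hw
          rw [mem_product] at h2
          rw [val_cons, (mem_Wd.1 h2.2).1] at h3
          have h4 : c - a * (q : ℤ) ^ b = p * val p q w' := by linarith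
          refine mem_biUnion.2 ⟨a, mem_filter.2 ⟨h2.1, ⟨_, h4⟩⟩, mem_image.2 ⟨w', ?_, rfl⟩⟩
          exact mem_filter.2 ⟨h2.2, by rw [h4, Int.mul_ediv_cancel_left _ hp0]⟩
      _ ≤ A.card * 2 ^ b := card_biUnion_le_card_mul _ _ _ fun a _ => card_image_le.trans (ih _)
      _ ≤ 2 ^ (b + 1) := by rw [pow_succ']; exact Nat.mul_le_mul_right _ h1

/-- A set of words that all have the same value is small. -/
lemma card_same (h : p.Coprime q) {b : ℕ} {T : Finset (List ℤ)} (hT : T ⊆ Wd p b)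
    (hv : ∀ v ∈ T, ∀ v' ∈ T, val p q v = val p q v') : T.card ≤ 2 ^ b := by
  rcases T.eq_empty_or_nonempty with rfl | ⟨v, hv0⟩
  · simp
  exact (card_le_card fun w hw => mem_filter.2 ⟨hT hw, hv w hw v hv0⟩).trans (card_fib h b _)

lemma length_blk {t b : ℕ} {w : List ℤ} (h : t + b ≤ w.length) : (blk t b w).length = b := by
  simp only [blk, List.length_take, List.length_drop]
  omega

lemma take_add' (t b : ℕ) (w : List ℤ) : w.take (t + b) = w.take t ++ blk t b w :=
  List.take_add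

lemma blk_take {t b n : ℕ} (h : t + b ≤ n) (w : List ℤ) : blk t b (w.take n) = blk t b w := by
  rw [blk, blk, List.drop_take, List.take_take, min_eq_left (by omega)]

lemma blk_blk {t b t' b' : ℕ} (h : t + b ≤ b') (w : List ℤ) :
    blk t b (blk t' b' w) = blk (t' + t) b w := by
  rw [blk.eq_1 t', blk_take h, blk, blk, List.drop_drop]

lemma take_blk {j b : ℕ} (h : j ≤ b) (t : ℕ) (w : List ℤ) : (blk t b w).take j = blk t j w := by
  rw [blk, blk, List.take_take, min_eq_left h]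

lemma blk_add (t a b : ℕ) (w : List ℤ) : blk t (a + b) w = blk t a w ++ blk (t + a) b w := by
  rw [blk, take_add', blk, blk, blk, List.drop_drop]

lemma sum_le_of_inj {α β : Type} {s : Finset α} {t : Finset β} (i : α → β)
    (hi : Set.InjOn i s) (hm : ∀ a ∈ s, i a ∈ t) {f : α → ℝ} {g : β → ℝ}
    (hg : ∀ b ∈ t, 0 ≤ g b) (h : ∀ a ∈ s, f a ≤ g (i a)) : ∑ a ∈ s, f a ≤ ∑ b ∈ t, g b := by
  classical
  refine (sum_le_sum h).trans ?_
  rw [← sum_image hi]
  exact sum_le_sum_of_subset_of_nonneg (image_subset_iff.2 hm) fun b hb _ => hg b hb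

namespace Fac

lemma len (h : Fac p Lg) {b : ℕ} {w : List ℤ} (hw : w ∈ Lg b) : w.length = b :=
  (mem_Wd.1 (h.sub b hw)).1

lemma card_le (h : Fac p Lg) (b : ℕ) : (Lg b).card ≤ (2 * p) ^ b :=
  (card_le_card (h.sub b)).trans (card_Wd b)

lemma take_mem (h : Fac p Lg) {L t : ℕ} {w : List ℤ} (hw : w ∈ Lg L) (ht : t ≤ L) :
    w.take t ∈ Lg t := by
  obtain ⟨e, rfl⟩ := Nat.exists_eq_add_of_le ht
  exact h.tk _ _ _ hw

lemma blk_mem (h : Fac p Lg) {L t b : ℕ} {w : List ℤ} (hw : w ∈ Lg L) (ht : t + b ≤ L) :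
    blk t b w ∈ Lg b := by
  rw [← blk_take le_rfl, blk, List.take_of_length_le]
  · exact h.dr _ _ _ (h.take_mem hw ht)
  · simp only [List.length_drop, List.length_take]
    omega

lemma split_pi (h : Fac p Lg) {K : Type} [Fintype K] [DecidableEq K] (a b : ℕ)
    (f : (K → List ℤ) → ℝ) (hf : ∀ w, 0 ≤ f w) :
    ∑ w ∈ Fintype.piFinset fun _ : K => Lg (a + b), f w ≤
      ∑ u ∈ Fintype.piFinset fun _ : K => Lg a, ∑ v ∈ Fintype.piFinset fun _ : K => Lg b,
        f fun k => u k ++ v k := by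
  rw [← sum_product']
  refine sum_le_of_inj (fun w => (fun k => (w k).take a, fun k => (w k).drop a)) ?_ ?_
    (fun _ _ => hf _) fun w _ => by simp
  · intro w _ w' _ he
    rw [Prod.mk.injEq] at he
    funext k
    rw [← List.take_append_drop a (w k), congrFun he.1 k, congrFun he.2 k, List.take_append_drop]
  · intro w hw
    simp only [mem_product, Fintype.mem_piFinset] at hw ⊢
    exact ⟨fun k => h.tk _ _ _ (hw k), fun k => h.dr _ _ _ (hw k)⟩

lemma split (h : Fac p Lg) (a b : ℕ) (f : List ℤ → ℝ) (hf : ∀ w, 0 ≤ f w) :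
    ∑ w ∈ Lg (a + b), f w ≤ ∑ u ∈ Lg a, ∑ v ∈ Lg b, f (u ++ v) := by
  rw [← sum_product']
  refine sum_le_of_inj (fun w => (w.take a, w.drop a)) ?_ ?_ (fun _ _ => hf _) fun w _ => by simp
  · intro w _ w' _ he
    rw [Prod.mk.injEq] at he
    rw [← List.take_append_drop a w, he.1, he.2, List.take_append_drop]
  · exact fun w hw => mem_product.2 ⟨h.tk _ _ _ hw, h.dr _ _ _ hw⟩

lemma card_add (h : Fac p Lg) (a b : ℕ) : (Lg (a + b)).card ≤ (Lg a).card * (Lg b).card := by
  have := h.split a b (fun _ => 1) fun _ => zero_le_one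
  simp only [sum_const, nsmul_eq_mul, mul_one] at this
  exact_mod_cast this

lemma card_mul (h : Fac p Lg) (k b : ℕ) : (Lg (k * b)).card ≤ (Lg b).card ^ k := by
  induction k with
  | zero => simpa using h.card_le 0
  | succ k ih =>
    rw [add_mul, one_mul, pow_succ]
    exact (h.card_add _ _).trans (Nat.mul_le_mul_right _ ih)

/-- The exponential moment along consecutive blocks. -/
lemma tree (h : Fac p Lg) (r b k : ℕ) (F : List ℤ → List ℤ → ℝ) (D : ℝ) (hF : ∀ u v, 0 ≤ F u v)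
    (hD : ∀ u, ∑ v ∈ Lg b, F u v ≤ D) :
    ∑ w ∈ Lg (r + k * b), ∏ i ∈ range k, F (w.take (r + i * b)) (blk (r + i * b) b w) ≤
      (Lg r).card * D ^ k := by
  have hD0 : 0 ≤ D := (sum_nonneg fun v _ => hF [] v).trans (hD [])
  induction k with
  | zero => simp
  | succ k ih =>
    rw [add_mul, one_mul, ← add_assoc]
    refine (h.split _ _ _ fun w => prod_nonneg fun _ _ => hF _ _).trans ?_
    rw [pow_succ, ← mul_assoc]
    refine le_trans ?_ (mul_le_mul_of_nonneg_right ih hD0)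
    rw [sum_mul]
    refine sum_le_sum fun u hu => ?_
    refine le_trans (le_of_eq ?_)
      (mul_le_mul_of_nonneg_left (hD u) (prod_nonneg fun _ _ => hF _ _))
    rw [mul_sum]
    refine sum_congr rfl fun v hv => ?_
    have e : (u ++ v).take (r + k * b) = u := by rw [← h.len hu, List.take_left]
    rw [prod_range_succ, e]
    congr 1
    · refine prod_congr rfl fun i hi => ?_
      have h1 : r + i * b + b ≤ r + k * b := by nlinarith [mem_range.1 hi]
      rw [← blk_take h1 (u ++ v), e, List.take_append_of_le_length (by rw [h.len hu]; omega)]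
    · rw [blk, ← h.len hu, List.drop_left, ← h.len hv, List.take_length]

end Fac

lemma surv_take {l : ℕ} {z : ℤ} {w : List ℤ} (h : Surv p q l z w) (a : ℕ) :
    Surv p q l z (w.take a) := by
  intro j hj
  rw [List.length_take] at hj
  rw [List.take_take, min_eq_left (by omega)]
  exact h j (by omega)

lemma cop_of_lt {l a : ℕ} (hl : l.Prime) (h0 : 0 < a) (ha : a < l) : IsCoprime (l : ℤ) (a : ℤ) :=
  Nat.isCoprime_iff_coprime.2 (Nat.coprime_of_lt_prime h0.ne' ha hl)

lemma mem_LS {b : ℕ} {w : List ℤ} : w ∈ LS p q b ↔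
    w ∈ Wd p b ∧ ∀ l : ℕ, l.Prime → p < l → ∃ z : ℤ, Surv p q l z w := by
  classical
  rw [LS, mem_filter]

lemma fac_LS (hp : 0 < p) : Fac p (LS p q) where
  sub b w hw := (mem_LS.1 hw).1
  tk a b w hw := by
    rw [mem_LS] at hw ⊢
    exact ⟨fac_Wd.tk _ _ _ hw.1, fun l h1 h2 => (hw.2 l h1 h2).imp fun z hz => surv_take hz a⟩
  dr a b w hw := by
    rw [mem_LS] at hw ⊢
    refine ⟨fac_Wd.dr _ _ _ hw.1, fun l h1 h2 => ?_⟩
    obtain ⟨z, hz⟩ := hw.2 l h1 h2
    obtain ⟨c, d, hc⟩ := (cop_of_lt h1 hp h2).pow_right (n := a)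
    have hl := fac_Wd.len hw.1
    refine ⟨d * ((q : ℤ) ^ a * z + val p q (w.take a)), fun j hj hd => ?_⟩
    rw [List.length_drop] at hj
    refine hz (a + j) (by omega) ?_
    rw [List.take_add, val_append, List.length_take, List.length_take, List.length_drop,
      min_eq_left hj, min_eq_left (by omega : a ≤ w.length)]
    obtain ⟨e, he⟩ := hd
    refine ⟨(p : ℤ) ^ a * e + c * (q : ℤ) ^ j * ((q : ℤ) ^ a * z + val p q (w.take a)), ?_⟩
    linear_combination (-((q : ℤ) ^ j * ((q : ℤ) ^ a * z + val p q (w.take a)))) * hc +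
      (p : ℤ) ^ a * he

/-- A linear congruence has exactly one solution. -/
lemma lin_one {l : ℕ} (hl : 0 < l) {a : ℤ} (ha : IsCoprime (l : ℤ) a) (c : ℤ) :
    ∃ x₀ ∈ range l, (range l).filter (fun x : ℕ => (l : ℤ) ∣ a * x + c) = {x₀} := by
  obtain ⟨u, v, huv⟩ := ha
  have hl0 : (0 : ℤ) < l := by exact_mod_cast hl
  have h1 := Int.emod_nonneg (-(v * c)) hl0.ne'
  have h2 := Int.emod_lt_of_pos (-(v * c)) hl0
  obtain ⟨x₀, hx⟩ := Int.eq_ofNat_of_zero_le h1
  have h3 : (l : ℤ) ∣ a * x₀ + c := by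
    refine ⟨u * c - a * (-(v * c) / l), ?_⟩
    rw [← hx, Int.emod_def]
    linear_combination (-c) * huv
  have h4 : x₀ ∈ range l := mem_range.2 (by omega)
  refine ⟨x₀, h4, eq_singleton_iff_unique_mem.2 ⟨mem_filter.2 ⟨h4, h3⟩, fun x hx' => ?_⟩⟩
  rw [mem_filter, mem_range] at hx'
  have h5 : (l : ℤ) ∣ a * (x - x₀) := by
    have := dvd_sub hx'.2 h3
    rwa [show a * x + c - (a * x₀ + c) = a * (x - x₀) by ring] at this
  have h6 := IsCoprime.dvd_of_dvd_mul_left ⟨u, v, huv⟩ h5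
  have h7 := Int.eq_zero_of_abs_lt_dvd h6 (by rw [abs_lt]; constructor <;> omega)
  omega

/-- Orthogonality of additive characters. -/
lemma sum_ee {B : ℕ} (hB : 0 < B) (x : ℤ) :
    ∑ a ∈ range B, ee (a * x / B) = if (B : ℤ) ∣ x then (B : ℂ) else 0 := by
  have hB0 : (B : ℝ) ≠ 0 := by exact_mod_cast hB.ne'
  have e : ∀ a : ℕ, ee (a * x / B) = ee (x / B) ^ a := by
    intro a
    induction a with
    | zero => simp [ee]
    | succ a ih => rw [pow_succ, ← ih, ← ee_add]; congr 1; push_cast; ring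
  simp only [e]
  split_ifs with h
  · obtain ⟨k, rfl⟩ := h
    have : (((B : ℤ) * k : ℤ) : ℝ) / B = k := by push_cast; field_simp
    rw [this, ee_int]
    simp
  · have h1 : ee (x / B) ≠ 1 := by
      intro h1
      rw [ee, Complex.exp_eq_one_iff] at h1
      obtain ⟨n, hn⟩ := h1
      refine h ⟨n, ?_⟩
      have h2 : (2 * Real.pi * Complex.I : ℂ) ≠ 0 := Complex.two_pi_I_ne_zero
      have h3 : (((x : ℝ) / B : ℝ) : ℂ) = n := mul_left_cancel₀ h2 (by rw [hn]; ring)
      have h4 : (x : ℝ) / B = n := by exact_mod_cast h3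
      rw [div_eq_iff hB0] at h4
      exact_mod_cast h4.trans (mul_comm _ _)
    rw [geom_sum_eq h1, ← e, mul_div_cancel_left₀ _ hB0, ee_int, sub_self, zero_div]

end Pool.Agent.MP_c6582e_nt.H5
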