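import Pool.Agent.MP_c6582e_nt.H5.Rare

/-! The chain rule along the primes. -/

namespace Pool.Agent.MP_c6582e_nt.H5

open Finset

variable {α : Type} {S : Finset α} {y : α → ℤ} {P : Finset ℕ}

lemma filter_succ (P : Finset ℕ) (R : ℕ) :
    P.filter (· < R + 1) = if R ∈ P then insert R (P.filter (· < R)) else P.filter (· < R) := by
  ext l
  split_ifs with h
  · simp only [mem_filter, mem_insert]
    constructor
    · rintro ⟨h1, h2⟩
      rcases Nat.lt_succ_iff_lt_or_eq.1 h2 with h3 | h3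
      exacts [Or.inr ⟨h1, h3⟩, Or.inl h3]
    · rintro (rfl | ⟨h1, h2⟩)
      exacts [⟨h, Nat.lt_succ_self _⟩, ⟨h1, h2.trans (Nat.lt_succ_self _)⟩]
  · simp only [mem_filter, and_congr_right_iff]
    intro h1
    have : l ≠ R := fun e => h (e ▸ h1)
    omega

lemma not_mem_lt (P : Finset ℕ) (R : ℕ) : R ∉ P.filter (· < R) := by simp

lemma Mo_dvd {l R : ℕ} (h : l ≤ R) : (Mo P l : ℤ) ∣ Mo P R :=
  Int.natCast_dvd_natCast.2 (prod_dvd_prod_of_subset _ _ _ fun _ hx =>
    mem_filter.2 ⟨(mem_filter.1 hx).1, (mem_filter.1 hx).2.trans_le h⟩)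

lemma dvd_Mo {l R : ℕ} (hl : l ∈ P) (h : l < R) : (l : ℤ) ∣ Mo P R :=
  Int.natCast_dvd_natCast.2 (dvd_prod_of_mem _ (mem_filter.2 ⟨hl, h⟩))

lemma cn_congr {M : ℕ} {x x' : ℤ} (h : x ≡ x' [ZMOD M]) : cn S y M x = cn S y M x' :=
  congrArg card (filter_congr fun _ _ => ⟨fun h1 => h1.trans h, fun h1 => h1.trans h.symm⟩)

lemma cn_pos {M : ℕ} {w : α} (hw : w ∈ S) : (0 : ℝ) < cn S y M (y w) := by
  exact_mod_cast card_pos.2 ⟨w, mem_filter.2 ⟨hw, Int.ModEq.rfl⟩⟩

lemma nu_congr {l : ℕ} {x x₁ x' x₁' : ℤ} (h : x ≡ x₁ [ZMOD Mo P l]) (h' : x' ≡ x₁' [ZMOD l]) :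
    nu S y P l x x' = nu S y P l x₁ x₁' := by
  rw [nu, nu, cn_congr h]
  congr 3
  exact filter_congr fun _ _ =>
    ⟨fun h1 => ⟨h1.1.trans h, h1.2.trans h'⟩, fun h1 => ⟨h1.1.trans h.symm, h1.2.trans h'.symm⟩⟩

lemma nu_nonneg (l : ℕ) (x x' : ℤ) : 0 ≤ nu S y P l x x' := by
  rw [nu]
  positivity

lemma nl_nonneg (θ : ℝ) (l : ℕ) (x x' : ℤ) : 0 ≤ nl θ S y P l x x' := by
  rw [nl]
  split_ifs
  exacts [nu_nonneg _ _ _, le_rfl]

lemma nl_le_nu (θ : ℝ) (l : ℕ) (x x' : ℤ) : nl θ S y P l x x' ≤ nu S y P l x x' := by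
  rw [nl]
  split_ifs
  exacts [le_rfl, nu_nonneg _ _ _]

lemma nl_le (θ : ℝ) (l : ℕ) (x x' : ℤ) : nl θ S y P l x x' ≤ Real.exp (-(θ * Real.log l)) := by
  rw [nl]
  split_ifs with h
  exacts [h, (Real.exp_pos _).le]

lemma tower (M : ℕ) (Φ φ : α → ℝ) (hΦ : ∀ w ∈ S, ∀ w' ∈ S, y w ≡ y w' [ZMOD M] → Φ w = Φ w') :
    ∑ w ∈ S, Φ w * φ w =
      ∑ w ∈ S, Φ w * ((∑ w' ∈ S.filter fun w' => y w' ≡ y w [ZMOD M], φ w') / cn S y M (y w)) := by
  simp only [sum_filter, sum_div, mul_sum]
  rw [sum_comm]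
  refine sum_congr rfl fun w hw => ?_
  have h1 : ∀ w' ∈ S, Φ w' * ((if y w ≡ y w' [ZMOD M] then φ w else 0) / cn S y M (y w')) =
      if y w' ≡ y w [ZMOD M] then Φ w * φ w / cn S y M (y w) else 0 := by
    intro w' hw'
    by_cases h : y w ≡ y w' [ZMOD M]
    · rw [if_pos h, if_pos h.symm, hΦ w hw w' hw' h, cn_congr h, mul_div_assoc]
    · rw [if_neg h, if_neg fun h' => h h'.symm, zero_div, mul_zero]
  rw [sum_congr rfl h1, ← sum_filter, sum_const, nsmul_eq_mul]
  exact (mul_div_cancel₀ _ (cn_pos hw).ne').symm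

/-- The mean of a periodic function over a class. -/
lemma fib {l : ℕ} (hl : 0 < l) {w : α} (G : ℤ → ℝ) (hG : ∀ x x', x ≡ x' [ZMOD l] → G x = G x') :
    (∑ w' ∈ S.filter fun w' => y w' ≡ y w [ZMOD Mo P l], G (y w')) / cn S y (Mo P l) (y w) =
      ∑ x ∈ range l, G x * nu S y P l (y w) x := by
  simp only [nu, ← mul_div_assoc, ← sum_div, ← filter_filter]
  congr 1
  simp only [card_filter, Nat.cast_sum, mul_sum]
  rw [sum_comm]
  refine sum_congr rfl fun w' _ => ?_
  obtain ⟨x₀, h0, h1⟩ := lin_one hl isCoprime_one_right (-y w')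
  have h2 : ∀ x ∈ range l, y w' ≡ (x : ℕ) [ZMOD l] ↔ x = x₀ := fun x hx => by
    rw [Int.modEq_iff_dvd, ← mem_singleton, ← h1, mem_filter, one_mul, sub_eq_add_neg]
    exact ⟨fun h => ⟨hx, h⟩, fun h => h.2⟩
  rw [sum_eq_single_of_mem x₀ h0 fun x hx hne => by rw [if_neg (mt (h2 x hx).1 hne)]; simp,
    if_pos ((h2 _ h0).2 rfl), hG _ _ ((h2 _ h0).2 rfl)]
  simp

lemma sum_nu {l : ℕ} (hl : 0 < l) {w : α} (hw : w ∈ S) :
    ∑ x ∈ range l, nu S y P l (y w) x = 1 := by
  have := fib (S := S) (y := y) (P := P) (w := w) hl (fun _ => 1) fun _ _ _ => rfl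
  simp only [sum_const, nsmul_eq_mul, mul_one, one_mul] at this
  exact this.symm.trans (div_self (cn_pos hw).ne')

theorem up : UpStmt := by
  intro α β S y P W T kill _ hP hW hk hs
  classical
  set a : β → ℕ → α → ℝ := fun v l w =>
    ∑ x ∈ (range l).filter (fun x : ℕ => kill l v x), nu S y P l (y w) x with ha
  set φ : β → ℕ → α → ℝ := fun v l w => if kill l v (y w) then 0 else Real.exp (a v l w) with hφ
  have hφ0 : ∀ v l w, 0 ≤ φ v l w := fun v l w => by
    simp only [hφ]
    split_ifs <;> positivity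
  have hiff : ∀ l ∈ P, ∀ v x x', x ≡ x' [ZMOD l] → (kill l v x ↔ kill l v x') :=
    fun l hl v x x' h => ⟨hk l hl v _ _ h, hk l hl v _ _ h.symm⟩
  have haa : ∀ v l w w', y w ≡ y w' [ZMOD Mo P l] → a v l w = a v l w' := fun v l w w' h =>
    sum_congr rfl fun x _ => nu_congr h Int.ModEq.rfl
  have key : ∀ v R, ∑ w ∈ S, ∏ l ∈ P.filter (· < R), φ v l w ≤ S.card := by
    intro v R
    induction R with
    | zero => simp
    | succ R ih =>
      rw [filter_succ]
      split_ifs with hR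
      swap
      · exact ih
      simp only [prod_insert (not_mem_lt P R), mul_comm (φ v R _)]
      rw [tower (y := y) (Mo P R)]
      · refine le_trans (sum_le_sum fun w hw => ?_) ih
        refine mul_le_of_le_one_right (prod_nonneg fun _ _ => hφ0 _ _ _) ?_
        have h1 : ∀ w' ∈ S.filter fun w' => y w' ≡ y w [ZMOD Mo P R], φ v R w' =
            (fun x => if kill R v x then 0 else Real.exp (a v R w)) (y w') := fun w' hw' => by
          simp only [hφ, haa v R w' w (mem_filter.1 hw').2]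
        rw [sum_congr rfl h1, fib (hP R hR).pos
          (fun x => if kill R v x then 0 else Real.exp (a v R w))
          fun x x' h => by simp only [hiff R hR v x x' h]]
        have h2 : ∀ x ∈ range R, (if kill R v (x : ℕ) then 0 else Real.exp (a v R w)) *
            nu S y P R (y w) x = Real.exp (a v R w) *
              (nu S y P R (y w) x - if kill R v (x : ℕ) then nu S y P R (y w) x else 0) := by
          intro x _
          split_ifs <;> simp
        rw [sum_congr rfl h2, ← mul_sum, sum_sub_distrib, sum_nu (hP R hR).pos hw, ← sum_filter]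
        have h3 := mul_le_mul_of_nonneg_left (Real.add_one_le_exp (-a v R w))
          (Real.exp_pos (a v R w)).le
        rw [← Real.exp_add, add_neg_cancel, Real.exp_zero] at h3
        change Real.exp (a v R w) * (1 - a v R w) ≤ 1
        linarith
      · intro w _ w' _ h
        refine prod_congr rfl fun l hl => ?_
        rw [mem_filter] at hl
        simp only [hφ, haa v l w w' (h.of_dvd (Mo_dvd hl.2.le)),
          hiff l hl.1 v _ _ (h.of_dvd (dvd_Mo hl.1 hl.2))]
  obtain ⟨R, hR⟩ : ∃ R, P.filter (· < R) = P :=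
    ⟨P.sup id + 1, filter_true_of_mem fun l hl => Nat.lt_succ_of_le (le_sup (f := id) hl)⟩
  have h1 : ∑ w ∈ S, Real.exp (∑ l ∈ P, a (W w) l w) ≤ T.card * S.card := by
    rw [← nsmul_eq_mul, ← sum_const]
    refine le_trans ?_ (sum_le_sum fun v _ => key v R)
    rw [sum_comm, hR]
    refine sum_le_sum fun w hw => le_trans (le_of_eq ?_) (single_le_sum
      (f := fun v => ∏ l ∈ P, φ v l w) (fun _ _ => prod_nonneg fun _ _ => hφ0 _ _ _) (hW w hw))
    rw [Real.exp_sum]
    exact prod_congr rfl fun l hl => (if_neg (hs w hw l hl)).symm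
  have h2 := jens S _ h1
  rcases S.eq_empty_or_nonempty with rfl | hS
  · simp
  rwa [mul_div_cancel_right₀ _ (by exact_mod_cast hS.card_pos.ne')] at h2

lemma cop_Mo (hP : ∀ l ∈ P, l.Prime) {R : ℕ} (hR : R.Prime) : (Mo P R).Coprime R :=
  Nat.Coprime.prod_left fun l hl =>
    (Nat.coprime_primes (hP l (mem_filter.1 hl).1) hR).2 (mem_filter.1 hl).2.ne

theorem low : LowStmt := by
  intro α S y P θ R hP hθ
  induction R with
  | zero =>
    refine le_of_eq (sum_eq_zero fun w hw => ?_) |>.trans (by simp)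
    have : cn S y (Mo P 0) (y w) = S.card :=
      congrArg card (filter_true_of_mem fun _ _ => by simpa [Mo] using Int.modEq_one)
    rw [this, div_self (by exact_mod_cast (card_pos.2 ⟨w, hw⟩).ne'), Real.log_one, neg_zero]
  | succ R ih =>
    rw [Mo, filter_succ]
    split_ifs with hR
    swap
    · exact ih
    have hR0 := (hP R hR).pos
    have hR1 : (1 : ℝ) ≤ R := by exact_mod_cast hR0
    have hl := Real.log_nonneg hR1
    rw [prod_insert (not_mem_lt P R), sum_insert (not_mem_lt P R), ← Mo, mul_comm R]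
    refine le_trans ?_ (add_le_add_right ih _)
    set G : α → ℤ → ℝ := fun w x => 1 / (R * nu S y P R (y w) x) +
      Real.log R * if nu S y P R (y w) x ≤ Real.exp (-(θ * Real.log R)) then 1 else 0 with hG
    have h1 : ∀ w ∈ S, -Real.log ((cn S y (Mo P R * R) (y w) : ℝ) / S.card) ≤
        θ * Real.log R + 1 * G w (y w) + -Real.log ((cn S y (Mo P R) (y w) : ℝ) / S.card) := by
      intro w hw
      have h2 : (cn S y (Mo P R * R) (y w) : ℝ) = nu S y P R (y w) (y w) * cn S y (Mo P R) (y w) := by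
        rw [nu, div_mul_cancel₀ _ (cn_pos hw).ne', cn]
        congr 2
        refine filter_congr fun _ _ => ?_
        rw [Nat.cast_mul]
        exact (Int.modEq_and_modEq_iff_modEq_mul (by simpa using cop_Mo hP (hP R hR))).symm
      have h3 : 0 < nu S y P R (y w) (y w) := pos_of_mul_pos_left (h2 ▸ cn_pos hw) (cn_pos hw).le
      have h4 : (0 : ℝ) < S.card := by exact_mod_cast card_pos.2 ⟨w, hw⟩
      rw [h2, mul_div_assoc, Real.log_mul h3.ne' (div_pos (cn_pos hw) h4).ne', hG]
      have h5 : 0 < 1 / (R * nu S y P R (y w) (y w)) := by positivity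
      have h6 := Real.log_le_sub_one_of_pos h5
      rw [one_div, Real.log_inv, Real.log_mul (by linarith) h3.ne', ← one_div] at h6
      dsimp only
      split_ifs with h7
      · nlinarith [mul_nonneg hθ hl]
      · have h8 := (Real.lt_log_iff_exp_lt h3).2 (not_le.1 h7)
        linarith
    refine (sum_le_sum h1).trans ?_
    rw [sum_add_distrib, sum_add_distrib, sum_const,
      tower (y := y) (Mo P R) (fun _ => 1) _ fun _ _ _ _ _ => rfl, nsmul_eq_mul, mul_add, mul_one, add_assoc (_ * _) (S.card : ℝ)]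
    refine add_le_add_left (add_le_add_right ?_ _) _
    rw [mul_sum, card_eq_sum_ones, Nat.cast_sum, ← sum_add_distrib]
    refine sum_le_sum fun w hw => ?_
    have h2 : ∀ w' ∈ S.filter fun w' => y w' ≡ y w [ZMOD Mo P R], G w' (y w') = G w (y w') :=
      fun w' hw' => by simp only [hG, nu_congr (mem_filter.1 hw').2 (Int.ModEq.refl (y w'))]
    rw [one_mul, sum_congr rfl h2, fib hR0 (G w) fun x x' h => by
      simp only [hG, nu_congr (Int.ModEq.refl (y w)) h]]
    have h3 : ∀ x ∈ range R, G w x * nu S y P R (y w) x ≤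
        1 / R + Real.log R * nl θ S y P R (y w) x := by
      intro x _
      simp only [hG, nl, add_mul, mul_assoc, ite_mul, one_mul, zero_mul]
      refine add_le_add_left ?_ _
      rcases eq_or_ne (nu S y P R (y w) x) 0 with h | h
      · rw [h, mul_zero]
        positivity
      · exact le_of_eq (by field_simp)
    refine (sum_le_sum h3).trans (le_of_eq ?_)
    rw [sum_add_distrib, sum_const, card_range, nsmul_eq_mul, mul_sum,
      mul_one_div_cancel (by linarith), Nat.cast_one]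

/-- Abel summation. -/
lemma abel (P : Finset ℕ) (d w : ℕ → ℝ) (hw : ∀ l, w (l + 1) ≤ w l) (h0 : ∀ l, 0 ≤ w l)
    (hd : ∀ R, 0 ≤ ∑ l ∈ P.filter (· < R), d l) : 0 ≤ ∑ l ∈ P, w l * d l := by
  have key : ∀ R, w R * ∑ l ∈ P.filter (· < R), d l ≤ ∑ l ∈ P.filter (· < R), w l * d l := by
    intro R
    induction R with
    | zero => simp
    | succ R ih =>
      refine (mul_le_mul_of_nonneg_right (hw R) (hd _)).trans ?_
      rw [filter_succ]
      split_ifs
      · rw [sum_insert (not_mem_lt P R), sum_insert (not_mem_lt P R), mul_add]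
        linarith
      · exact ih
  obtain ⟨R, hR⟩ : ∃ R, P.filter (· < R) = P :=
    ⟨P.sup id + 1, filter_true_of_mem fun l hl => Nat.lt_succ_of_le (le_sup (f := id) hl)⟩
  have := (mul_nonneg (h0 R) (hd R)).trans (key R)
  rwa [hR] at this

end Pool.Agent.MP_c6582e_nt.H5
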