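import Pool.Agent.MP_c6582e_nt.H5.Basic

/-! Sums of many values have almost no collisions. -/

namespace Pool.Agent.MP_c6582e_nt.H5

open Finset Pool.Agent.MP_74e98a_nt.H25

namespace CollAux

variable {p q : ℕ} {Lg : ℕ → Finset (List ℤ)}

/-- The number of words of `S` that begin with `u`. -/
def cnt (S : Finset (List ℤ)) (u : List ℤ) : ℝ :=
  ((S.filter fun w => w.take u.length = u).card : ℝ)

lemma cnt_nonneg (S : Finset (List ℤ)) (u : List ℤ) : 0 ≤ cnt S u := Nat.cast_nonneg _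

lemma cnt_nil (S : Finset (List ℤ)) : cnt S [] = S.card := by simp [cnt]

lemma cnt_one {S : Finset (List ℤ)} {u : List ℤ} (h : u ∈ S) : 1 ≤ cnt S u := by
  have : 0 < (S.filter fun w => w.take u.length = u).card :=
    card_pos.2 ⟨u, mem_filter.2 ⟨h, List.take_length⟩⟩
  unfold cnt
  exact Nat.one_le_cast.2 this

lemma cnt_sum (S : Finset (List ℤ)) {T : Finset (List ℤ)} {b : ℕ} (hT : ∀ v ∈ T, v.length = b)
    (u : List ℤ) : ∑ v ∈ T, cnt S (u ++ v) ≤ cnt S u := by
  have hd : (T : Set (List ℤ)).PairwiseDisjoint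
      fun v => S.filter fun w => w.take (u ++ v).length = u ++ v := by
    intro v hv v' hv' hne
    rw [Function.onFun, disjoint_left]
    intro w h1 h2
    rw [mem_filter, List.length_append] at h1 h2
    rw [hT v hv] at h1
    rw [hT v' hv'] at h2
    exact hne (List.append_cancel_left (h1.2.symm.trans h2.2))
  unfold cnt
  rw [← Nat.cast_sum, ← card_biUnion hd]
  refine Nat.cast_le.2 (card_le_card (biUnion_subset.2 fun v _ w hw => ?_))
  rw [mem_filter] at hw ⊢
  have := congrArg (List.take u.length) hw.2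
  rw [List.take_take, min_eq_left (by simp), List.take_left] at this
  exact ⟨hw.1, this⟩

lemma cls (h : p.Coprime q) (hq : 0 < q) (hqp : q < p) (hF : Fac p Lg) (j e a : ℕ) (c₀ : ℤ)
    (ha : ∀ x : ℕ, 0 < x → x < 2 * p ^ (j + 1) → ¬ p ^ (j + e) ∣ a * x) :
    ((Lg (j + e)).filter fun v => ((p ^ (j + e) : ℕ) : ℤ) ∣ a * (val p q v - c₀)).card ≤
      2 ^ j * (Lg e).card := by
  refine card_le_mul_card_image_of_maps_to (f := List.drop j)
    (fun v hv => hF.dr _ _ _ (mem_filter.1 hv).1) _ fun d hd => ?_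
  rw [← card_image_of_injOn (f := List.take j)]
  · refine card_same h (b := j) (fun t ht => ?_) fun t ht t' ht' => ?_
    · obtain ⟨v, hv, rfl⟩ := mem_image.1 ht
      exact hF.sub _ (hF.tk _ _ _ (mem_filter.1 (mem_filter.1 hv).1).1)
    obtain ⟨v, hv, rfl⟩ := mem_image.1 ht
    obtain ⟨v', hv', rfl⟩ := mem_image.1 ht'
    simp only [mem_filter] at hv hv'
    have a1 := hF.tk _ _ _ hv.1.1
    have a2 := hF.tk _ _ _ hv'.1.1
    have e1 := val_append (p := p) (q := q) (v.take j) (v.drop j)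
    have e2 := val_append (p := p) (q := q) (v'.take j) (v'.drop j)
    rw [List.take_append_drop, hv.2, hF.len hd, hF.len a1] at e1
    rw [List.take_append_drop, hv'.2, hF.len hd, hF.len a2] at e2
    have d1 := dvd_sub hv.1.2 hv'.1.2
    rw [show (a : ℤ) * (val p q v - c₀) - a * (val p q v' - c₀) =
      a * (val p q (v.take j) - val p q (v'.take j)) * (q : ℤ) ^ e by rw [e1, e2]; ring] at d1
    rw [Nat.cast_pow] at d1
    have d2 := (cop_pow h (j + e) e).dvd_of_dvd_mul_right d1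
    by_contra hne
    have b1 := val_abs_lt hq hqp (hF.sub _ a1)
    have b2 := val_abs_lt hq hqp (hF.sub _ a2)
    refine ha (val p q (v.take j) - val p q (v'.take j)).natAbs
      (Int.natAbs_pos.2 (sub_ne_zero.2 hne)) ?_ ?_
    · zify
      linarith [abs_sub (val p q (v.take j)) (val p q (v'.take j))]
    · simpa [Int.natAbs_mul, Int.natAbs_pow] using Int.natAbs_dvd_natAbs.2 d2
  · intro v hv v' hv' he
    rw [mem_coe, mem_filter] at hv hv'
    rw [← List.take_append_drop j v, he, hv.2, ← hv'.2, List.take_append_drop]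

lemma exM (h : p.Coprime q) (hq : 0 < q) (hqp : q < p) (hF : Fac p Lg) (j e : ℕ)
    (n : List ℤ → ℝ) : ∃ M : Finset (List ℤ), M.card ≤ 2 ^ j * (Lg e).card ∧
      (∑ v ∈ Lg (j + e) \ M, n v ≤ 1 / 256 * ∑ v ∈ Lg (j + e), n v ∨
      ∀ a ∈ range (p ^ (j + e)), (∀ x : ℕ, 0 < x → x < 2 * p ^ (j + 1) → ¬ p ^ (j + e) ∣ a * x) →
        ∀ c₀ : ℤ, ∑ v ∈ (Lg (j + e)).filter
          (fun v => ((p ^ (j + e) : ℕ) : ℤ) ∣ a * (val p q v - c₀)), n v ≤
            255 / 256 * ∑ v ∈ Lg (j + e), n v) := by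
  by_cases h2 : ∀ a ∈ range (p ^ (j + e)),
      (∀ x : ℕ, 0 < x → x < 2 * p ^ (j + 1) → ¬ p ^ (j + e) ∣ a * x) →
        ∀ c₀ : ℤ, ∑ v ∈ (Lg (j + e)).filter
          (fun v => ((p ^ (j + e) : ℕ) : ℤ) ∣ a * (val p q v - c₀)), n v ≤
            255 / 256 * ∑ v ∈ Lg (j + e), n v
  · exact ⟨∅, by simp, Or.inr h2⟩
  · simp only [not_forall, not_le] at h2
    obtain ⟨a, -, ha, c₀, hc⟩ := h2
    refine ⟨_, cls h hq hqp hF j e a c₀ ha, Or.inl ?_⟩
    have := sum_sdiff (f := n) (filter_subset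
      (fun v => ((p ^ (j + e) : ℕ) : ℤ) ∣ a * (val p q v - c₀)) (Lg (j + e)))
    linarith

variable {K : Type} [Fintype K] [DecidableEq K]

/-- The number of words whose block number `i` lies in the large class. -/
def mj (M : List ℤ → Finset (List ℤ)) (b i : ℕ) (w : K → List ℤ) : ℕ :=
  (univ.filter fun k => blk (i * b) b (w k) ∈ M ((w k).take (i * b))).card

/-- The weight of a window. -/
noncomputable def tau (B S a : ℕ) : ℝ := if 2 * a ≤ S then 1 else 1 / (B : ℝ)

lemma tau_nonneg (B S a : ℕ) : 0 ≤ tau B S a := by unfold tau; split_ifs <;> positivity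

/-- The weight of a tuple of words. -/
noncomputable def GG (p q : ℕ) (σ : K → ℤ) (M : List ℤ → Finset (List ℤ)) (b i : ℕ)
    (w : K → List ℤ) : ℝ :=
  if ((p ^ b : ℕ) : ℤ) ^ i ∣ ∑ k, σ k * val p q (w k) then
    ∏ i' ∈ range i, tau (p ^ b) (Fintype.card K) (mj M b i' w) else 0

omit [DecidableEq K] in
lemma GG_nonneg (σ : K → ℤ) (M : List ℤ → Finset (List ℤ)) (b i : ℕ) (w : K → List ℤ) :
    0 ≤ GG p q σ M b i w := by
  unfold GG
  split_ifs
  · exact prod_nonneg fun _ _ => tau_nonneg _ _ _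
  · exact le_rfl

lemma first (h : p.Coprime q) (hp : 0 < p) (hF : Fac p Lg) (σ : K → ℤ)
    (M : List ℤ → Finset (List ℤ)) (b : ℕ) (c : List ℤ → ℝ) (R : ℝ) (hR : 0 ≤ R)
    (hc0 : ∀ u, 0 ≤ c u) (hc : ∀ u, ∑ v ∈ Lg b, c (u ++ v) ≤ c u)
    (hw : ∀ (u : K → List ℤ) (z : ℤ), ∑ v ∈ Fintype.piFinset fun _ : K => Lg b,
      (if ((p ^ b : ℕ) : ℤ) ∣ z + ∑ k, σ k * val p q (v k) then
        tau (p ^ b) (Fintype.card K) (univ.filter fun k => v k ∈ M (u k)).card else 0) *
        ∏ k, c (u k ++ v k) ≤ R * ∏ k, ∑ v ∈ Lg b, c (u k ++ v)) (i : ℕ) :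
    ∑ w ∈ Fintype.piFinset fun _ : K => Lg (i * b), GG p q σ M b i w * ∏ k, c (w k) ≤
      R ^ i * c [] ^ Fintype.card K := by
  induction i with
  | zero =>
    refine (sum_le_sum_of_subset_of_nonneg (t := {fun _ => []}) (fun w hw => ?_) fun w _ _ =>
      mul_nonneg (GG_nonneg _ _ _ _ _) (prod_nonneg fun _ _ => hc0 _)).trans (by simp [GG])
    rw [Fintype.mem_piFinset] at hw
    exact mem_singleton.2 (funext fun k => List.length_eq_zero_iff.1 (by simpa using hF.len (hw k)))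
  | succ i ih =>
    rw [add_mul, one_mul]
    refine (hF.split_pi _ _ _ fun w =>
      mul_nonneg (GG_nonneg _ _ _ _ _) (prod_nonneg fun _ _ => hc0 _)).trans ?_
    rw [pow_succ', mul_assoc]
    refine le_trans ?_ (mul_le_mul_of_nonneg_left ih hR)
    rw [mul_sum]
    refine sum_le_sum fun u hu => ?_
    rw [Fintype.mem_piFinset] at hu
    have hB : ((p ^ b : ℕ) : ℤ) ^ i ≠ 0 := by positivity
    have e1 : ∀ v ∈ Fintype.piFinset fun _ : K => Lg b, ∑ k, σ k * val p q (u k ++ v k) =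
        (q : ℤ) ^ b * ∑ k, σ k * val p q (u k) +
          ((p ^ b : ℕ) : ℤ) ^ i * ∑ k, σ k * val p q (v k) := by
      intro v hv
      rw [Fintype.mem_piFinset] at hv
      rw [mul_sum, mul_sum, ← sum_add_distrib]
      refine sum_congr rfl fun k _ => ?_
      rw [val_append, hF.len (hu k), hF.len (hv k), Nat.cast_pow, ← pow_mul, mul_comm b i]
      ring
    by_cases hd : ((p ^ b : ℕ) : ℤ) ^ i ∣ ∑ k, σ k * val p q (u k)
    · obtain ⟨z, hz⟩ := id hd
      have hP : 0 ≤ ∏ i' ∈ range i, tau (p ^ b) (Fintype.card K) (mj M b i' u) :=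
        prod_nonneg fun _ _ => tau_nonneg _ _ _
      have h1 := mul_le_mul_of_nonneg_left ((hw u ((q : ℤ) ^ b * z)).trans
        (mul_le_mul_of_nonneg_left (prod_le_prod (fun k _ => sum_nonneg fun _ _ => hc0 _)
          fun k _ => hc (u k)) hR)) hP
      rw [GG, if_pos hd, mul_left_comm]
      refine le_trans (le_of_eq ?_) h1
      rw [mul_sum]
      refine sum_congr rfl fun v hv => ?_
      rw [← mul_assoc]
      congr 1
      have e2 : ((p ^ b : ℕ) : ℤ) ^ (i + 1) ∣ ∑ k, σ k * val p q (u k ++ v k) ↔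
          ((p ^ b : ℕ) : ℤ) ∣ (q : ℤ) ^ b * z + ∑ k, σ k * val p q (v k) := by
        rw [e1 v hv, hz, mul_left_comm, ← mul_add, pow_succ, mul_dvd_mul_iff_left hB]
      rw [Fintype.mem_piFinset] at hv
      have e3 : mj M b i (fun k => u k ++ v k) = (univ.filter fun k => v k ∈ M (u k)).card := by
        refine congrArg card (filter_congr fun k _ => ?_)
        rw [blk, ← hF.len (hu k), List.drop_left, List.take_left,
          List.take_of_length_le (hF.len (hv k)).le]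
      have e4 : ∀ i' ∈ range i, tau (p ^ b) (Fintype.card K) (mj M b i' fun k => u k ++ v k) =
          tau (p ^ b) (Fintype.card K) (mj M b i' u) := by
        intro i' hi
        have h1 : i' * b + b ≤ i * b := by nlinarith [mem_range.1 hi]
        refine congrArg _ (congrArg card (filter_congr fun k _ => ?_))
        rw [← blk_take h1 (u k ++ v k), ← hF.len (hu k), List.take_left,
          List.take_append_of_le_length (by rw [hF.len (hu k)]; omega)]
      rw [GG, prod_range_succ, e3, prod_congr rfl e4]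
      simp only [e2]
      split_ifs <;> simp
    · rw [GG, if_neg hd, zero_mul, mul_zero]
      refine le_of_eq (sum_eq_zero fun v hv => ?_)
      rw [GG, if_neg, zero_mul]
      intro h1
      rw [e1 v hv] at h1
      have h2 := (dvd_add_left (dvd_mul_right _ _)).1 ((pow_dvd_pow _ (Nat.le_succ i)).trans h1)
      refine hd (IsCoprime.dvd_of_dvd_mul_left ?_ h2)
      rw [Nat.cast_pow, ← pow_mul]
      exact cop_pow h _ _

lemma point (a : ℕ → ℕ) (S n N g B : ℕ) (x : ℝ) (hx : 1 ≤ x) (hB : (B : ℝ) = x ^ N) :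
    1 ≤ x ^ n * ∏ i ∈ range n, tau B S (a i) +
      Real.exp (-(g * n * S / 2)) * ∏ i ∈ range n, Real.exp ((N * g : ℕ) : ℝ) ^ a i := by
  have h0 : 0 < x := by linarith
  have h1 : ∏ i ∈ range n, tau B S (a i) =
      (1 / (B : ℝ)) ^ ((range n).filter fun i => ¬ 2 * a i ≤ S).card := by
    simp only [tau]
    rw [prod_ite]
    simp
  set d := ((range n).filter fun i => ¬ 2 * a i ≤ S).card with hd
  by_cases h : N * d ≤ n
  · refine le_add_of_le_of_nonneg ?_ (by positivity)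
    rw [h1, hB, one_div, inv_pow, ← pow_mul, ← div_eq_mul_inv, one_le_div (by positivity)]
    exact pow_le_pow_right₀ hx h
  · refine le_add_of_nonneg_of_le (by rw [h1]; positivity) ?_
    rw [prod_pow_eq_pow_sum, ← Real.exp_nat_mul, ← Real.exp_add]
    refine Real.one_le_exp ?_
    have h2 : d * S ≤ 2 * ∑ i ∈ range n, a i := by
      rw [mul_sum]
      refine le_trans ?_ (sum_le_sum_of_subset (filter_subset (fun i => ¬ 2 * a i ≤ S) _))
      rw [← smul_eq_mul]
      exact card_nsmul_le_sum _ _ _ fun i hi => (not_le.1 (mem_filter.1 hi).2).le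
    have h3 : g * n * S ≤ 2 * ((∑ i ∈ range n, a i) * (N * g)) :=
      calc g * n * S ≤ g * (N * d) * S := by gcongr; omega
        _ = d * S * (N * g) := by ring
        _ ≤ _ := by rw [← mul_assoc 2]; gcongr
    have h4 : (g : ℝ) * n * S ≤ 2 * (((∑ i ∈ range n, a i : ℕ) : ℝ) * ((N * g : ℕ) : ℝ)) := by
      exact_mod_cast h3
    linarith

lemma second (hF : Fac p Lg) (M : List ℤ → Finset (List ℤ)) (b n : ℕ) (y : ℝ) (hy : 0 ≤ y)
    (hM : ∀ u, y * (M u).card ≤ (Lg b).card) :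
    ∑ w ∈ Fintype.piFinset fun _ : K => Lg (n * b), ∏ i ∈ range n, y ^ mj M b i w ≤
      ((2 * (Lg b).card) ^ n) ^ Fintype.card K := by
  have hn : ∀ u v, 0 ≤ (if v ∈ M u then y else 1) := fun u v => by split_ifs <;> positivity
  have h1 := hF.tree 0 b n (fun u v => if v ∈ M u then y else 1) (2 * (Lg b).card) hn fun u => by
    rw [sum_ite, sum_const, sum_const, nsmul_eq_mul, nsmul_eq_mul, mul_one]
    have a1 : (((Lg b).filter fun v => v ∈ M u).card : ℝ) ≤ (M u).card :=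
      Nat.cast_le.2 (card_le_card fun v hv => (mem_filter.1 hv).2)
    have a2 : (((Lg b).filter fun v => v ∉ M u).card : ℝ) ≤ (Lg b).card :=
      Nat.cast_le.2 (card_filter_le _ _)
    nlinarith [hM u]
  simp only [zero_add] at h1
  have h2 : ((Lg 0).card : ℝ) ≤ 1 := by exact_mod_cast (hF.card_le 0).trans (by simp)
  have h3 := h1.trans (mul_le_of_le_one_left (by positivity) h2)
  have h4 : ∀ w : K → List ℤ, ∏ i ∈ range n, y ^ mj M b i w = ∏ k, ∏ i ∈ range n,
      (if blk (i * b) b (w k) ∈ M ((w k).take (i * b)) then y else 1) := fun w => by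
    rw [prod_comm]
    refine prod_congr rfl fun i _ => ?_
    rw [prod_ite, mj]
    simp
  simp only [h4]
  rw [← prod_univ_sum (fun _ : K => Lg (n * b)) fun _ w => ∏ i ∈ range n,
    (if blk (i * b) b w ∈ M (w.take (i * b)) then y else 1), prod_const, card_univ]
  exact pow_le_pow_left₀ (sum_nonneg fun _ _ => prod_nonneg fun _ _ => hn _ _) h3 _

lemma col_le (s : ℕ) (T : Finset (List ℤ)) (H : (Fin s ⊕ Fin s → List ℤ) → ℝ) (h0 : ∀ w, 0 ≤ H w)
    (h1 : ∀ w ∈ Fintype.piFinset fun _ : Fin s ⊕ Fin s => T,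
      ∑ k, Sum.elim (fun _ => 1) (fun _ => -1) k * val p q (w k) = 0 → 1 ≤ H w) :
    (col p q s T : ℝ) ≤ ∑ w ∈ Fintype.piFinset fun _ : Fin s ⊕ Fin s => T, H w := by
  rw [col, card_eq_sum_ones, Nat.cast_sum]
  have hm : ∀ x ∈ ((Fintype.piFinset fun _ : Fin s => T) ×ˢ
      (Fintype.piFinset fun _ : Fin s => T)).filter
        fun x => ∑ i, val p q (x.1 i) = ∑ i, val p q (x.2 i),
      Sum.elim x.1 x.2 ∈ Fintype.piFinset fun _ : Fin s ⊕ Fin s => T := by
    intro x hx
    simp only [mem_filter, mem_product, Fintype.mem_piFinset] at hx ⊢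
    rintro (k | k)
    · exact hx.1.1 k
    · exact hx.1.2 k
  refine sum_le_of_inj (fun x => Sum.elim x.1 x.2) (fun x _ x' _ he => ?_) hm (fun w _ => h0 w)
    fun x hx => ?_
  · exact Prod.ext (funext fun k => congrFun he (Sum.inl k))
      (funext fun k => congrFun he (Sum.inr k))
  · rw [Nat.cast_one]
    refine h1 _ (hm x hx) ?_
    simp [Fintype.sum_sum_type, (mem_filter.1 hx).2]

end CollAux

open CollAux

theorem coll (hw : WinStmt) : CollStmt := by
  intro p q h Lg hc hq hqp hF hE η hη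
  obtain ⟨N, hN⟩ := exists_nat_ge (5 / η)
  obtain ⟨b₀, hb⟩ := hE.upp (1 / (4 * ((N : ℝ) + 2) ^ 2)) (by positivity)
  obtain ⟨g, hg⟩ : ∃ g, g = 8 + b₀ := ⟨_, rfl⟩
  obtain ⟨j, hj⟩ : ∃ j, j = (N + 2) * g := ⟨_, rfl⟩
  obtain ⟨e, he⟩ : ∃ e, e = (N + 1) * j := ⟨_, rfl⟩
  have hp : 2 ≤ p := by omega
  have hgj : 2 * g ≤ j := by rw [hj]; exact Nat.mul_le_mul_right _ (by omega)
  have hje : j ≤ e := by rw [he]; exact Nat.le_mul_of_pos_left _ (by omega)
  have hm : j + e = j * (N + 2) := by rw [he]; ring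
  obtain ⟨S₀, hS⟩ := hw (p ^ (j + e)) (2 * p ^ (j + 1)) (by positivity)
  refine ⟨j + e, S₀ + p ^ (j + e), by omega, by positivity, fun n hn => ?_⟩
  obtain ⟨s, hs⟩ : ∃ s, s = S₀ + p ^ (j + e) := ⟨_, rfl⟩
  rw [← hs]
  have hK : Fintype.card (Fin s ⊕ Fin s) = 2 * s := by simp [two_mul]
  choose M hM1 hM2 using fun u => exM hc hq hqp hF j e fun v => cnt (Lg (n * (j + e))) (u ++ v)
  have hpr : (2 : ℝ) ≤ p := by exact_mod_cast hp
  have hj1 : (j : ℝ) = ((N : ℝ) + 2) * g := by rw [hj]; push_cast; ring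
  have hε : 1 / (4 * ((N : ℝ) + 2) ^ 2) * ((j + e : ℕ) : ℝ) = g / 4 := by
    rw [hm]; push_cast; rw [hj1]; field_simp
  have l2 := Real.log_two_gt_d9
  have l8 : Real.log 8 = 3 * Real.log 2 := by
    rw [show (8 : ℝ) = 2 ^ 3 by norm_num, Real.log_pow]; norm_num
  have hM3 : ∀ u, Real.exp j * (M u).card ≤ (Lg (j + e)).card := by
    intro u
    have a1 : ((M u).card : ℝ) ≤ 2 ^ j * (Lg e).card := by exact_mod_cast hM1 u
    have a2 : (2 : ℝ) ^ j = Real.exp (j * Real.log 2) := by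
      rw [Real.exp_nat_mul, Real.exp_log two_pos]
    refine le_trans ?_ (hE.low (j + e))
    refine (mul_le_mul_of_nonneg_left (a1.trans (mul_le_mul_of_nonneg_left (hb e (by omega))
      (by positivity))) (by positivity)).trans ?_
    rw [a2, ← Real.exp_add, ← Real.exp_add, Real.exp_le_exp]
    have a3 : (2 : ℝ) * g ≤ j := by exact_mod_cast hgj
    have a4 : (0 : ℝ) ≤ 1 / (4 * ((N : ℝ) + 2) ^ 2) * j := by positivity
    have a5 := mul_le_mul_of_nonneg_right hE.big (Nat.cast_nonneg j : (0 : ℝ) ≤ j)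
    have a6 := mul_le_mul_of_nonneg_right l2.le (Nat.cast_nonneg j : (0 : ℝ) ≤ j)
    rw [l8] at a5
    push_cast at hε ⊢
    have a7 : (0 : ℝ) ≤ j := Nat.cast_nonneg j
    nlinarith
  have F1 := first (K := Fin s ⊕ Fin s) hc (by omega) hF (Sum.elim (fun _ => 1) fun _ => -1) M
    (j + e) (cnt (Lg (n * (j + e)))) ((((2 * p ^ (j + 1) : ℕ) : ℝ) ^ 2 + 2) / (p ^ (j + e) : ℕ))
    (by positivity) (cnt_nonneg _) (cnt_sum _ fun v hv => hF.len hv)
    (fun u z => hS _ _ (Lg (j + e)) (val p q) _ (fun k v => cnt (Lg (n * (j + e))) (u k ++ v))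
      (fun k => M (u k)) z (by omega) (by rintro (k | k) <;> simp) (fun _ _ => cnt_nonneg _ _)
      fun k => hM2 (u k)) n
  have F2 := second (K := Fin s ⊕ Fin s) hF M (j + e) n (Real.exp j) (by positivity) hM3
  rw [cnt_nil, hK] at F1
  rw [hK] at F2
  have hx : (2 : ℝ) ≤ (p : ℝ) ^ j :=
    hpr.trans (le_self_pow₀ (by linarith) (by omega))
  refine (col_le s _ (fun w => ((p : ℝ) ^ j) ^ n * (GG p q (Sum.elim (fun _ => 1) fun _ => -1) M
    (j + e) n w * ∏ k, cnt (Lg (n * (j + e))) (w k)) + Real.exp (-(g * n * (2 * s : ℕ) / 2)) *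
      ∏ i ∈ range n, Real.exp j ^ mj M (j + e) i w) (fun w => ?_) fun w hw h0 => ?_).trans ?_
  · have := GG_nonneg (p := p) (q := q) (Sum.elim (fun _ => 1) fun _ => -1) M (j + e) n w
    have := prod_nonneg fun k (_ : k ∈ univ) => cnt_nonneg (Lg (n * (j + e))) (w k)
    positivity
  · have a1 := point (fun i => mj M (j + e) i w) (2 * s) n (N + 2) g (p ^ (j + e)) ((p : ℝ) ^ j)
      (by linarith) (by rw [hm, pow_mul]; push_cast; rfl)
    rw [← hj] at a1
    refine a1.trans (add_le_add (mul_le_mul_of_nonneg_left ?_ (by positivity)) le_rfl)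
    rw [GG, h0, if_pos (dvd_zero _), hK]
    refine le_mul_of_one_le_right (prod_nonneg fun _ _ => tau_nonneg _ _ _) ?_
    exact prod_induction _ (fun y : ℝ => 1 ≤ y) (fun a b ha hb => one_le_mul_of_one_le_of_one_le ha hb)
      le_rfl fun k _ => cnt_one (Fintype.mem_piFinset.1 hw k)
  rw [sum_add_distrib, ← mul_sum, ← mul_sum]
  refine (add_le_add (mul_le_mul_of_nonneg_left F1 (by positivity))
    (mul_le_mul_of_nonneg_left F2 (by positivity))).trans ?_
  set x : ℝ := (p : ℝ) ^ j with hxd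
  set B : ℝ := ((p ^ (j + e) : ℕ) : ℝ) with hBd
  set cm : ℝ := ((Lg (n * (j + e))).card : ℝ) with hcm
  have hB0 : 0 < B := by positivity
  have hx4 : 1 ≤ x ^ 4 := one_le_pow₀ (by linarith)
  have b1 : x * ((((2 * p ^ (j + 1) : ℕ) : ℝ) ^ 2 + 2) / B) ≤ x ^ 4 / B := by
    rw [← mul_div_assoc]
    refine div_le_div_of_nonneg_right ?_ hB0.le
    have c1 : (p : ℝ) ^ 5 ≤ x := pow_le_pow_right₀ (by linarith) (by omega)
    have c2 : (2 : ℝ) ^ 3 * p ^ 2 ≤ p ^ 5 := by
      rw [show (p : ℝ) ^ 5 = p ^ 3 * p ^ 2 by ring]; gcongr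
    have c3 : (1 : ℝ) ≤ (x * p) ^ 2 := one_le_pow₀ (by nlinarith)
    have c4 : x ^ 2 * (2 ^ 3 * p ^ 2) ≤ x ^ 2 * x := by gcongr; exact c2.trans c1
    have c5 : (((2 * p ^ (j + 1) : ℕ) : ℝ) ^ 2 + 2) ≤ x ^ 3 := by
      push_cast
      rw [pow_succ (p : ℝ) j, ← hxd]
      nlinarith
    calc _ ≤ x * x ^ 3 := by gcongr
      _ = _ := by ring
  have b2 : Real.exp (-(g * n * (2 * s : ℕ) / 2)) * ((2 * ((Lg (j + e)).card : ℝ)) ^ n) ^ (2 * s) ≤
      (x ^ 4 / B) ^ n * cm ^ (2 * s) := by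
    have c1 : (2 * ((Lg (j + e)).card : ℝ)) ^ n ≤ Real.exp (n * (1 + g / 4)) * cm := by
      have d1 : 2 * ((Lg (j + e)).card : ℝ) ≤ Real.exp (1 + g / 4 + h * (j + e : ℕ)) := by
        have := hb (j + e) (by omega)
        rw [add_mul, hε] at this
        rw [add_assoc, Real.exp_add, add_comm ((g : ℝ) / 4)]
        have d2 := Real.add_one_le_exp 1
        exact mul_le_mul (by linarith) this (by positivity) (by positivity)
      refine (pow_le_pow_left₀ (by positivity) d1 n).trans ?_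
      rw [← Real.exp_nat_mul, mul_add, Real.exp_add]
      refine mul_le_mul_of_nonneg_left (le_trans (le_of_eq ?_) (hE.low _)) (by positivity)
      push_cast
      ring_nf
    have c2 : Real.exp (-(2 * s : ℕ)) ≤ x ^ 4 / B := by
      rw [Real.exp_neg, ← one_div]
      refine div_le_div₀ (by positivity) hx4 hB0 (le_trans ?_ (Real.add_one_le_exp _))
      have : B ≤ ((2 * s : ℕ) : ℝ) := Nat.cast_le.2 (by omega)
      linarith
    refine (mul_le_mul_of_nonneg_left (pow_le_pow_left₀ (by positivity) c1 _)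
      (by positivity)).trans ?_
    rw [mul_pow, ← mul_assoc, ← Real.exp_nat_mul, ← Real.exp_add]
    refine mul_le_mul_of_nonneg_right (le_trans ?_ (pow_le_pow_left₀ (by positivity) c2 n))
      (by positivity)
    rw [← Real.exp_nat_mul, Real.exp_le_exp]
    have c3 : (8 : ℝ) ≤ g := by exact_mod_cast (by omega : 8 ≤ g)
    have c4 : (0 : ℝ) ≤ n * (2 * s : ℕ) := by positivity
    nlinarith [mul_le_mul_of_nonneg_left c3 c4]
  have b3 : x ^ 5 / B ≤ Real.exp (-((1 - η) * (j + e : ℕ) * Real.log p)) := by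
    have c1 : x ^ 5 / B = Real.exp ((5 * j - (j + e : ℕ)) * Real.log p) := by
      rw [sub_mul, Real.exp_sub, Real.exp_nat_mul, mul_assoc, show (5 : ℝ) = (5 : ℕ) by simp,
        Real.exp_nat_mul, Real.exp_nat_mul, Real.exp_log (by linarith), hBd, Nat.cast_pow]
    rw [c1, Real.exp_le_exp]
    have c2 : 0 ≤ Real.log p := Real.log_nonneg (by linarith)
    have c3 : 5 * (j : ℝ) ≤ η * (j + e : ℕ) := by
      rw [hm]
      push_cast
      rw [div_le_iff₀ hη] at hN
      have : (0 : ℝ) ≤ j := Nat.cast_nonneg j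
      nlinarith
    nlinarith
  have b4 : 2 * (x ^ 4 / B) ^ n ≤ Real.exp (-((1 - η) * (n * (j + e) : ℕ) * Real.log p)) := by
    calc _ ≤ x ^ n * (x ^ 4 / B) ^ n := by
          gcongr
          exact hx.trans (le_self_pow₀ (by linarith) hn.ne')
      _ = (x ^ 5 / B) ^ n := by rw [← mul_pow]; congr 1; ring
      _ ≤ _ := by
          refine (pow_le_pow_left₀ (by positivity) b3 n).trans (le_of_eq ?_)
          rw [← Real.exp_nat_mul]
          push_cast
          ring_nf
  rw [← mul_assoc, ← mul_pow]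
  have b5 := mul_le_mul_of_nonneg_right (pow_le_pow_left₀ (by positivity) b1 n)
    (by positivity : 0 ≤ cm ^ (2 * s))
  have b6 := mul_le_mul_of_nonneg_left b4 (by positivity : 0 ≤ cm ^ (2 * s))
  linarith

end Pool.Agent.MP_c6582e_nt.H5
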