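import Pool.Agent.MP_c6582e_nt.H5.Main

/-! Consequences: the exceptional set has dimension zero, exceptional orbits have box dimension
zero. -/

namespace Pool.Agent.MP_c6582e_nt.H5

open Finset Filter MeasureTheory Topology
open scoped ENNReal NNReal

/-- The points whose orbit has no small prime factor. -/
def Ro (r : ℝ) (y : ℕ) : Set ℝ := {ξ | ∀ n l : ℕ, l ≤ y → l.Prime → ¬ (l : ℤ) ∣ ⌊ξ * r ^ n⌋}

lemma fin_img (a : ℝ) (ha : 0 ≤ a) (X : Set ℝ) :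
    ((fun ξ : ℝ => ⌊a * Int.fract ξ⌋) '' X).Finite := by
  refine (Set.finite_Icc 0 ⌊a⌋).subset ?_
  rintro _ ⟨ξ, _, rfl⟩
  exact ⟨Int.floor_nonneg.2 (mul_nonneg ha (Int.fract_nonneg ξ)),
    Int.floor_mono (mul_le_of_le_one_right ha (Int.fract_lt_one ξ).le)⟩

lemma rough {p q : ℕ} (hq : 0 < q) (hqp : q < p) {ε : ℝ} (hε : 0 < ε) : ∃ (y : ℕ) (C : ℝ),
    ∀ N : ℕ, (((fun ξ : ℝ => ⌊((p : ℝ) / q) ^ N * Int.fract ξ⌋) '' Ro (p / q) y).ncard : ℝ) ≤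
      C * ((p : ℝ) / q) ^ (ε * N) := by
  obtain ⟨y, δ, C, hδ, h⟩ := final p q hq hqp ε hε
  refine ⟨y, C, fun N => le_trans ?_ (h N)⟩
  refine Nat.cast_le.2 (Set.ncard_le_ncard (Set.image_mono fun ξ hξ => ?_)
    (fin_img _ (by positivity) _))
  rw [Set.mem_ofPred_eq, filter_false_of_mem fun n _ ⟨l, h1, h2, h3⟩ => hξ n l h1 h2 h3]
  simpa using by positivity

lemma mem_Ro {r ξ : ℝ} (hr : 1 < r) (hξ : 0 < ξ)
    (hf : {n : ℕ | 1 < ⌊ξ * r ^ n⌋₊ ∧ ¬ (⌊ξ * r ^ n⌋₊).Prime}.Finite) (y : ℕ) :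
    ∃ n₁, ∀ n, n₁ ≤ n → ξ * r ^ n ∈ Ro r y := by
  obtain ⟨N₁, hN₁⟩ := hf.bddAbove
  obtain ⟨N₂, hN₂⟩ := eventually_atTop.1 (((tendsto_pow_atTop_atTop_of_one_lt hr).const_mul_atTop
    hξ).eventually_ge_atTop ((y + 2 : ℕ) : ℝ))
  refine ⟨N₁ + N₂ + 1, fun n hn m l hl hl' hd => ?_⟩
  rw [mul_assoc, ← pow_add, ← Int.natCast_floor_eq_floor (by positivity),
    Int.natCast_dvd_natCast] at hd
  have h1 := Nat.le_floor (hN₂ (n + m) (by omega))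
  have h2 : (⌊ξ * r ^ (n + m)⌋₊).Prime := by
    by_contra hc
    have := hN₁ (show n + m ∈ _ from ⟨by omega, hc⟩)
    omega
  have := (Nat.prime_dvd_prime_iff_eq hl' h2).1 hd
  omega

theorem box_zero {p q : ℕ} (hq : 0 < q) (hqp : q < p) {ξ : ℝ} (hξ : 0 < ξ)
    (hf : {n : ℕ | 1 < ⌊ξ * ((p : ℝ) / q) ^ n⌋₊ ∧ ¬ (⌊ξ * ((p : ℝ) / q) ^ n⌋₊).Prime}.Finite)
    {ε : ℝ} (hε : 0 < ε) : ∃ C : ℝ, ∀ N : ℕ,
      ((Set.range fun n : ℕ => ⌊((p : ℝ) / q) ^ N * Int.fract (ξ * ((p : ℝ) / q) ^ n)⌋).ncard : ℝ) ≤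
        C * ((p : ℝ) / q) ^ (ε * N) := by
  have hr : (1 : ℝ) < p / q := (one_lt_div (by exact_mod_cast hq)).2 (by exact_mod_cast hqp)
  obtain ⟨y, C, h⟩ := rough hq hqp hε
  obtain ⟨n₁, h1⟩ := mem_Ro hr hξ hf y
  refine ⟨C + n₁, fun N => ?_⟩
  have h2 : (Set.range fun n : ℕ => ⌊((p : ℝ) / q) ^ N * Int.fract (ξ * ((p : ℝ) / q) ^ n)⌋) ⊆
      (fun ξ : ℝ => ⌊((p : ℝ) / q) ^ N * Int.fract ξ⌋) '' Ro (p / q) y ∪ ((range n₁).image
        fun n : ℕ => ⌊((p : ℝ) / q) ^ N * Int.fract (ξ * ((p : ℝ) / q) ^ n)⌋ : Finset ℤ) := by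
    rintro _ ⟨n, rfl⟩
    rcases le_or_gt n₁ n with hn | hn
    · exact Or.inl ⟨_, h1 n hn, rfl⟩
    · exact Or.inr (mem_coe.2 (mem_image_of_mem _ (mem_range.2 hn)))
  have h3 := (Set.ncard_le_ncard h2 ((fin_img _ (by positivity) _).union (finite_toSet _))).trans
    ((Set.ncard_union_le _ _).trans (Nat.add_le_add_left
      ((Set.ncard_coe_finset _).trans_le (card_image_le.trans (card_range _).le)) _))
  refine (Nat.cast_le.2 h3).trans ?_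
  rw [Nat.cast_add, add_mul]
  exact add_le_add (h N) (le_mul_of_one_le_right n₁.cast_nonneg
    (Real.one_le_rpow hr.le (by positivity)))

lemma dim_Ro {r : ℝ} (hr : 1 < r) {X : Set ℝ} {ε : ℝ≥0} {C : ℝ}
    (h : ∀ N : ℕ, (((fun ξ : ℝ => ⌊r ^ N * Int.fract ξ⌋) '' X).ncard : ℝ) ≤ C * r ^ ((ε : ℝ) * N)) :
    dimH (Int.fract '' X) ≤ ε := by
  have hr0 : 0 < r := by linarith
  have hd : ∀ (N : ℕ) (i : ℤ), Metric.ediam (Set.Icc (i / r ^ N) ((i + 1) / r ^ N)) =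
      ENNReal.ofReal (r⁻¹ ^ N) := fun N i => by
    rw [Real.ediam_Icc, inv_pow]
    congr 1
    field_simp
    ring
  refine dimH_le_of_hausdorffMeasure_ne_top (ne_top_of_le_ne_top (b := ENNReal.ofReal C)
    ENNReal.ofReal_ne_top ?_)
  refine (Measure.hausdorffMeasure_le_liminf_sum (ι := fun N : ℕ =>
    (fin_img (r ^ N) (by positivity) X).toFinset) ε _ (l := atTop)
    (fun N => ENNReal.ofReal (r⁻¹ ^ N)) ?_
    (fun N i => Set.Icc ((i : ℤ) / r ^ N) (((i : ℤ) + 1) / r ^ N))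
    (Eventually.of_forall fun N i => (hd N i).le) (Eventually.of_forall fun N => ?_)).trans
      (liminf_le_of_frequently_le' (Eventually.of_forall fun N => ?_).frequently)
  · simpa using ENNReal.tendsto_ofReal (tendsto_pow_atTop_nhds_zero_of_lt_one
      (inv_nonneg.2 hr0.le) (inv_lt_one_of_one_lt₀ hr))
  · rintro _ ⟨ξ, hξ, rfl⟩
    refine Set.mem_iUnion.2 ⟨⟨_, (Set.Finite.mem_toFinset _).2 ⟨ξ, hξ, rfl⟩⟩, ?_, ?_⟩
    · rw [div_le_iff₀' (by positivity)]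
      exact Int.floor_le _
    · rw [le_div_iff₀' (by positivity)]
      exact (Int.lt_floor_add_one _).le
  · simp only [hd, sum_const, card_univ, Fintype.card_coe, nsmul_eq_mul]
    rw [← Set.ncard_eq_toFinset_card _ (fin_img _ (pow_pos hr0 N).le _), ENNReal.ofReal_rpow_of_pos (by positivity),
      ← ENNReal.ofReal_natCast, ← ENNReal.ofReal_mul (Nat.cast_nonneg _)]
    refine ENNReal.ofReal_le_ofReal ((mul_le_mul_of_nonneg_right (h N) (by positivity)).trans ?_)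
    rw [inv_pow, Real.inv_rpow (by positivity), ← Real.rpow_natCast, ← Real.rpow_mul hr0.le,
      mul_comm (N : ℝ), mul_inv_cancel_right₀ (by positivity)]

theorem dim_zero {p q : ℕ} (hq : 0 < q) (hqp : q < p) : dimH {ξ : ℝ | 0 < ξ ∧
    {n : ℕ | 1 < ⌊ξ * ((p : ℝ) / q) ^ n⌋₊ ∧ ¬ (⌊ξ * ((p : ℝ) / q) ^ n⌋₊).Prime}.Finite} = 0 := by
  have hr : (1 : ℝ) < p / q := (one_lt_div (by exact_mod_cast hq)).2 (by exact_mod_cast hqp)
  refine le_antisymm (ENNReal.le_of_forall_pos_le_add fun ε hε _ => ?_) zero_le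
  obtain ⟨y, C, h⟩ := rough hq hqp (show (0 : ℝ) < ε from hε)
  refine (dimH_mono (t := ⋃ x : ℕ × ℤ, (fun t : ℝ => (t + x.2) / ((p : ℝ) / q) ^ x.1) ''
    (Int.fract '' Ro (p / q) y)) fun ξ hξ => ?_).trans ?_
  · obtain ⟨n, hn⟩ := mem_Ro hr hξ.1 hξ.2 y
    refine Set.mem_iUnion.2 ⟨(n, ⌊ξ * ((p : ℝ) / q) ^ n⌋), _, ⟨_, hn n le_rfl, rfl⟩, ?_⟩
    simp only [Int.fract_add_floor]
    exact mul_div_cancel_right₀ _ (by positivity)
  · rw [dimH_iUnion, zero_add]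
    exact iSup_le fun x => (ContDiffOn.dimH_image_le (s := Set.univ) (by fun_prop) convex_univ
      (Set.subset_univ _)).trans (dim_Ro hr h)

end Pool.Agent.MP_c6582e_nt.H5
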