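import Pool.Agent.MP_c6582e_nt.H5.Hit

/-! The two sides of the chain rule are compared. -/

namespace Pool.Agent.MP_c6582e_nt.H5

open Finset

variable {p q : ℕ} {h : ℝ}

open Classical in
lemma pigeon {P : Finset ℕ} (hP : ∀ l ∈ P, l.Prime ∧ p < l) (L : ℕ) :
    ∃ z : ℤ, ((LS p q L).card : ℝ) ≤
      (∏ l ∈ P, l : ℕ) * ((LS p q L).filter fun w => ∀ l ∈ P, Surv p q l z w).card := by
  have hM : 0 < ∏ l ∈ P, l := prod_pos fun l hl => (hP l hl).1.pos
  have h1 : LS p q L ⊆ (range (∏ l ∈ P, l)).biUnion fun z : ℕ =>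
      (LS p q L).filter fun w => ∀ l ∈ P, Surv p q l z w := by
    intro w hw
    choose! f hf using (mem_LS.1 hw).2
    obtain ⟨k, hk⟩ := Nat.chineseRemainderOfFinset (fun l => (f l % l).toNat) id P
      (fun l hl => (hP l hl).1.ne_zero) fun l hl l' hl' hne =>
        (Nat.coprime_primes (hP l hl).1 (hP l' hl').1).2 hne
    refine mem_biUnion.2 ⟨k % ∏ l ∈ P, l, mem_range.2 (Nat.mod_lt _ hM), mem_filter.2 ⟨hw, ?_⟩⟩
    intro l hl j hj hd
    refine hf l (hP l hl).1 (hP l hl).2 j hj ?_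
    have h2 := Int.natCast_modEq_iff.2
      (((Nat.mod_modEq k _).of_dvd (dvd_prod_of_mem (fun l => l) hl)).trans (hk l hl))
    rw [Int.toNat_of_nonneg (Int.emod_nonneg _ (by exact_mod_cast (hP l hl).1.ne_zero))] at h2
    exact (((h2.trans (Int.mod_modEq _ _)).mul_left _).add_right _).dvd_iff.1 hd
  obtain ⟨z, _, h2⟩ := exists_le_of_sum_le (f := fun _ => (LS p q L).card) (g := fun z : ℕ =>
    (∏ l ∈ P, l) * ((LS p q L).filter fun w => ∀ l ∈ P, Surv p q l z w).card)
    (nonempty_range_iff.2 hM.ne') (by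
      rw [sum_const, card_range, ← mul_sum]
      exact Nat.mul_le_mul_left _ ((card_le_card h1).trans card_biUnion_le))
  exact ⟨z, by exact_mod_cast h2⟩

lemma core (hSv : SieveStmt) (hc : p.Coprime q) (hq : 0 < q) (hqp : q < p) (hE : Ent h (LS p q))
    {m s b j₀ : ℕ} (hm : 0 < m) (hs : 0 < s) (hb : b = 2 * s * m) {P : Finset ℕ} {A θ c γ τ : ℝ}
    (hθ : θ = Real.log 2 / (4 * Real.log p)) (hc' : c = Real.log 2 / Real.log (2 * p))
    (hτ : τ = Real.exp (-(θ / 4 * A))) (hj : 12 ≤ j₀)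
    (hu : ∀ j, j₀ ≤ j → ((LS p q j).card : ℝ) ≤ Real.exp ((h + Real.log 2 / 8) * j))
    (hP : ∀ l ∈ P, l.Prime ∧ p ^ (j₀ + 3) ≤ l ∧ l ^ 2 ≤ p ^ m ∧ A ≤ Real.log l)
    (hA : 1 ≤ θ / 4 * A) (hγ : 0 < γ)
    (hC : τ * (112 * s ^ 2 * (p : ℝ) ^ (m + 1) * col p q s (LS p q m)) ≤
      Real.exp (-γ) * ((LS p q m).card : ℝ) ^ (2 * s))
    (h1 : (1 + Real.log (((LS p q m).card : ℝ) ^ (2 * s)) - h * b) / γ ≤ c * θ / 16)
    (h2 : (1 + Real.log (LS p q b).card - h * b) / (b * Real.log 2) ≤ θ / 16)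
    (herr : 2 * b ^ 3 * τ ≤ 1) :
    c * θ / 8 * ∑ l ∈ P, (1 : ℝ) / l ≤ 2 * Real.log (2 * p) + 1 := by
  classical
  have hp : 1 < p := by omega
  have hp1 : (1 : ℝ) < p := by exact_mod_cast hp
  have hF : Fac p (LS p q) := fac_LS (by omega)
  have hb0 : 0 < b := by rw [hb]; positivity
  have hbr : (0 : ℝ) < b := by exact_mod_cast hb0
  have l2 := Real.log_two_gt_d9
  have hθ0 : 0 < θ := by rw [hθ]; exact div_pos (by linarith) (by linarith [Real.log_pos hp1])
  have hc0 : 0 < c := by rw [hc']; exact div_pos (by linarith) (Real.log_pos (by linarith))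
  have hτ0 : 0 < τ := hτ ▸ Real.exp_pos _
  have hP' : ∀ l ∈ P, l.Prime ∧ p < l := fun l hl => ⟨(hP l hl).1, lt_of_lt_of_le (by
    simpa using Nat.pow_lt_pow_right hp (by omega : 1 < j₀ + 3)) (hP l hl).2.1⟩
  obtain ⟨M, hM⟩ : ∃ M, M = ∏ l ∈ P, l := ⟨_, rfl⟩
  have hM1 : (1 : ℝ) ≤ M := by
    exact_mod_cast hM ▸ prod_pos fun l hl => (hP l hl).1.pos
  obtain ⟨L, hbig, hL4⟩ : ∃ L : ℕ, 4 * (M + 2 * b : ℕ) * (2 * (M + 2 * b : ℕ) *
      Real.log (2 * p) + Real.log M) ≤ L ∧ 4 * (M + 2 * b) ≤ L :=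
    ⟨max _ _, (Nat.le_ceil _).trans (Nat.cast_le.2 (le_max_left _ _)), le_max_right _ _⟩
  obtain ⟨z, hz⟩ := pigeon (q := q) hP' L
  set S := (LS p q L).filter fun w => ∀ l ∈ P, Surv p q l z w with hS
  have hSL : S ⊆ LS p q L := filter_subset _ _
  have hL : Real.exp (h * L) ≤ M * S.card := (hE.low L).trans (hM ▸ hz)
  set I := Ico (M + 2 * b) (L + 1 - 2 * b) with hI
  have hI1 : ∀ n ∈ I, M + 2 * b ≤ n ∧ n + 2 * b ≤ L := fun n hn => by
    have := mem_Ico.1 hn
    omega
  have hIL : L ≤ 2 * I.card := by rw [hI, Nat.card_Ico]; omega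
  have hsp := spread hc hq hqp hF hE z hSL hM1 hL hj hu hθ (P := P) (fun l hl => ⟨(hP l hl).1,
    (hP l hl).2.1, hA.trans (by gcongr; exact (hP l hl).2.2.2)⟩) (by omega) hbig
    (fun n hn => ⟨(hI1 n hn).1, by have := hI1 n hn; omega⟩) hIL
  set T := ∑ l ∈ P, (1 : ℝ) / l with hT
  have hT0 : 0 ≤ T := sum_nonneg fun _ _ => by positivity
  set ν : ℕ → List ℤ → ℕ → ℤ → ℝ := fun n w l x => nl (θ / 4) S (yy p q z n) P l (yy p q z n w) x
    with hν
  have hν1 : ∀ n w, ∀ l ∈ P, ∀ x, 0 ≤ ν n w l x ∧ ν n w l x ≤ τ := fun n w l hl x =>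
    ⟨nl_nonneg _ _ _ _, (nl_le _ _ _ _).trans (by rw [hτ]; gcongr; exact (hP l hl).2.2.2)⟩
  set μ : ℕ → List ℤ → ℝ := fun n w => ∑ l ∈ P, (∑ x ∈ range l, ν n w l x) / l with hμ
  set bad : ℕ → List ℤ → List ℤ → Prop := fun i u v => 1 ≤ μ (u.length - i) u ∧
    ht P (ν (u.length - i) u) ((q : ℤ) ^ (i + b)) ((p : ℤ) ^ (u.length - i) * q ^ b *
      val p q (blk (u.length - i) i u) + (p : ℤ) ^ u.length * val p q v) < μ (u.length - i) u / 2
    with hbad
  set fw : List ℤ → List ℤ → Prop := fun _ v =>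
    (((range b).filter fun i => blk i 1 v ≠ [0]).card : ℝ) < c * b with hfw
  have hbb := big_mono (by omega) hM1 (by omega : b ≤ M + 2 * b) hbig
  have hS0 : (0 : ℝ) < S.card := by
    by_contra hc
    nlinarith [Real.exp_pos (h * L), (Nat.cast_nonneg S.card : (0 : ℝ) ≤ S.card)]
  have hLI : (L : ℝ) ≤ 2 * I.card := by exact_mod_cast hIL
  have r1 : ∀ i ∈ range b, ∑ n ∈ I, ((S.filter fun w =>
      bad i (w.take (n + i)) (blk (n + i) b w)).card : ℝ) ≤ S.card * (2 * I.card) * (c * θ / 16) := by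
    intro i hi
    have := mem_range.1 hi
    refine (shift_sum (L := L) (b := b) (fun t => ((S.filter fun w =>
      bad i (w.take t) (blk t b w)).card : ℝ)) (fun _ => Nat.cast_nonneg _) (· + i)
      (add_left_injective i).injOn fun n hn => by have := hI1 n hn; omega).trans ?_
    refine (rare p h _ (by omega) hF L b S M _ γ (bad i) hb0 hSL hM1 hL
      (one_le_pow₀ (hE.one_le m)) ?_ hγ (fun u => le_trans ?_ hC) hbb).trans ?_
    · rw [hb]
      exact_mod_cast hF.card_mul (2 * s) m
    · rw [congrArg (LS p q) hb]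
      exact cheb hSv hq hqp hF hs (fun l hl => ⟨(hP l hl).1, (hP' l hl).2, (hP l hl).2.2.1⟩) hτ0.le
        _ (hν1 _ _) _ _ _
    · refine (mul_le_mul_of_nonneg_left h1 (by positivity)).trans ?_
      gcongr
  have r2 : ∑ n ∈ I, ((S.filter fun w => fw (w.take (n + b)) (blk (n + b) b w)).card : ℝ) ≤
      S.card * (2 * I.card) * (θ / 16) := by
    refine (shift_sum (L := L) (b := b) (fun t => ((S.filter fun w =>
      fw (w.take t) (blk t b w)).card : ℝ)) (fun _ => Nat.cast_nonneg _) (· + b)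
      (add_left_injective b).injOn fun n hn => by have := hI1 n hn; omega).trans ?_
    refine (rare p h _ (by omega) hF L b S M _ (b * Real.log 2) fw hb0 hSL hM1 hL
      (hE.one_le b) le_rfl (by positivity)
      (fun u => le_trans (by have := few (by omega) hF b; rwa [← hc'] at this) (hE.four b)) hbb).trans ?_
    refine (mul_le_mul_of_nonneg_left h2 (by positivity)).trans ?_
    gcongr
  have r3 : ∀ n ∈ I, c * b / 2 * ∑ w ∈ S, μ n w ≤ S.card * (b * (2 * Real.log (2 * p) + 1)) +
      T / 2 * (c * b * (S.filter fun w => fw (w.take (n + b)) (blk (n + b) b w)).card +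
        ∑ i ∈ range b, ((S.filter fun w => bad i (w.take (n + i)) (blk (n + i) b w)).card : ℝ)) := by
    intro n hn
    have hn1 := hI1 n hn
    have h3 := up _ _ S (yy p q z n) P (blk n (2 * b)) (LS p q (2 * b)) (fun l v x => ∃ j ≤ 2 * b,
      (l : ℤ) ∣ (q : ℤ) ^ j * x + (p : ℤ) ^ n * val p q (v.take j)) (fun l hl => (hP l hl).1)
      (fun w hw => hF.blk_mem (hSL hw) hn1.2)
      (fun l _ v x x' hx hk => hk.imp fun j hj =>
        ⟨hj.1, ((hx.mul_left _).add_right _).dvd_iff.1 hj.2⟩) (by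
        rintro w hw l hl ⟨j, hj1, hj2⟩
        have h4 := hF.len (hSL hw)
        refine (mem_filter.1 hw).2 l hl (n + j) (by omega) ?_
        rw [take_add', val_append, length_blk (by omega), List.length_take, min_eq_left (by omega)]
        rw [take_blk hj1, yy] at hj2
        convert hj2 using 1
        ring)
    have h4 : Real.log (LS p q (2 * b)).card ≤ 2 * b * Real.log (2 * p) := by
      refine (Real.log_le_log (by linarith [hE.one_le (2 * b)])
        (by exact_mod_cast hF.card_le (2 * b) : _ ≤ (2 * p : ℝ) ^ (2 * b))).trans ?_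
      rw [Real.log_pow]
      push_cast
      rfl
    have h5 : ∀ w ∈ S, c * b / 2 * μ n w ≤ (∑ l ∈ P, ∑ x ∈ (range l).filter (fun x : ℕ =>
        ∃ j ≤ 2 * b, (l : ℤ) ∣ (q : ℤ) ^ j * x + (p : ℤ) ^ n * val p q ((blk n (2 * b) w).take j)),
          nu S (yy p q z n) P l (yy p q z n w) x) + b +
        T / 2 * (c * b * (if fw (w.take (n + b)) (blk (n + b) b w) then 1 else 0) +
          ∑ i ∈ range b, if bad i (w.take (n + i)) (blk (n + i) b w) then 1 else 0) := by
      intro w hw
      have h6 := hF.len (hSL hw)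
      have h7 := coin hc hq hqp hP' hτ0.le (fun l x => nu S (yy p q z n) P l (yy p q z n w) x)
        (ν n w) (fun l hl x => ⟨(hν1 n w l hl x).1, (hν1 n w l hl x).2, nl_le_nu _ _ _ _⟩)
        (hF.sub _ (hF.blk_mem (hSL hw) hn1.2)) n
      have hμ0 : 0 ≤ μ n w :=
        sum_nonneg fun l hl => div_nonneg (sum_nonneg fun x _ => (hν1 n w l hl x).1) l.cast_nonneg
      have hμT : μ n w ≤ T := sum_le_sum fun l hl => div_le_div_of_nonneg_right
        ((sum_le_sum fun x _ => nl_le_nu _ _ _ _).trans (sum_nu (hP l hl).1.pos hw).le)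
          l.cast_nonneg
      set NZ := (range b).filter (fun i => blk (b + i) 1 (blk n (2 * b) w) ≠ [0]) with hNZ
      have h8 : ∀ i ∈ NZ, μ n w / 2 - 1 / 2 -
          T / 2 * (if bad i (w.take (n + i)) (blk (n + i) b w) then 1 else 0) ≤ ht P (ν n w)
            ((q : ℤ) ^ (i + b)) ((p : ℤ) ^ n * val p q ((blk n (2 * b) w).take (i + b))) := by
        intro i hi
        have h9 := mem_range.1 (mem_filter.1 hi).1
        have h10 : 0 ≤ ht P (ν n w) ((q : ℤ) ^ (i + b))
            ((p : ℤ) ^ n * val p q ((blk n (2 * b) w).take (i + b))) :=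
          sum_nonneg fun l hl => sum_nonneg fun x _ => (hν1 n w l hl x).1
        split_ifs with h11
        · linarith
        have e1 : (w.take (n + i)).length = n + i := by rw [List.length_take]; omega
        have e2 : ν n (w.take (n + i)) = ν n w := by
          simp only [hν, yy, List.take_take, min_eq_left (Nat.le_add_right n i)]
        have e3 : (p : ℤ) ^ n * val p q ((blk n (2 * b) w).take (i + b)) =
            (p : ℤ) ^ n * q ^ b * val p q (blk n i w) + p ^ (n + i) * val p q (blk (n + i) b w) := by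
          rw [take_blk (by omega), blk_add, val_append, length_blk (by omega),
            length_blk (by omega)]
          ring
        simp only [hbad, hμ, e1, Nat.add_sub_cancel, e2, blk_take le_rfl, ← e3, not_and,
          not_lt] at h11
        rcases le_or_gt 1 (μ n w) with h12 | h12
        · linarith [h11 h12]
        · linarith
      have h9 := (sum_le_sum h8).trans h7
      rw [sum_sub_distrib, sum_const, nsmul_eq_mul, ← mul_sum] at h9
      have h10 : ∑ i ∈ NZ, (if bad i (w.take (n + i)) (blk (n + i) b w) then 1 else 0 : ℝ) ≤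
          ∑ i ∈ range b, if bad i (w.take (n + i)) (blk (n + i) b w) then 1 else 0 :=
        sum_le_sum_of_subset_of_nonneg (filter_subset _ _) fun _ _ _ => by split_ifs <;> norm_num
      have h11 : (NZ.card : ℝ) ≤ b := by
        exact_mod_cast (card_filter_le _ _).trans (card_range b).le
      have h12 : c * b * μ n w ≤ NZ.card * μ n w +
          T * (c * b * (if fw (w.take (n + b)) (blk (n + b) b w) then 1 else 0)) := by
        split_ifs with h13
        · nlinarith [mul_nonneg (Nat.cast_nonneg NZ.card : (0 : ℝ) ≤ _) hμ0, mul_pos hc0 hbr]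
        · have e : NZ = (range b).filter fun i => blk i 1 (blk (n + b) b w) ≠ [0] :=
            filter_congr fun i hi => by
              have := mem_range.1 hi
              rw [blk_blk (by omega), blk_blk (by omega), add_assoc]
          rw [mul_zero, mul_zero, add_zero, e]
          exact mul_le_mul_of_nonneg_right (not_lt.1 h13) hμ0
      have h13 := mul_le_mul_of_nonneg_left herr hbr.le
      have h14 := mul_le_mul_of_nonneg_left h10 hT0
      nlinarith
    rw [mul_sum]
    refine (sum_le_sum h5).trans ?_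
    rw [sum_add_distrib, sum_add_distrib, ← mul_sum, sum_add_distrib, ← mul_sum, sum_const,
      nsmul_eq_mul, sum_comm (s := S) (t := range b)]
    simp only [natCast_card_filter]
    have h6 := h3.trans (mul_le_mul_of_nonneg_left h4 hS0.le)
    refine add_le_add_left ?_ _
    linarith
  have r4 := sum_le_sum r3
  rw [← mul_sum, sum_add_distrib, ← mul_sum (s := I) _ (T / 2), sum_add_distrib,
    ← mul_sum (s := I) _ (c * b), sum_comm (s := I) (t := range b), sum_const, nsmul_eq_mul] at r4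
  have r5 := sum_le_card_nsmul _ _ _ r1
  rw [card_range, nsmul_eq_mul] at r5
  have r6 := (mul_le_mul_of_nonneg_left hsp (by positivity : 0 ≤ c * b / 2)).trans (r4.trans
    (add_le_add_right (mul_le_mul_of_nonneg_left (add_le_add
      (mul_le_mul_of_nonneg_left r2 (by positivity)) r5) (by positivity)) _))
  have hI0 : (0 : ℝ) < I.card := by
    exact_mod_cast (by omega : 0 < I.card)
  refine le_of_mul_le_mul_left ?_ (by positivity : 0 < (I.card : ℝ) * S.card * b)
  linarith

end Pool.Agent.MP_c6582e_nt.H5
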