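import Mathlib

/-!
Carry words of `⌊ξ (p/q)^n⌋` that survive every large prime: definitions and the statements of the
steps.
-/

namespace Pool.Agent.MP_c6582e_nt.H5

open Finset

/-- The value `∑ a_i q^(b-1-i) p^i` of a word of length `b`. -/
def val (p q : ℕ) : List ℤ → ℤ
  | [] => 0
  | a :: w => a * (q : ℤ) ^ w.length + p * val p q w

/-- All words of a given length with letters of absolute value less than `p`. -/
noncomputable def Wd (p : ℕ) : ℕ → Finset (List ℤ)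
  | 0 => {[]}
  | b + 1 => ((Ioo (-(p : ℤ)) p) ×ˢ Wd p b).image fun x => x.1 :: x.2

/-- The block of length `b` at position `t`. -/
def blk (t b : ℕ) (w : List ℤ) : List ℤ := (w.drop t).take b

/-- A factorial language. -/
structure Fac (p : ℕ) (Lg : ℕ → Finset (List ℤ)) : Prop where
  sub : ∀ b, Lg b ⊆ Wd p b
  tk : ∀ a b, ∀ w ∈ Lg (a + b), w.take a ∈ Lg a
  dr : ∀ a b, ∀ w ∈ Lg (a + b), w.drop a ∈ Lg b

/-- The language has entropy `h ≥ log 8`. -/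
structure Ent (h : ℝ) (Lg : ℕ → Finset (List ℤ)) : Prop where
  low : ∀ b : ℕ, Real.exp (h * b) ≤ (Lg b).card
  upp : ∀ ε : ℝ, 0 < ε → ∃ b₀ : ℕ, ∀ b : ℕ, b₀ ≤ b → ((Lg b).card : ℝ) ≤ Real.exp ((h + ε) * b)
  big : Real.log 8 ≤ h

/-- The orbit `p z_(i+1) = q z_i + a_i` that starts at `z` avoids `0` modulo `l`. -/
def Surv (p q l : ℕ) (z : ℤ) (w : List ℤ) : Prop :=
  ∀ j ≤ w.length, ¬ (l : ℤ) ∣ (q : ℤ) ^ j * z + val p q (w.take j)

open Classical in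
/-- The words that survive every prime larger than `p`. -/
noncomputable def LS (p q b : ℕ) : Finset (List ℤ) :=
  (Wd p b).filter fun w => ∀ l : ℕ, l.Prime → p < l → ∃ z : ℤ, Surv p q l z w

/-- The number of solutions of `V_1 + ... + V_s = V'_1 + ... + V'_s` in values of words of `T`. -/
def col (p q s : ℕ) (T : Finset (List ℤ)) : ℕ :=
  (((Fintype.piFinset fun _ : Fin s => T) ×ˢ (Fintype.piFinset fun _ : Fin s => T)).filter
    fun x => ∑ i, val p q (x.1 i) = ∑ i, val p q (x.2 i)).card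

/-- The primes with `A < log l ≤ B`. -/
noncomputable def pr (A B : ℝ) : Finset ℕ :=
  (Icc 1 ⌊Real.exp B⌋₊).filter fun l => l.Prime ∧ A < Real.log l

section Chain

variable {α : Type}

/-- The product of the members of `P` below `l`. -/
def Mo (P : Finset ℕ) (l : ℕ) : ℕ := ∏ l' ∈ P.filter (· < l), l'

/-- The size of a residue class. -/
def cn (S : Finset α) (y : α → ℤ) (M : ℕ) (x : ℤ) : ℕ :=
  (S.filter fun w => y w ≡ x [ZMOD M]).card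

/-- The conditional law of the residue modulo `l`, given the residues modulo the smaller primes. -/
noncomputable def nu (S : Finset α) (y : α → ℤ) (P : Finset ℕ) (l : ℕ) (x x' : ℤ) : ℝ :=
  ((S.filter fun w => y w ≡ x [ZMOD Mo P l] ∧ y w ≡ x' [ZMOD l]).card : ℝ) / cn S y (Mo P l) x

/-- The light part of the conditional law. -/
noncomputable def nl (θ : ℝ) (S : Finset α) (y : α → ℤ) (P : Finset ℕ) (l : ℕ) (x x' : ℤ) : ℝ :=
  if nu S y P l x x' ≤ Real.exp (-(θ * Real.log l)) then nu S y P l x x' else 0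

end Chain

/-- Small sets of blocks are rarely visited. -/
def RareStmt : Prop :=
  ∀ (p : ℕ) (h : ℝ) (Lg : ℕ → Finset (List ℤ)), 0 < p → Fac p Lg →
    ∀ (L b : ℕ) (S : Finset (List ℤ)) (M Θ γ : ℝ) (bad : List ℤ → List ℤ → Prop)
      [∀ u v, Decidable (bad u v)], 0 < b → S ⊆ Lg L → 1 ≤ M → Real.exp (h * L) ≤ M * S.card →
      1 ≤ Θ → ((Lg b).card : ℝ) ≤ Θ → 0 < γ →
      (∀ u, (((Lg b).filter fun v => bad u v).card : ℝ) ≤ Real.exp (-γ) * Θ) →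
      4 * b * (2 * b * Real.log (2 * p) + Real.log M) ≤ L →
      ∑ t ∈ range (L + 1 - b), ((S.filter fun w => bad (w.take t) (blk t b w)).card : ℝ) ≤
        S.card * L * ((1 + Real.log Θ - h * b) / γ)

/-- One window of the collision bound. -/
def WinStmt : Prop :=
  ∀ B O : ℕ, 0 < B → ∃ S₀ : ℕ, ∀ (K α : Type) [Fintype K] [DecidableEq K] [DecidableEq α]
    (T : Finset α) (vl : α → ℤ) (σ : K → ℤ) (n : K → α → ℝ) (Mj : K → Finset α) (c : ℤ),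
    S₀ ≤ Fintype.card K → (∀ k, σ k = 1 ∨ σ k = -1) → (∀ k v, 0 ≤ n k v) →
    (∀ k, ∑ v ∈ T \ Mj k, n k v ≤ 1 / 256 * ∑ v ∈ T, n k v ∨
      ∀ a ∈ range B, (∀ x : ℕ, 0 < x → x < O → ¬ B ∣ a * x) → ∀ c₀ : ℤ,
        ∑ v ∈ T.filter (fun v => (B : ℤ) ∣ a * (vl v - c₀)), n k v ≤ 255 / 256 * ∑ v ∈ T, n k v) →
    ∑ v ∈ Fintype.piFinset fun _ : K => T,
      (if (B : ℤ) ∣ c + ∑ k, σ k * vl (v k) then
        (if 2 * (univ.filter fun k => v k ∈ Mj k).card ≤ Fintype.card K then 1 else 1 / (B : ℝ))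
        else 0) * ∏ k, n k (v k) ≤ ((O : ℝ) ^ 2 + 2) / B * ∏ k, ∑ v ∈ T, n k v

/-- Sums of many values have almost no collisions. -/
def CollStmt : Prop :=
  ∀ (p q : ℕ) (h : ℝ) (Lg : ℕ → Finset (List ℤ)), p.Coprime q → 0 < q → q < p → Fac p Lg →
    Ent h Lg → ∀ η : ℝ, 0 < η → ∃ m₁ s : ℕ, 0 < m₁ ∧ 0 < s ∧ ∀ n : ℕ, 0 < n →
      (col p q s (Lg (n * m₁)) : ℝ) ≤ ((Lg (n * m₁)).card : ℝ) ^ (2 * s) *
        Real.exp (-((1 - η) * (n * m₁ : ℕ) * Real.log p))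

/-- The variance bound from the large sieve. -/
def SieveStmt : Prop :=
  ∀ (p q : ℕ) (Lg : ℕ → Finset (List ℤ)), 0 < q → q < p → Fac p Lg →
    ∀ (m s : ℕ) (P : Finset ℕ) (τ : ℝ) (g : ℕ → ℤ → ℝ), 0 < s →
      (∀ l ∈ P, l.Prime ∧ p < l ∧ l ^ 2 ≤ p ^ m) → (∀ l ∈ P, ∀ x, 0 ≤ g l x ∧ g l x ≤ τ) →
      (∀ l ∈ P, ∀ x x', x ≡ x' [ZMOD l] → g l x = g l x') →
      ∑ v ∈ Lg (2 * s * m), (∑ l ∈ P, g l (val p q v) - ∑ l ∈ P, (∑ x ∈ range l, g l x) / l) ^ 2 ≤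
        τ * (∑ l ∈ P, (∑ x ∈ range l, g l x) / l) *
          (28 * s ^ 2 * (p : ℝ) ^ (m + 1) * col p q s (Lg m))

/-- The chain rule, upper bound. -/
def UpStmt : Prop :=
  ∀ (α β : Type) (S : Finset α) (y : α → ℤ) (P : Finset ℕ) (W : α → β) (T : Finset β)
    (kill : ℕ → β → ℤ → Prop) [∀ l v x, Decidable (kill l v x)], (∀ l ∈ P, l.Prime) →
    (∀ w ∈ S, W w ∈ T) → (∀ l ∈ P, ∀ v x x', x ≡ x' [ZMOD l] → kill l v x → kill l v x') →
    (∀ w ∈ S, ∀ l ∈ P, ¬ kill l (W w) (y w)) →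
    ∑ w ∈ S, ∑ l ∈ P, ∑ x ∈ (range l).filter (fun x : ℕ => kill l (W w) x), nu S y P l (y w) x ≤
      S.card * Real.log T.card

/-- The chain rule, lower bound. -/
def LowStmt : Prop :=
  ∀ (α : Type) (S : Finset α) (y : α → ℤ) (P : Finset ℕ) (θ : ℝ) (R : ℕ), (∀ l ∈ P, l.Prime) →
    0 ≤ θ → ∑ w ∈ S, -Real.log ((cn S y (Mo P R) (y w) : ℝ) / S.card) ≤
      ∑ l ∈ P.filter (· < R), (S.card * (θ * Real.log l + 1) +
        Real.log l * ∑ w ∈ S, ∑ x ∈ range l, nl θ S y P l (y w) x)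

/-- Long ranges of primes have a large sum of reciprocals. -/
def MertStmt : Prop :=
  ∀ K : ℝ, ∃ κ : ℝ, 0 < κ ∧ ∀ c : ℝ, 0 < c → ∀ n₀ : ℕ, ∃ n : ℕ, n₀ ≤ n ∧
    K ≤ ∑ l ∈ pr (κ * (c * n)) (c * n), (1 : ℝ) / l

/-- The entropy of the surviving words is at most `log 8`. -/
def TStmt : Prop :=
  ∀ p q : ℕ, p.Coprime q → 0 < q → q < p → ∃ b : ℕ, 0 < b ∧ (LS p q b).card ≤ 8 ^ b

open Classical in
/-- The final statement. -/
def FinStmt : Prop :=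
  ∀ p q : ℕ, 0 < q → q < p → ∀ ε : ℝ, 0 < ε → ∃ (y : ℕ) (δ C : ℝ), 0 < δ ∧ ∀ N : ℕ,
    (((fun ξ : ℝ => ⌊((p : ℝ) / q) ^ N * Int.fract ξ⌋) ''
      {ξ : ℝ | (((range N).filter fun n => ∃ l : ℕ, l ≤ y ∧ l.Prime ∧
        (l : ℤ) ∣ ⌊ξ * ((p : ℝ) / q) ^ n⌋).card : ℝ) ≤ δ * N}).ncard : ℝ) ≤
      C * ((p : ℝ) / q) ^ (ε * N)

end Pool.Agent.MP_c6582e_nt.H5
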