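import Pool.Agent.MP_c6582e_nt.H5.Mert

/-! From the entropy of the surviving words to the count of rough orbits. -/

namespace Pool.Agent.MP_c6582e_nt.H5

open Finset

namespace FinAux

variable {P Q : ℕ}

/-- The carry word of a sequence of integers. -/
def wd (P Q n : ℕ) (z : ℕ → ℤ) : List ℤ :=
  (List.range n).map fun i => (P : ℤ) * z (i + 1) - Q * z i

lemma wd_len (n : ℕ) (z : ℕ → ℤ) : (wd P Q n z).length = n := by simp [wd]

lemma blk_one {n t : ℕ} (z : ℕ → ℤ) (h : t < n) :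
    blk t 1 (wd P Q n z) = [(P : ℤ) * z (t + 1) - Q * z t] := by
  have h1 : t < (wd P Q n z).length := by rwa [wd_len]
  rw [blk, List.drop_eq_getElem_cons h1]
  simp [wd]

lemma val_blk {n : ℕ} (z : ℕ → ℤ) (t j : ℕ) (h : t + j ≤ n) :
    (Q : ℤ) ^ j * z t + val P Q (blk t j (wd P Q n z)) = (P : ℤ) ^ j * z (t + j) := by
  induction j with
  | zero => simp [blk]
  | succ j ih =>
    have h1 := ih (by omega)
    rw [blk_add, blk_one z (by omega), val_append, length_blk (by rw [wd_len]; omega), val_cons]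
    simp only [List.length_singleton, List.length_nil, val_nil, pow_zero, pow_one]
    rw [← add_assoc t j 1]
    linear_combination (Q : ℤ) * h1

lemma surv_big {l : ℕ} (hl : l.Prime) (hQ : 0 < Q) (hQl : Q < l) (v : List ℤ)
    (hv : v.length + 1 < l) : ∃ z : ℤ, Surv P Q l z v := by
  classical
  have h1 : ((range (v.length + 1)).biUnion fun j => (range l).filter
      fun x : ℕ => (l : ℤ) ∣ (Q : ℤ) ^ j * x + val P Q (v.take j)).card < (range l).card := by
    refine (card_biUnion_le_card_mul _ _ 1 fun j _ => ?_).trans_lt (by simpa using hv)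
    obtain ⟨x₀, -, hx⟩ := lin_one hl.pos ((cop_of_lt hl hQ hQl).pow_right (n := j))
      (val P Q (v.take j))
    rw [hx, card_singleton]
  obtain ⟨x, hx, hx'⟩ := exists_mem_notMem_of_card_lt_card h1
  refine ⟨x, fun j hj hd => hx' ?_⟩
  exact mem_biUnion.2 ⟨j, mem_range.2 (by omega), mem_filter.2 ⟨hx, hd⟩⟩

lemma blk_LS (hQ : 0 < Q) (hQP : Q < P) {n b t y : ℕ} {z : ℕ → ℤ} (hw : wd P Q n z ∈ Wd P n)
    (ht : t + b ≤ n) (hy : b + 1 ≤ y)
    (hz : ∀ j ≤ b, ∀ l : ℕ, l ≤ y → l.Prime → ¬ (l : ℤ) ∣ z (t + j)) :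
    blk t b (wd P Q n z) ∈ LS P Q b := by
  have h1 := fac_Wd.blk_mem hw ht
  have h2 := fac_Wd.len h1
  refine mem_LS.2 ⟨h1, fun l hl hPl => ?_⟩
  by_cases hly : l ≤ y
  · refine ⟨z t, fun j hj hd => ?_⟩
    rw [h2] at hj
    rw [take_blk hj, val_blk z t j (by omega)] at hd
    exact hz j hj l hly hl
      (((cop_of_lt hl (by omega) hPl).pow_right (n := j)).dvd_of_dvd_mul_left hd)
  · exact surv_big hl hQ (by omega) _ (by omega)

open Classical in
/-- The words with few blocks outside the surviving language. -/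
noncomputable def Gd (P Q b n : ℕ) (D : ℝ) : Finset (List ℤ) :=
  (Wd P (n * b)).filter fun w =>
    (((range n).filter fun i => blk (i * b) b w ∉ LS P Q b).card : ℝ) ≤ D

lemma card_Gd (hP : 0 < P) {b : ℕ} (hb : 0 < b) (hLS : (LS P Q b).card ≤ 8 ^ b) (n : ℕ) (D : ℝ) :
    ((Gd P Q b n D).card : ℝ) ≤ 9 ^ (n * b) * Real.exp (b * Real.log (2 * P) * D) := by
  classical
  have hP2 : (1 : ℝ) ≤ 2 * P := by
    have : (1 : ℝ) ≤ P := by exact_mod_cast hP
    linarith
  have hL : 0 ≤ Real.log (2 * P) := Real.log_nonneg hP2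
  set c : ℝ := Real.exp (-(b * Real.log (2 * P))) with hc
  have hc0 : 0 < c := Real.exp_pos _
  have hc1 : (2 * P : ℝ) ^ b * c = 1 := by
    rw [hc, Real.exp_neg, Real.exp_nat_mul, Real.exp_log (by linarith)]
    exact mul_inv_cancel₀ (by positivity)
  have h1 := (fac_Wd (p := P)).tree 0 b n (fun _ v => if v ∈ LS P Q b then 1 else c) (9 ^ b)
    (fun _ v => by split_ifs <;> positivity) (fun _ => by
      rw [sum_ite, sum_const, sum_const, nsmul_eq_mul, nsmul_eq_mul, mul_one]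
      have h2 : (((Wd P b).filter fun v => v ∈ LS P Q b).card : ℝ) ≤ 8 ^ b := by
        exact_mod_cast (card_le_card fun v hv => (mem_filter.1 hv).2).trans hLS
      have h3 : (((Wd P b).filter fun v => ¬ v ∈ LS P Q b).card : ℝ) ≤ (2 * P) ^ b := by
        exact_mod_cast (card_filter_le _ _).trans (card_Wd b)
      have h4 := mul_le_mul_of_nonneg_right h3 hc0.le
      have h5 : (8 : ℝ) ^ b + 1 ^ b ≤ (8 + 1) ^ b :=
        pow_add_pow_le (by norm_num) (by norm_num) hb.ne'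
      rw [one_pow] at h5
      norm_num at h5
      linarith)
  simp only [zero_add, Wd, card_singleton, Nat.cast_one, one_mul] at h1
  have h2 : ∑ _w ∈ Gd P Q b n D, Real.exp (-(b * Real.log (2 * P) * D)) ≤ ((9 : ℝ) ^ b) ^ n := by
    refine le_trans ?_ h1
    refine le_trans (sum_le_sum fun w hw => ?_) (sum_le_sum_of_subset_of_nonneg
      (filter_subset _ _ : Gd P Q b n D ⊆ Wd P (n * b)) fun w _ _ =>
        prod_nonneg fun i _ => by split_ifs <;> positivity)
    rw [prod_ite, prod_const_one, prod_const, one_mul, hc, ← Real.exp_nat_mul]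
    refine Real.exp_le_exp.2 ?_
    have h3 := (mem_filter.1 hw).2
    have h4 : (0 : ℝ) ≤ b * Real.log (2 * P) := by positivity
    nlinarith [mul_le_mul_of_nonneg_left h3 h4]
  rw [sum_const, nsmul_eq_mul, Real.exp_neg, ← div_eq_mul_inv, div_le_iff₀ (Real.exp_pos _),
    ← pow_mul, mul_comm b n] at h2
  exact h2

lemma card_bad {k b n : ℕ} (hk : 0 < k) (hb : 0 < b) (S Bad : Finset ℕ)
    (h : ∀ i ∈ S, i < n ∧ ∃ j ≤ b, k * (n * b - (i * b + j)) ∈ Bad) : S.card ≤ 2 * Bad.card := by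
  classical
  rw [mul_comm]
  refine le_trans (card_le_card (t := Bad.biUnion fun m =>
    {(n * b - m / k) / b, (n * b - m / k) / b - 1}) fun i hi => ?_)
    (card_biUnion_le_card_mul _ _ 2 fun m _ => card_le_two)
  obtain ⟨h1, j, hj, h2⟩ := h i hi
  refine mem_biUnion.2 ⟨_, h2, ?_⟩
  have h3 : i * b + j ≤ n * b := by nlinarith
  rw [Nat.mul_div_cancel_left _ hk, Nat.sub_sub_self h3, mem_insert, mem_singleton,
    add_comm, Nat.add_mul_div_right _ _ hb]
  rcases hj.lt_or_eq with h4 | rfl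
  · rw [Nat.div_eq_of_lt h4]
    omega
  · rw [Nat.div_self hb]
    omega

lemma carry_lt (hQP : Q < P) {a b : ℝ} (h : (P : ℝ) * a = Q * b) :
    |(P : ℤ) * ⌊a⌋ - Q * ⌊b⌋| < P := by
  have h1 := Int.floor_le a
  have h2 := Int.lt_floor_add_one a
  have h3 := Int.floor_le b
  have h4 := Int.lt_floor_add_one b
  have h5 : (Q : ℝ) < P := by exact_mod_cast hQP
  have h6 : (0 : ℝ) ≤ Q := by positivity
  have h7 : |(P : ℝ) * ⌊a⌋ - Q * ⌊b⌋| < P := by
    rw [abs_lt]
    constructor <;> nlinarith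
  exact_mod_cast h7

open Classical in
lemma fin_cop (hT : TStmt) (p q : ℕ) (hc : p.Coprime q) (hq : 0 < q) (hqp : q < p) (ε : ℝ)
    (hε : 0 < ε) : ∃ (y : ℕ) (δ C : ℝ), 0 < δ ∧ ∀ N : ℕ,
    (((fun ξ : ℝ => ⌊((p : ℝ) / q) ^ N * Int.fract ξ⌋) ''
      {ξ : ℝ | (((range N).filter fun n => ∃ l : ℕ, l ≤ y ∧ l.Prime ∧
        (l : ℤ) ∣ ⌊ξ * ((p : ℝ) / q) ^ n⌋).card : ℝ) ≤ δ * N}).ncard : ℝ) ≤
      C * ((p : ℝ) / q) ^ (ε * N) := by
  have hq0 : (0 : ℝ) < q := by exact_mod_cast hq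
  have hqp' : (q : ℝ) < p := by exact_mod_cast hqp
  set r : ℝ := (p : ℝ) / q with hr
  have hr1 : 1 < r := (one_lt_div hq0).2 hqp'
  have hr0 : 0 < r := by linarith
  have hlr : 0 < Real.log r := Real.log_pos hr1
  obtain ⟨k, hk⟩ := exists_nat_gt (Real.log 9 / (ε / 2 * Real.log r))
  have h9 : 0 < Real.log 9 := Real.log_pos (by norm_num)
  have hk0 : 0 < k := by
    have : (0 : ℝ) < k := lt_trans (by positivity) hk
    exact_mod_cast this
  rw [div_lt_iff₀ (by positivity)] at hk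
  have hQ : 0 < q ^ k := by positivity
  have hQP : q ^ k < p ^ k := Nat.pow_lt_pow_left hqp hk0.ne'
  have hPQ : ((p ^ k : ℕ) : ℝ) = (q ^ k : ℕ) * r ^ k := by
    push_cast
    rw [hr, div_pow]
    field_simp
  obtain ⟨b, hb, hLS⟩ := hT (p ^ k) (q ^ k) (hc.pow k k) hQ hQP
  generalize p ^ k = P at hQP hPQ hLS
  generalize q ^ k = Q at hQ hQP hPQ hLS
  have hP1 : (1 : ℝ) ≤ P := by exact_mod_cast (by omega : 1 ≤ P)
  have hL : 0 < Real.log (2 * P) := Real.log_pos (by linarith)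
  have hb0 : (0 : ℝ) < b := by exact_mod_cast hb
  set M := ⌈r ^ (k * b)⌉₊ with hM
  refine ⟨max P (b + 1), ε * Real.log r / (4 * b * Real.log (2 * P)), M + 1, by positivity,
    fun N => ?_⟩
  set δ := ε * Real.log r / (4 * b * Real.log (2 * P)) with hδ
  set n := (N - 1) / (k * b) with hn
  have hn1 : k * (n * b) ≤ N - 1 := by
    rw [show k * (n * b) = n * (k * b) by ring]
    exact Nat.div_mul_le_self _ _
  have hn2 : N ≤ k * (n * b) + k * b := by
    have := Nat.lt_div_mul_add (a := N - 1) (Nat.mul_pos hk0 hb)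
    rw [← hn, show n * (k * b) = k * (n * b) by ring] at this
    omega
  set A : List ℤ → ℝ := fun w => -(r ^ N * val P Q w / (P : ℝ) ^ (n * b)) with hA
  have hsub : ((fun ξ : ℝ => ⌊r ^ N * Int.fract ξ⌋) ''
      {ξ : ℝ | (((range N).filter fun n => ∃ l : ℕ, l ≤ max P (b + 1) ∧ l.Prime ∧
        (l : ℤ) ∣ ⌊ξ * r ^ n⌋).card : ℝ) ≤ δ * N}) ⊆
      ((Gd P Q b n (2 * (δ * N))).biUnion fun w => Icc ⌊A w⌋ (⌊A w⌋ + M) : Finset ℤ) := by
    rintro _ ⟨ξ, hξ, rfl⟩
    rw [Set.mem_ofPred_eq] at hξ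
    set z : ℕ → ℤ := fun i => ⌊ξ * r ^ (k * (n * b - i))⌋ with hz
    have hw : wd P Q (n * b) z ∈ Wd P (n * b) := by
      refine mem_Wd.2 ⟨wd_len _ _, fun a ha => ?_⟩
      obtain ⟨i, hi, rfl⟩ := List.mem_map.1 ha
      rw [List.mem_range] at hi
      refine carry_lt hQP ?_
      rw [hPQ, show n * b - i = n * b - (i + 1) + 1 by omega, mul_add, pow_add, mul_one]
      ring
    rw [mem_coe, mem_biUnion]
    refine ⟨wd P Q (n * b) z, mem_filter.2 ⟨hw, ?_⟩, ?_⟩
    · refine le_trans ?_ (mul_le_mul_of_nonneg_left hξ zero_le_two)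
      have := card_bad (n := n) hk0 hb
        ((range n).filter fun i => blk (i * b) b (wd P Q (n * b) z) ∉ LS P Q b)
        ((range N).filter fun n => ∃ l : ℕ, l ≤ max P (b + 1) ∧ l.Prime ∧
          (l : ℤ) ∣ ⌊ξ * r ^ n⌋) fun i hi => by
        rw [mem_filter, mem_range] at hi
        refine ⟨hi.1, ?_⟩
        by_contra hcon
        push Not at hcon
        refine hi.2 (blk_LS hQ hQP hw (by nlinarith [hi.1]) (le_max_right P _)
          fun j hj l hl hl' hd => hcon j hj ?_)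
        have h1 : k * (n * b - (i * b + j)) ≤ k * (n * b) :=
          Nat.mul_le_mul_left _ (Nat.sub_le _ _)
        have h2 : 0 < k * (n * b) := Nat.mul_pos hk0 (Nat.mul_pos (by omega) hb)
        exact mem_filter.2 ⟨mem_range.2 (by omega), l, hl, hl', hd⟩
      exact_mod_cast this
    · have h1 := val_blk (P := P) (Q := Q) (n := n * b) z 0 (n * b) (by omega)
      have h2 : blk 0 (n * b) (wd P Q (n * b) z) = wd P Q (n * b) z := by
        rw [blk, List.drop_zero, List.take_of_length_le (wd_len _ _).le]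
      have e0 : z 0 = ⌊ξ * r ^ (k * (n * b))⌋ := rfl
      have e1 : z (0 + n * b) = ⌊ξ⌋ := by simp [hz]
      rw [h2, e0, e1] at h1
      have h3 : (Q : ℝ) ^ (n * b) * ⌊ξ * r ^ (k * (n * b))⌋ + val P Q (wd P Q (n * b) z) =
          (P : ℝ) ^ (n * b) * ⌊ξ⌋ := by exact_mod_cast h1
      obtain ⟨e, he⟩ := Nat.exists_eq_add_of_le (by omega : k * (n * b) ≤ N)
      have h4 : (P : ℝ) ^ (n * b) = (Q : ℝ) ^ (n * b) * r ^ (k * (n * b)) := by
        rw [hPQ, mul_pow, ← pow_mul]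
      have hP0 : (0 : ℝ) < (P : ℝ) ^ (n * b) := by positivity
      have h5 : r ^ N * Int.fract ξ =
          A (wd P Q (n * b) z) + r ^ e * Int.fract (ξ * r ^ (k * (n * b))) := by
        have h6 : r ^ N = r ^ (k * (n * b)) * r ^ e := by rw [he, pow_add]
        rw [hA, Int.fract, Int.fract]
        field_simp
        rw [h6]
        linear_combination (r ^ (k * (n * b)) * r ^ e) * h3 +
          (r ^ e * ⌊ξ * r ^ (k * (n * b))⌋) * h4
      have h6 : r ^ e ≤ M := (pow_le_pow_right₀ hr1.le (by omega)).trans (Nat.le_ceil _)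
      have h7 := Int.fract_nonneg (ξ * r ^ (k * (n * b)))
      have h8 := Int.fract_lt_one (ξ * r ^ (k * (n * b)))
      have h10 : 0 < r ^ e := by positivity
      rw [mem_Icc, ← Int.floor_add_natCast]
      beta_reduce
      rw [h5]
      exact ⟨Int.floor_le_floor (by nlinarith), Int.floor_le_floor (by nlinarith)⟩
  have h1 := Set.ncard_le_ncard hsub (finite_toSet _)
  rw [Set.ncard_coe_finset] at h1
  have h2 := h1.trans (card_biUnion_le_card_mul _ _ (M + 1) fun w _ => by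
    rw [Int.card_Icc]
    omega)
  have h3 := card_Gd (Q := Q) (by omega : 0 < P) hb hLS n (2 * (δ * N))
  have h4 : (9 : ℝ) ^ (n * b) * Real.exp (b * Real.log (2 * P) * (2 * (δ * N))) ≤
      r ^ (ε * N) := by
    rw [Real.rpow_def_of_pos hr0, ← Real.exp_log (by norm_num : (0 : ℝ) < 9), ← Real.exp_nat_mul,
      ← Real.exp_add]
    refine Real.exp_le_exp.2 ?_
    have h5 : b * Real.log (2 * P) * (2 * (δ * N)) = ε / 2 * Real.log r * N := by
      rw [hδ]
      field_simp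
      ring
    have h6 : (k : ℝ) * (n * b : ℕ) ≤ N := by exact_mod_cast (by omega : k * (n * b) ≤ N)
    have h7 : (0 : ℝ) ≤ (n * b : ℕ) := by positivity
    have h8 := mul_le_mul_of_nonneg_left hk.le h7
    have h10 := mul_le_mul_of_nonneg_left h6 (by positivity : 0 ≤ ε / 2 * Real.log r)
    rw [h5]
    nlinarith
  calc _ ≤ (((Gd P Q b n (2 * (δ * N))).card * (M + 1) : ℕ) : ℝ) := by exact_mod_cast h2
    _ ≤ _ := by
      push_cast
      rw [mul_comm]
      exact mul_le_mul_of_nonneg_left (h3.trans h4) (by positivity)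

end FinAux

theorem fin (hT : TStmt) : FinStmt := by
  intro p q hq hqp ε hε
  have hg : 0 < p.gcd q := Nat.gcd_pos_of_pos_right _ hq
  obtain ⟨p', q', hc, hp', hq'⟩ := Nat.exists_coprime p q
  have h1 : 0 < q' := Nat.pos_of_ne_zero fun h => by
    rw [h] at hq'
    omega
  have h2 : q' < p' := lt_of_mul_lt_mul_right (hp' ▸ hq' ▸ hqp : q' * p.gcd q < p' * p.gcd q)
    (Nat.zero_le _)
  have h3 : (p : ℝ) / q = (p' : ℝ) / q' := by
    have h4 : (0 : ℝ) < p.gcd q := by exact_mod_cast hg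
    have h5 : (p : ℝ) = p' * p.gcd q := by exact_mod_cast hp'
    have h6 : (q : ℝ) = q' * p.gcd q := by exact_mod_cast hq'
    rw [h5, h6, mul_div_mul_right _ _ h4.ne']
  rw [h3]
  exact FinAux.fin_cop hT p' q' hc h1 h2 ε hε

end Pool.Agent.MP_c6582e_nt.H5
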