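import Pool.Agent.MP_c6582e_nt.H5.Spread

/-! Most windows kill many states. -/

namespace Pool.Agent.MP_c6582e_nt.H5

open Finset

variable {p q : ℕ} {h : ℝ} {Lg : ℕ → Finset (List ℤ)}

/-- The weight of the states that are killed. -/
noncomputable def ht (P : Finset ℕ) (ν : ℕ → ℤ → ℝ) (a c : ℤ) : ℝ :=
  ∑ l ∈ P, ∑ x ∈ (range l).filter (fun x : ℕ => (l : ℤ) ∣ a * x + c), ν l x

lemma one_le_tau {l : ℕ} (hl : 0 < l) {a : ℤ} (ha : IsCoprime (l : ℤ) a) (c : ℤ) {ν : ℤ → ℝ} {τ : ℝ}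
    (hν : ∀ x, ν x ≤ τ) : ∑ x ∈ (range l).filter (fun x : ℕ => (l : ℤ) ∣ a * x + c), ν x ≤ τ := by
  obtain ⟨x₀, _, h1⟩ := lin_one hl ha c
  rw [h1, sum_singleton]
  exact hν _

lemma cheb (hSv : SieveStmt) (hq : 0 < q) (hqp : q < p) (hF : Fac p Lg) {m s : ℕ} (hs : 0 < s)
    {P : Finset ℕ} (hP : ∀ l ∈ P, l.Prime ∧ p < l ∧ l ^ 2 ≤ p ^ m) {τ : ℝ} (hτ : 0 ≤ τ)
    (ν : ℕ → ℤ → ℝ) (hν : ∀ l ∈ P, ∀ x, 0 ≤ ν l x ∧ ν l x ≤ τ) (j t : ℕ) (c : ℤ) :
    (((Lg (2 * s * m)).filter fun v => 1 ≤ ∑ l ∈ P, (∑ x ∈ range l, ν l x) / l ∧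
      ht P ν ((q : ℤ) ^ j) (c + (p : ℤ) ^ t * val p q v) <
        (∑ l ∈ P, (∑ x ∈ range l, ν l x) / l) / 2).card : ℝ) ≤
      τ * (112 * s ^ 2 * (p : ℝ) ^ (m + 1) * col p q s (Lg m)) := by
  set g : ℕ → ℤ → ℝ := fun l V => ∑ x ∈ (range l).filter
    (fun x : ℕ => (l : ℤ) ∣ (q : ℤ) ^ j * x + (c + (p : ℤ) ^ t * V)), ν l x with hg
  have h1 := hSv p q Lg hq hqp hF m s P τ g hs hP (fun l hl V => ⟨sum_nonneg fun x _ => (hν l hl x).1,
    one_le_tau (hP l hl).1.pos (cop_of_lt (hP l hl).1 hq (hqp.trans (hP l hl).2.1)).pow_right _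
      fun x => (hν l hl x).2⟩) (fun l hl V V' hV => sum_congr (filter_congr fun x _ =>
        (((hV.mul_left _).add_left c).add_left _).dvd_iff) fun _ _ => rfl)
  have h2 : ∀ l ∈ P, (∑ V ∈ range l, g l V) / l = (∑ x ∈ range l, ν l x) / l := by
    intro l hl
    simp only [hg, sum_filter]
    rw [sum_comm]
    congr 1
    refine sum_congr rfl fun x _ => ?_
    obtain ⟨V₀, _, h3⟩ := lin_one (hP l hl).1.pos
      ((cop_of_lt (hP l hl).1 (hq.trans hqp) (hP l hl).2.1).pow_right (n := t))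
      ((q : ℤ) ^ j * x + c)
    rw [← sum_filter, filter_congr (q := fun V : ℕ => (l : ℤ) ∣ (p : ℤ) ^ t * V + (q ^ j * x + c))
      fun V _ => by rw [← add_assoc, add_comm], h3, sum_singleton]
  rw [sum_congr rfl h2] at h1
  set μ := ∑ l ∈ P, (∑ x ∈ range l, ν l x) / l with hμ
  by_cases h3 : 1 ≤ μ
  swap
  · rw [filter_false_of_mem fun v _ hv => h3 hv.1, card_empty, Nat.cast_zero]
    positivity
  have h4 := (card_nsmul_le_sum ((Lg (2 * s * m)).filter fun v => 1 ≤ μ ∧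
      ht P ν ((q : ℤ) ^ j) (c + (p : ℤ) ^ t * val p q v) < μ / 2)
      (fun v => (∑ l ∈ P, g l (val p q v) - μ) ^ 2) (μ / 4) fun v hv => by
        have h5 : ∑ l ∈ P, g l (val p q v) < μ / 2 := (mem_filter.1 hv).2.2
        nlinarith).trans ((sum_le_sum_of_subset_of_nonneg (filter_subset _ _)
          fun _ _ _ => sq_nonneg _).trans h1)
  rw [nsmul_eq_mul] at h4
  refine le_of_mul_le_mul_right (h4.trans (le_of_eq ?_)) (by linarith)
  ring

lemma few_div {P : Finset ℕ} (hP : ∀ l ∈ P, l.Prime ∧ p < l) (hp : 1 < p) {D : ℤ} (hD : D ≠ 0)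
    {b : ℕ} (hb : |D| < (p : ℤ) ^ b) : (P.filter fun l : ℕ => (l : ℤ) ∣ D).card ≤ b := by
  have h1 : ∏ l ∈ P.filter (fun l : ℕ => (l : ℤ) ∣ D), l ∣ D.natAbs :=
    prod_primes_dvd _ (fun l hl => (hP l (mem_filter.1 hl).1).1.prime)
      fun l hl => Int.natCast_dvd.1 (mem_filter.1 hl).2
  have h2 := (pow_card_le_prod _ (fun l : ℕ => l) p fun l hl =>
    (hP l (mem_filter.1 hl).1).2.le).trans (Nat.le_of_dvd (Int.natAbs_pos.2 hD) h1)
  have h3 : D.natAbs < p ^ b := by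
    rw [← Int.natCast_natAbs] at hb
    exact_mod_cast hb
  exact ((Nat.pow_lt_pow_iff_right hp).1 (h2.trans_lt h3)).le

lemma val_blk_ne (hc : p.Coprime q) {L t d : ℕ} {v : List ℤ} (hv : v ∈ Wd p L) (hd : 0 < d)
    (ht : t + d ≤ L) (h0 : blk t 1 v ≠ [0]) : val p q (blk t d v) ≠ 0 := by
  obtain ⟨d, rfl⟩ : ∃ e, d = 1 + e := ⟨d - 1, by omega⟩
  have h1 := mem_Wd.1 (fac_Wd.blk_mem hv (by omega : t + 1 ≤ L))
  obtain ⟨a, ha⟩ := List.length_eq_one_iff.1 h1.1
  rw [blk_add, ha]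
  rw [ha] at h0 h1
  exact val_cons_ne hc (by simpa using h0) (h1.2 a List.mem_cons_self) _

open Classical in
lemma coin (hc : p.Coprime q) (hq : 0 < q) (hqp : q < p) {P : Finset ℕ}
    (hP : ∀ l ∈ P, l.Prime ∧ p < l) {τ : ℝ} (hτ : 0 ≤ τ) (ν ν' : ℕ → ℤ → ℝ)
    (hν : ∀ l ∈ P, ∀ x, 0 ≤ ν' l x ∧ ν' l x ≤ τ ∧ ν' l x ≤ ν l x) {b : ℕ} {v : List ℤ}
    (hv : v ∈ Wd p (2 * b)) (n : ℕ) :
    ∑ i ∈ (range b).filter (fun i => blk (b + i) 1 v ≠ [0]),
      ht P ν' ((q : ℤ) ^ (i + b)) ((p : ℤ) ^ n * val p q (v.take (i + b))) ≤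
    ∑ l ∈ P, ∑ x ∈ (range l).filter (fun x : ℕ => ∃ j ≤ 2 * b,
      (l : ℤ) ∣ (q : ℤ) ^ j * x + (p : ℤ) ^ n * val p q (v.take j)), ν l x + b ^ 4 * τ := by
  set NZ := (range b).filter (fun i => blk (b + i) 1 v ≠ [0]) with hNZ
  set Q := (NZ ×ˢ NZ).filter (fun i => i.1 < i.2) with hQ
  set Bd := Q.biUnion fun i => P.filter
    fun l : ℕ => (l : ℤ) ∣ val p q (blk (b + i.1) (i.2 - i.1) v) with hBd
  have hN : NZ.card ≤ b := (card_filter_le _ _).trans (card_range b).le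
  have h1 : Bd.card ≤ b * b * b := by
    refine (card_biUnion_le_card_mul _ _ b fun i hi => ?_).trans (Nat.mul_le_mul_right _
      ((card_filter_le _ _).trans ((card_product _ _).trans_le (Nat.mul_le_mul hN hN))))
    simp only [hQ, hNZ, mem_filter, mem_product, mem_range] at hi
    refine few_div hP (by omega) (val_blk_ne hc hv (by omega) (by omega) hi.1.1.2) ?_
    refine (val_abs_lt hq hqp (fac_Wd.blk_mem hv (by omega))).trans_le ?_
    exact pow_le_pow_right₀ (by exact_mod_cast hq.trans hqp) (by omega)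
  have h2 : ∀ l ∈ P, ∑ i ∈ NZ, ∑ x ∈ (range l).filter (fun x : ℕ => (l : ℤ) ∣
      (q : ℤ) ^ (i + b) * x + (p : ℤ) ^ n * val p q (v.take (i + b))), ν' l x ≤
      ∑ x ∈ (range l).filter (fun x : ℕ => ∃ j ≤ 2 * b,
        (l : ℤ) ∣ (q : ℤ) ^ j * x + (p : ℤ) ^ n * val p q (v.take j)), ν l x +
        if l ∈ Bd then b * τ else 0 := by
    intro l hl
    have h3 := hP l hl
    split_ifs with hB
    · refine le_add_of_nonneg_of_le (sum_nonneg fun x _ => (hν l hl x).1.trans (hν l hl x).2.2) ?_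
      refine (sum_le_card_nsmul _ _ τ fun i _ => one_le_tau h3.1.pos
        (cop_of_lt h3.1 hq (hqp.trans h3.2)).pow_right _ fun x => (hν l hl x).2.1).trans ?_
      rw [nsmul_eq_mul]
      gcongr
    · have h4 : ∀ i ∈ NZ, ∀ i' ∈ NZ, i < i' → ∀ x : ℤ,
          (l : ℤ) ∣ (q : ℤ) ^ (i + b) * x + (p : ℤ) ^ n * val p q (v.take (i + b)) →
          ¬ (l : ℤ) ∣ (q : ℤ) ^ (i' + b) * x + (p : ℤ) ^ n * val p q (v.take (i' + b)) := by
        intro i hi i' hi' hlt x h5 h6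
        refine hB (mem_biUnion.2 ⟨(i, i'), mem_filter.2 ⟨mem_product.2 ⟨hi, hi'⟩, hlt⟩,
          mem_filter.2 ⟨hl, ?_⟩⟩)
        have h7 := mem_range.1 (mem_filter.1 hi').1
        have h8 := fac_Wd.len hv
        obtain ⟨d, rfl⟩ := Nat.exists_eq_add_of_le hlt.le
        rw [add_right_comm, take_add', val_append, length_blk (by omega), List.length_take,
          min_eq_left (by omega)] at h6
        rw [Nat.add_sub_cancel_left, add_comm b]
        refine ((cop_of_lt h3.1 (hq.trans hqp) h3.2).pow_right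
          (n := n + (i + b))).dvd_of_dvd_mul_left ?_
        have h9 := dvd_sub h6 (h5.mul_left ((q : ℤ) ^ d))
        rwa [show (q : ℤ) ^ (i + b + d) * x + p ^ n * (q ^ d * val p q (v.take (i + b)) +
          p ^ (i + b) * val p q (blk (i + b) d v)) - q ^ d * (q ^ (i + b) * x +
            p ^ n * val p q (v.take (i + b))) = p ^ (n + (i + b)) * val p q (blk (i + b) d v) by
              ring] at h9
      rw [add_zero, ← sum_biUnion]
      · refine (sum_le_sum fun x _ => (hν l hl _).2.2).trans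
          (sum_le_sum_of_subset_of_nonneg (fun x hx => ?_)
            fun x _ _ => (hν l hl x).1.trans (hν l hl x).2.2)
        obtain ⟨i, hi, h5⟩ := mem_biUnion.1 hx
        have h7 := mem_range.1 (mem_filter.1 hi).1
        exact mem_filter.2 ⟨(mem_filter.1 h5).1, i + b, by omega, (mem_filter.1 h5).2⟩
      · intro i hi i' hi' hne
        refine disjoint_left.2 fun x h5 h6 => ?_
        rcases lt_or_gt_of_ne hne with h7 | h7
        exacts [h4 i hi i' hi' h7 _ (mem_filter.1 h5).2 (mem_filter.1 h6).2,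
          h4 i' hi' i hi h7 _ (mem_filter.1 h6).2 (mem_filter.1 h5).2]
  simp only [ht]
  rw [sum_comm]
  refine (sum_le_sum h2).trans ?_
  rw [sum_add_distrib, ← sum_filter, sum_const, nsmul_eq_mul]
  have h3 : ((P.filter (· ∈ Bd)).card : ℝ) ≤ b * b * b := by
    exact_mod_cast (card_le_card fun l hl => (mem_filter.1 hl).2).trans h1
  refine add_le_add_right ((mul_le_mul_of_nonneg_right h3 (by positivity)).trans (le_of_eq ?_)) _
  ring

lemma few (hp : 0 < p) (hF : Fac p Lg) (b : ℕ) :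
    (((Lg b).filter fun v => (((range b).filter fun i => blk i 1 v ≠ [0]).card : ℝ) <
      Real.log 2 / Real.log (2 * p) * b).card : ℝ) ≤ 4 ^ b := by
  have hp1 : (1 : ℝ) ≤ p := by exact_mod_cast hp
  have hΛ : 0 < Real.log (2 * p) := Real.log_pos (by linarith)
  have h1 := hF.tree 0 1 b (fun _ v => if v ≠ [0] then 1 / (2 * p) else 1) 2
    (fun _ _ => by split_ifs <;> positivity) fun _ => by
      have h2 : ∀ v ∈ Lg 1, (if v ≠ [0] then 1 / (2 * (p : ℝ)) else 1) ≤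
          1 / (2 * p) + if [0] = v then 1 else 0 := fun v _ => by
        by_cases h : v = [0]
        · simp [h]
        · simp [h, Ne.symm h]
      refine (sum_le_sum h2).trans ?_
      rw [sum_add_distrib, sum_ite_eq, sum_const, nsmul_eq_mul]
      have h3 : ((Lg 1).card : ℝ) ≤ 2 * p := by exact_mod_cast pow_one (2 * p) ▸ hF.card_le 1
      have h4 : ((Lg 1).card : ℝ) * (1 / (2 * p)) ≤ 1 := by
        rw [mul_one_div, div_le_one (by linarith)]
        exact h3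
      split_ifs <;> linarith
  simp only [zero_add, mul_one] at h1
  have h2 : ((Lg 0).card : ℝ) ≤ 1 := by exact_mod_cast hF.card_le 0
  have h3 := (card_nsmul_le_sum ((Lg b).filter fun v =>
      (((range b).filter fun i => blk i 1 v ≠ [0]).card : ℝ) < Real.log 2 / Real.log (2 * p) * b)
      _ (1 / 2 ^ b) fun v hv => ?_).trans ((sum_le_sum_of_subset_of_nonneg (filter_subset _ _)
        fun _ _ _ => prod_nonneg fun _ _ => by split_ifs <;> positivity).trans h1)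
  · rw [nsmul_eq_mul, mul_one_div, div_le_iff₀ (by positivity)] at h3
    refine h3.trans ((mul_le_mul_of_nonneg_right (mul_le_of_le_one_left (by positivity) h2)
      (by positivity)).trans (le_of_eq ?_))
    rw [← mul_pow]
    norm_num
  · have h4 := (mem_filter.1 hv).2
    rw [← prod_filter, prod_const, one_div_pow]
    refine one_div_le_one_div_of_le (by positivity) ?_
    rw [← Real.log_le_log_iff (by positivity) (by positivity), Real.log_pow, Real.log_pow]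
    rw [div_mul_eq_mul_div, lt_div_iff₀ hΛ] at h4
    linarith

end Pool.Agent.MP_c6582e_nt.H5
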