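import Pool.Agent.MP_c6582e_nt.H5.Basic
import Pool.Agent.MP_74e98a_nt.H25.Gall

/-! The variance bound from the large sieve. -/

namespace Pool.Agent.MP_c6582e_nt.H5

open Finset Pool.Agent.MP_74e98a_nt.H25

namespace SieveAux

variable {p q : ℕ} {Lg : ℕ → Finset (List ℤ)}

/-- The exponential sum over the values of words. -/
noncomputable def F (p q : ℕ) (T : Finset (List ℤ)) (x : ℝ) : ℂ := ∑ w ∈ T, ee (val p q w * x)

lemma ee_sum {ι : Type} (s : Finset ι) (f : ι → ℝ) : ee (∑ i ∈ s, f i) = ∏ i ∈ s, ee (f i) := by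
  classical
  induction s using Finset.induction_on with
  | empty => simp [ee]
  | insert a s ha ih => rw [sum_insert ha, prod_insert ha, ee_add, ih]

lemma norm_F_neg (T : Finset (List ℤ)) (x : ℝ) : ‖F p q T (-x)‖ = ‖F p q T x‖ := by
  rw [← Complex.norm_conj (F p q T x), F, F, map_sum]
  simp only [conj_ee, mul_neg]

lemma F_int (T : Finset (List ℤ)) (x : ℝ) (k : ℤ) : F p q T (x + k) = F p q T x := by
  refine sum_congr rfl fun w _ => ?_
  rw [mul_add, ee_add, ← Int.cast_mul, ee_int, mul_one]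

lemma ls {ι : Type} (T : Finset (List ℤ)) (s : ℕ) (N δ β : ℝ) (hδ : 0 < δ) (hδ1 : δ ≤ 1)
    (hN : 0 < N) (hs : 0 < s) (hT : ∀ w ∈ T, |(val p q w : ℝ)| ≤ N) (R : Finset ι) (pt : ι → ℝ)
    (hR : ∀ r ∈ R, 0 ≤ pt r ∧ pt r ≤ 1 - δ)
    (hsep : ∀ r ∈ R, ∀ r' ∈ R, r ≠ r' → δ ≤ |pt r - pt r'|) :
    ∑ r ∈ R, ‖F p q T (pt r + β)‖ ^ (2 * s) ≤
      (1 / δ + 2 * (2 * Real.pi * (s * N))) * col p q s T := by
  set W := Fintype.piFinset fun _ : Fin s => T with hW
  set k : (Fin s → List ℤ) → ℤ := fun w => ∑ i, val p q (w i) with hk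
  set f : ℝ → ℂ := fun x => ∑ w ∈ W, ee (k w * β) * ee (k w * x) with hf
  set f' : ℝ → ℂ := fun x =>
    ∑ w ∈ W, (ee (k w * β) * (2 * Real.pi * Complex.I * k w)) * ee (k w * x) with hf'
  set A : ℝ := 2 * Real.pi * (s * N) with hA
  have hA0 : 0 < A := by have := Real.pi_pos; positivity
  have e1 : ∀ x, ‖F p q T (x + β)‖ ^ (2 * s) = ‖f x‖ ^ 2 := by
    intro x
    rw [mul_comm, pow_mul, ← norm_pow, F, Finset.sum_pow']
    congr 2
    refine sum_congr rfl fun w _ => ?_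
    rw [← ee_sum, ← ee_add, ← sum_mul]
    congr 1
    simp only [hk]
    push_cast
    ring
  have hd : ∀ x, HasDerivAt f (f' x) x := by
    intro x
    refine HasDerivAt.fun_sum fun w _ => ?_
    have h1 := (((hasDerivAt_ee (k w * x)).scomp x
      ((hasDerivAt_id x).const_mul (k w : ℝ))).const_mul (ee (k w * β)))
    refine h1.congr_deriv ?_
    simp only [mul_one, Complex.real_smul, Complex.ofReal_intCast]
    ring
  have hc' : Continuous f' :=
    continuous_finsetSum _ fun a _ => continuous_const.mul (ee_cont.comp (by fun_prop))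
  have hc : Continuous f := continuous_iff_continuousAt.2 fun x => (hd x).continuousAt
  have hφ : Continuous fun x => (1 / δ + A) * ‖f x‖ ^ 2 + 1 / A * ‖f' x‖ ^ 2 := by fun_prop
  have p1 : ∫ x in (0 : ℝ)..1, ‖f x‖ ^ 2 ≤ 1 ^ 2 * col p q s T :=
    pars W (fun w => ee (k w * β)) k 1 fun w _ => (norm_ee _).le
  have p2 : ∫ x in (0 : ℝ)..1, ‖f' x‖ ^ 2 ≤ A ^ 2 * col p q s T := by
    refine pars W (fun w => ee (k w * β) * (2 * Real.pi * Complex.I * k w)) k A fun w hw => ?_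
    have h1 : |(k w : ℝ)| ≤ s * N := by
      simp only [hk]
      push_cast
      refine (abs_sum_le_sum_abs _ _).trans ?_
      have := sum_le_card_nsmul univ (fun i => |(val p q (w i) : ℝ)|) N
        fun i _ => hT _ (Fintype.mem_piFinset.1 hw i)
      rwa [card_univ, Fintype.card_fin, nsmul_eq_mul] at this
    rw [norm_mul, norm_ee, one_mul, norm_mul, norm_mul, norm_mul, Complex.norm_I, mul_one,
      Complex.norm_real, Complex.norm_intCast, Real.norm_of_nonneg Real.pi_pos.le,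
      Complex.norm_ofNat]
    exact mul_le_mul_of_nonneg_left h1 (by have := Real.pi_pos; positivity)
  simp only [e1]
  refine (sum_le_sum fun r _ => gall_one f f' hd hc' (pt r) δ A hδ hA0).trans ?_
  refine (sum_int_le R pt _ hφ (fun x => by positivity) 0 (1 - δ) δ hδ (by linarith) hR
    hsep).trans ?_
  rw [sub_add_cancel, intervalIntegral.integral_add
    ((by fun_prop : Continuous fun x => (1 / δ + A) * ‖f x‖ ^ 2).intervalIntegrable _ _)
    ((by fun_prop : Continuous fun x => 1 / A * ‖f' x‖ ^ 2).intervalIntegrable _ _),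
    intervalIntegral.integral_const_mul, intervalIntegral.integral_const_mul]
  have h2 := mul_le_mul_of_nonneg_left p1 (by positivity : 0 ≤ 1 / δ + A)
  have h3 := mul_le_mul_of_nonneg_left p2 (by positivity : 0 ≤ 1 / A)
  have h4 : 1 / A * (A ^ 2 * (col p q s T : ℝ)) = A * col p q s T := by field_simp
  linarith

lemma ls' (hq : 0 < q) (hqp : q < p) (hF : Fac p Lg) (m s : ℕ) (P : Finset ℕ) (hs : 0 < s)
    (hP : ∀ l ∈ P, l.Prime ∧ p < l ∧ l ^ 2 ≤ p ^ m) (u : ℕ) (hu : ∃ a b, u = q ^ a * p ^ b)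
    (β : ℝ) :
    ∑ r ∈ P.sigma (fun l => Ico 1 l),
      ‖F p q (Lg m) (u * (((r.2 : ℝ) / r.1) - β))‖ ^ (2 * s) ≤
        14 * s * (p : ℝ) ^ (m + 1) * col p q s (Lg m) := by
  have hp2 : (2 : ℝ) ≤ p := by exact_mod_cast (by omega : 2 ≤ p)
  have hpm : (1 : ℝ) ≤ (p : ℝ) ^ m := one_le_pow₀ (by linarith)
  have hcop : ∀ l ∈ P, IsCoprime (l : ℤ) (u : ℤ) := by
    intro l hl
    obtain ⟨a, b, rfl⟩ := hu
    obtain ⟨h1, h2, -⟩ := hP l hl
    push_cast
    exact (cop_of_lt h1 hq (by omega)).pow_right.mul_right (cop_of_lt h1 (by omega) h2).pow_right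
  have key := ls (p := p) (q := q) (Lg m) s ((p : ℝ) ^ (m + 1)) (1 / (p : ℝ) ^ m) (-(u * β))
    (by positivity) (by rw [div_le_one (by positivity)]; exact hpm) (by positivity) hs
    (fun w hw => by exact_mod_cast (val_abs_lt hq hqp (hF.sub _ hw)).le)
    (P.sigma fun l => Ico 1 l) (fun r => ((((u : ℤ) * r.2) % r.1 : ℤ) : ℝ) / r.1) ?_ ?_
  · refine le_trans (le_of_eq (sum_congr rfl fun r hr => ?_)) (key.trans ?_)
    · have h1 : (r.1 : ℝ) ≠ 0 := by exact_mod_cast (hP _ (mem_sigma.1 hr).1).1.ne_zero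
      rw [← F_int _ _ (-(((u : ℤ) * r.2) / r.1)), Int.emod_def]
      congr 3
      push_cast
      field_simp
      ring
    · refine mul_le_mul_of_nonneg_right ?_ (by positivity)
      rw [one_div_one_div, pow_succ]
      have h1 : (1 : ℝ) ≤ s := by exact_mod_cast hs
      have h2 := Real.pi_lt_d2
      have h3 : (p : ℝ) ^ m ≤ s * ((p : ℝ) ^ m * p) := by
        have : (p : ℝ) ^ m ≤ (p : ℝ) ^ m * p := by nlinarith
        nlinarith
      nlinarith
  · intro r hr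
    obtain ⟨h1, -, h3⟩ := hP _ (mem_sigma.1 hr).1
    have h4 : (0 : ℤ) < r.1 := by exact_mod_cast h1.pos
    have h5 := Int.emod_nonneg ((u : ℤ) * r.2) h4.ne'
    have h6 := Int.emod_lt_of_pos ((u : ℤ) * r.2) h4
    have h7 : (1 : ℝ) ≤ r.1 := by exact_mod_cast h1.pos
    have h8 : ((((u : ℤ) * r.2) % r.1 : ℤ) : ℝ) + 1 ≤ r.1 := by exact_mod_cast h6
    have h9 : (r.1 : ℝ) ^ 2 ≤ (p : ℝ) ^ m := by exact_mod_cast h3
    have h10 : 1 / (p : ℝ) ^ m ≤ 1 / r.1 := one_div_le_one_div_of_le (by linarith) (by nlinarith)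
    refine ⟨div_nonneg (by exact_mod_cast h5) (by linarith), ?_⟩
    have h11 : ((((u : ℤ) * r.2) % r.1 : ℤ) : ℝ) / r.1 ≤ 1 - 1 / r.1 := by
      rw [le_sub_iff_add_le, ← add_div, div_le_one (by linarith)]
      exact h8
    linarith
  · rintro ⟨l, a⟩ hr ⟨l', a'⟩ hr' hne
    simp only [mem_sigma, mem_Ico] at hr hr'
    obtain ⟨h1, -, h3⟩ := hP _ hr.1
    obtain ⟨h1', -, h3'⟩ := hP _ hr'.1
    have d1 : (0 : ℝ) < l := by exact_mod_cast h1.pos
    have d2 : (0 : ℝ) < l' := by exact_mod_cast h1'.pos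
    have h4 : ((u : ℤ) * a) % l * l' - ((u : ℤ) * a') % l' * l ≠ 0 := by
      intro h0
      rcases eq_or_ne l l' with rfl | hl
      · have h5 : (l : ℤ) ≠ 0 := by exact_mod_cast h1.ne_zero
        have h6 : ((u : ℤ) * a) % l = ((u : ℤ) * a') % l := mul_right_cancel₀ h5 (by linarith)
        have h7 := Int.ModEq.dvd h6
        rw [← mul_sub] at h7
        have h8 := Int.eq_zero_of_abs_lt_dvd ((hcop l hr.1).dvd_of_dvd_mul_left h7)
          (by rw [abs_lt]; constructor <;> omega)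
        exact hne (by rw [show a = a' by omega])
      · have h5 : (l : ℤ) ∣ ((u : ℤ) * a) % l * l' := ⟨((u : ℤ) * a') % l', by linarith⟩
        have h6 : IsCoprime (l : ℤ) (l' : ℤ) :=
          Nat.isCoprime_iff_coprime.2 ((Nat.coprime_primes h1 h1').2 hl)
        have h7 : (l : ℤ) ∣ u * a := by
          have := dvd_add (h6.dvd_of_dvd_mul_right h5) (dvd_mul_right (l : ℤ) ((u : ℤ) * a / l))
          rwa [Int.emod_add_mul_ediv] at this
        have h8 := Int.le_of_dvd (by omega) ((hcop l hr.1).dvd_of_dvd_mul_left h7)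
        omega
    have h5 : (1 : ℝ) ≤ |((((u : ℤ) * a) % l * l' - ((u : ℤ) * a') % l' * l : ℤ) : ℝ)| := by
      exact_mod_cast Int.one_le_abs h4
    have h6 : (l : ℝ) ^ 2 ≤ (p : ℝ) ^ m := by exact_mod_cast h3
    have h7 : (l' : ℝ) ^ 2 ≤ (p : ℝ) ^ m := by exact_mod_cast h3'
    rw [div_sub_div _ _ d1.ne' d2.ne', abs_div, abs_of_pos (mul_pos d1 d2)]
    rw [Int.cast_sub, Int.cast_mul, Int.cast_mul, Int.cast_natCast, Int.cast_natCast,
      mul_comm _ (l : ℝ)] at h5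
    calc 1 / (p : ℝ) ^ m ≤ 1 / (l * l') :=
          one_div_le_one_div_of_le (mul_pos d1 d2) (by nlinarith [sq_nonneg ((l : ℝ) - l')])
      _ ≤ _ := by gcongr

lemma sq_norm_sum {ι : Type} (R : Finset ι) (c : ι → ℂ) :
    ‖∑ r ∈ R, c r‖ ^ 2 = (∑ r ∈ R, ∑ r' ∈ R, c r * (starRingEnd ℂ) (c r')).re := by
  rw [← sum_mul_sum, ← map_sum, Complex.mul_conj', ← Complex.ofReal_pow, Complex.ofReal_re]

lemma quad {ι : Type} (hF : Fac p Lg) (m k : ℕ) (R : Finset ι) :
    ∃ u : ℕ → ℕ, (∀ i, ∃ a b, u i = q ^ a * p ^ b) ∧ ∀ (θ : ι → ℝ) (c : ι → ℂ),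
      ∑ v ∈ Lg (k * m), ‖∑ r ∈ R, c r * ee (θ r * val p q v)‖ ^ 2 ≤
        (∑ r ∈ R, ∑ r' ∈ R, c r * (starRingEnd ℂ) (c r') *
          ∏ i ∈ range k, F p q (Lg m) (u i * (θ r - θ r'))).re := by
  induction k with
  | zero =>
    refine ⟨fun _ => 1, fun _ => ⟨0, 0, by simp⟩, fun θ c => ?_⟩
    rw [zero_mul]
    refine (sum_le_sum_of_subset_of_nonneg (hF.sub 0) fun _ _ _ => by positivity).trans ?_
    simp only [Wd, sum_singleton, range_zero, prod_empty, mul_one, ← sq_norm_sum]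
    simp [ee]
  | succ k ih =>
    obtain ⟨u, hu, ih⟩ := ih
    refine ⟨fun i => Nat.casesOn i (q ^ (k * m)) fun i => p ^ m * u i, ?_, fun θ c => ?_⟩
    · rintro (_ | i)
      · exact ⟨k * m, 0, by simp⟩
      · obtain ⟨a, b, h⟩ := hu i
        exact ⟨a, m + b, by simp only [h]; ring⟩
    rw [add_mul, one_mul, add_comm]
    refine (hF.split _ _ _ fun _ => by positivity).trans ?_
    have e : ∀ x ∈ Lg m, ∑ y ∈ Lg (k * m), ‖∑ r ∈ R, c r * ee (θ r * val p q (x ++ y))‖ ^ 2 =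
        ∑ y ∈ Lg (k * m), ‖∑ r ∈ R, c r * ee (θ r * (q ^ (k * m) * val p q x)) *
          ee ((p ^ m * θ r) * val p q y)‖ ^ 2 := by
      intro x hx
      refine sum_congr rfl fun y hy => ?_
      congr 2
      refine sum_congr rfl fun r _ => ?_
      rw [val_append, hF.len hx, hF.len hy, mul_assoc (c r), ← ee_add]
      congr 2
      push_cast
      ring
    rw [sum_congr rfl e]
    refine (sum_le_sum fun x _ => ih _ _).trans (le_of_eq ?_)
    rw [← Complex.re_sum, sum_comm]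
    congr 1
    refine sum_congr rfl fun r _ => ?_
    rw [sum_comm]
    refine sum_congr rfl fun r' _ => ?_
    rw [prod_range_succ', ← mul_assoc, F.eq_1 p q (Lg m) (_ * (θ r - θ r')), mul_sum]
    refine sum_congr rfl fun x _ => ?_
    have e2 : ee (val p q x * (((q ^ (k * m) : ℕ) : ℝ) * (θ r - θ r'))) =
        ee (θ r * (q ^ (k * m) * val p q x)) * ee (-(θ r' * (q ^ (k * m) * val p q x))) := by
      rw [← ee_add]
      congr 1
      push_cast
      ring
    have e3 : ∀ i, (u i : ℝ) * (p ^ m * θ r - p ^ m * θ r') =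
        ((p ^ m * u i : ℕ) : ℝ) * (θ r - θ r') := fun i => by push_cast; ring
    simp only [e3, map_mul, conj_ee, Nat.rec_zero]
    rw [e2]
    ring

lemma prod_le_sum_pow {n : ℕ} (hn : 0 < n) (x : ℕ → ℝ) (hx : ∀ i, 0 ≤ x i) :
    ∏ i ∈ range n, x i ≤ ∑ i ∈ range n, x i ^ n := by
  obtain ⟨j, hj, h⟩ := exists_max_image (range n) x ⟨0, mem_range.2 hn⟩
  refine (prod_le_prod (fun i _ => hx i) h).trans ?_
  rw [prod_const, card_range]
  exact single_le_sum (f := fun i => x i ^ n) (fun i _ => pow_nonneg (hx i) _) hj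

lemma schur {ι : Type} (R : Finset ι) (c : ι → ℂ) (K : ι → ι → ℂ) (B : ℝ)
    (hK : ∀ r r', ‖K r r'‖ = ‖K r' r‖) (hB : ∀ r' ∈ R, ∑ r ∈ R, ‖K r r'‖ ≤ B) :
    (∑ r ∈ R, ∑ r' ∈ R, c r * (starRingEnd ℂ) (c r') * K r r').re ≤ (∑ r ∈ R, ‖c r‖ ^ 2) * B := by
  refine (Complex.re_le_norm _).trans ((norm_sum_le _ _).trans ?_)
  have h1 : ∑ r ∈ R, ∑ r' ∈ R, ‖c r'‖ ^ 2 * ‖K r r'‖ ≤ (∑ r ∈ R, ‖c r‖ ^ 2) * B := by
    rw [sum_comm, sum_mul]
    refine sum_le_sum fun r' hr' => ?_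
    rw [← mul_sum]
    exact mul_le_mul_of_nonneg_left (hB r' hr') (by positivity)
  have h2 : ∑ r ∈ R, ∑ r' ∈ R, ‖c r‖ ^ 2 * ‖K r r'‖ =
      ∑ r ∈ R, ∑ r' ∈ R, ‖c r'‖ ^ 2 * ‖K r r'‖ := by
    rw [sum_comm]
    exact sum_congr rfl fun r _ => sum_congr rfl fun r' _ => by rw [hK]
  have h3 : ∑ r ∈ R, ‖∑ r' ∈ R, c r * (starRingEnd ℂ) (c r') * K r r'‖ ≤
      ∑ r ∈ R, ∑ r' ∈ R, (‖c r‖ ^ 2 * ‖K r r'‖ + ‖c r'‖ ^ 2 * ‖K r r'‖) / 2 := by
    refine sum_le_sum fun r _ => (norm_sum_le _ _).trans (sum_le_sum fun r' _ => ?_)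
    rw [norm_mul, norm_mul, Complex.norm_conj]
    nlinarith [mul_nonneg (norm_nonneg (K r r')) (sq_nonneg (‖c r‖ - ‖c r'‖))]
  simp only [← sum_div, sum_add_distrib] at h3
  linarith

/-- The Fourier coefficients modulo `l`. -/
noncomputable def cf (g : ℤ → ℝ) (l a : ℕ) : ℂ :=
  (∑ x ∈ range l, (g x : ℂ) * ee (-((a : ℝ) / l * (x : ℤ)))) / l

lemma expand {l : ℕ} (hl : 0 < l) (g : ℤ → ℝ) (hg : ∀ x x', x ≡ x' [ZMOD l] → g x = g x')
    (V : ℤ) : ∑ a ∈ range l, cf g l a * ee ((a : ℝ) / l * V) = g V := by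
  have hl0 : (l : ℂ) ≠ 0 := by exact_mod_cast hl.ne'
  have e : ∀ a ∈ range l, cf g l a * ee ((a : ℝ) / l * V) =
      ∑ x ∈ range l, (g x : ℂ) / l * ee (a * ((-1 * x + V : ℤ) : ℝ) / l) := by
    intro a _
    rw [cf, sum_div, sum_mul]
    refine sum_congr rfl fun x _ => ?_
    rw [show (a : ℝ) * ((-1 * x + V : ℤ) : ℝ) / l = -((a : ℝ) / l * (x : ℤ)) + (a : ℝ) / l * V by
      push_cast; ring, ee_add]
    ring
  rw [sum_congr rfl e, sum_comm]
  simp only [← mul_sum, sum_ee hl, mul_ite, mul_zero]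
  obtain ⟨x₀, h0, h1⟩ := lin_one hl (a := -1) isCoprime_one_right.neg_right V
  have h2 := mem_filter.1 (h1 ▸ mem_singleton_self x₀)
  rw [← sum_filter, h1, sum_singleton, div_mul_cancel₀ _ hl0,
    hg x₀ V (Int.modEq_iff_dvd.2 (by rw [show V - x₀ = -1 * x₀ + V by ring]; exact h2.2))]

lemma cf_sq {l : ℕ} (hl : 0 < l) (g : ℤ → ℝ) (hg : ∀ x x', x ≡ x' [ZMOD l] → g x = g x') :
    ∑ a ∈ range l, ‖cf g l a‖ ^ 2 = (∑ x ∈ range l, g x * g x) / l := by
  have e : ∀ a ∈ range l, ((‖cf g l a‖ ^ 2 : ℝ) : ℂ) =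
      ∑ x ∈ range l, (g x : ℂ) / l * (cf g l a * ee ((a : ℝ) / l * (x : ℤ))) := by
    intro a _
    rw [Complex.ofReal_pow, ← Complex.mul_conj']
    nth_rewrite 2 [cf]
    rw [map_div₀, map_sum, sum_div, mul_sum]
    refine sum_congr rfl fun x _ => ?_
    rw [map_mul, conj_ee, neg_neg, Complex.conj_ofReal, Complex.conj_natCast]
    ring
  apply Complex.ofReal_injective
  rw [Complex.ofReal_sum, sum_congr rfl e, sum_comm]
  simp only [← mul_sum, expand hl g hg]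
  push_cast
  rw [sum_div]
  exact sum_congr rfl fun x _ => by ring

end SieveAux

open SieveAux in
theorem sieve : SieveStmt := by
  intro p q Lg hq hqp hF m s P τ g hs hP hg hper
  obtain ⟨u, hu, hQ⟩ := quad (q := q) hF m (2 * s) (P.sigma fun l => Ico 1 l)
  have e : ∀ V : ℤ, (∑ l ∈ P, g l V - ∑ l ∈ P, (∑ x ∈ range l, g l x) / l) ^ 2 =
      ‖∑ r ∈ P.sigma (fun l => Ico 1 l), cf (g r.1) r.1 r.2 * ee ((r.2 : ℝ) / r.1 * V)‖ ^ 2 := by
    intro V
    rw [← sq_abs, ← Real.norm_eq_abs, ← Complex.norm_real, sum_sigma, ← sum_sub_distrib,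
      Complex.ofReal_sum]
    congr 2
    refine sum_congr rfl fun l hl => ?_
    have h0 := (hP l hl).1.pos
    have h1 := expand h0 (g l) (hper l hl) V
    rw [range_eq_Ico, sum_eq_sum_Ico_succ_bot h0] at h1
    rw [Complex.ofReal_sub, ← h1]
    simp [cf, ee]
  simp only [e]
  refine (hQ _ _).trans ((schur _ _ _ (28 * s ^ 2 * (p : ℝ) ^ (m + 1) * col p q s (Lg m))
    (fun r r' => ?_) fun r' _ => ?_).trans ?_)
  · rw [norm_prod, norm_prod]
    exact prod_congr rfl fun i _ => by rw [← norm_F_neg, ← mul_neg, neg_sub]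
  · simp only [norm_prod]
    refine (sum_le_sum fun r _ => prod_le_sum_pow (by omega) _ fun _ => norm_nonneg _).trans ?_
    rw [sum_comm]
    refine (sum_le_sum fun i _ => ls' hq hqp hF m s P hs hP (u i) (hu i) _).trans (le_of_eq ?_)
    rw [sum_const, card_range, nsmul_eq_mul]
    push_cast
    ring
  · refine mul_le_mul_of_nonneg_right ?_ (by positivity)
    rw [sum_sigma, mul_sum]
    refine sum_le_sum fun l hl => ?_
    have h0 := (hP l hl).1.pos
    refine (sum_le_sum_of_subset_of_nonneg (t := range l) (fun a ha => ?_)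
      fun _ _ _ => by positivity).trans ?_
    · exact mem_range.2 (mem_Ico.1 ha).2
    rw [cf_sq h0 (g l) (hper l hl), ← mul_div_assoc, mul_sum]
    refine div_le_div_of_nonneg_right (sum_le_sum fun x _ => ?_) (by positivity)
    exact mul_le_mul_of_nonneg_right (hg l hl x).2 (hg l hl x).1

end Pool.Agent.MP_c6582e_nt.H5
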