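import Pool.Agent.MP_c6582e_nt.H5.Basic

/-! One window of the collision bound. -/

namespace Pool.Agent.MP_c6582e_nt.H5

open Finset Pool.Agent.MP_74e98a_nt.H25

namespace WinAux

lemma fin_max (f : ℤ → ℝ) (s : Finset ℤ) (h : ∀ r ∈ s, f r < 1) :
    ∃ τ : ℝ, 0 ≤ τ ∧ τ < 1 ∧ ∀ r ∈ s, f r ≤ τ := by
  classical
  induction s using Finset.induction_on with
  | empty => exact ⟨0, le_rfl, one_pos, by simp⟩
  | insert a s _ ih =>
    obtain ⟨τ, h0, h1, h2⟩ := ih fun r hr => h r (mem_insert_of_mem hr)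
    refine ⟨max τ (f a), le_max_of_le_left h0, max_lt h1 (h a (mem_insert_self _ _)), ?_⟩
    intro r hr
    rcases mem_insert.1 hr with rfl | hr
    · exact le_max_right _ _
    · exact (h2 r hr).trans (le_max_left _ _)

lemma re_lt {B : ℕ} (hB : 0 < B) {x : ℤ} (h : ¬ (B : ℤ) ∣ x) : (ee (x / B)).re < 1 := by
  have hB0 : (B : ℝ) ≠ 0 := by exact_mod_cast hB.ne'
  have h1 : ee (x / B) ≠ 1 := by
    intro h1
    rw [ee, Complex.exp_eq_one_iff] at h1
    obtain ⟨n, hn⟩ := h1
    refine h ⟨n, ?_⟩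
    have h2 : (2 * Real.pi * Complex.I : ℂ) ≠ 0 := Complex.two_pi_I_ne_zero
    have h3 : (((x : ℝ) / B : ℝ) : ℂ) = n := mul_left_cancel₀ h2 (by rw [hn]; ring)
    have h4 : (x : ℝ) / B = n := by exact_mod_cast h3
    rw [div_eq_iff hB0] at h4
    exact_mod_cast h4.trans (mul_comm _ _)
  by_contra h2
  have h3 : 1 ≤ (ee (x / B)).re := not_lt.1 h2
  have h4 : Complex.normSq (ee (x / B)) = 1 := by
    rw [Complex.normSq_eq_norm_sq, norm_ee]; norm_num
  rw [Complex.normSq_apply] at h4
  have h5 : (ee (x / B)).im = 0 := by nlinarith [mul_self_nonneg (ee (x / B)).im]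
  have h6 : (ee (x / B)).re = 1 := by nlinarith
  exact h1 (Complex.ext h6 h5)

lemma tau {B : ℕ} (hB : 0 < B) :
    ∃ τ : ℝ, 0 ≤ τ ∧ τ < 1 ∧ ∀ x : ℤ, ¬ (B : ℤ) ∣ x → (ee (x / B)).re ≤ τ := by
  have hB0 : (B : ℝ) ≠ 0 := by exact_mod_cast hB.ne'
  have hB1 : (0 : ℤ) < B := by exact_mod_cast hB
  obtain ⟨τ, h0, h1, h2⟩ := fin_max (fun x => (ee (x / B)).re)
    ((Ico (0 : ℤ) B).filter fun x => ¬ (B : ℤ) ∣ x) fun r hr => re_lt hB (mem_filter.1 hr).2
  refine ⟨τ, h0, h1, fun x hx => ?_⟩
  have h3 := h2 (x % B) (mem_filter.2 ⟨mem_Ico.2 ⟨Int.emod_nonneg _ hB1.ne', Int.emod_lt_of_pos _ hB1⟩,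
    fun h => hx ((Int.dvd_iff_emod_eq_zero).2 (by
      have := Int.emod_eq_zero_of_dvd h
      rwa [Int.emod_emod_of_dvd _ (dvd_refl _)] at this))⟩)
  have h4 : (x : ℝ) / B = ((x % B : ℤ) : ℝ) / B + ((x / B : ℤ) : ℝ) := by
    have h5 : (x : ℝ) = ((x % B : ℤ) : ℝ) + B * ((x / B : ℤ) : ℝ) := by
      exact_mod_cast (Int.emod_add_mul_ediv x B).symm
    rw [h5]
    field_simp
  rw [h4, ee_add, ee_int, mul_one]
  exact h3

lemma phi_le {α : Type} (T : Finset α) (n : α → ℝ) (hn : ∀ v, 0 ≤ n v) (y : α → ℝ) :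
    ‖∑ v ∈ T, (n v : ℂ) * ee (y v)‖ ≤ ∑ v ∈ T, n v := by
  refine (norm_sum_le _ _).trans (le_of_eq (sum_congr rfl fun v _ => ?_))
  rw [norm_mul, norm_ee, mul_one, Complex.norm_real, Real.norm_of_nonneg (hn v)]

lemma phi_good {B : ℕ} (hB : 0 < B) : ∃ ρ : ℝ, 0 ≤ ρ ∧ ρ < 1 ∧ ∀ (α : Type) (T : Finset α)
    (n : α → ℝ) (y : α → ℤ), (∀ v, 0 ≤ n v) →
    (∀ v', ∑ v ∈ T.filter (fun v => (B : ℤ) ∣ y v - y v'), n v ≤ 255 / 256 * ∑ v ∈ T, n v) →
    ‖∑ v ∈ T, (n v : ℂ) * ee (y v / B)‖ ≤ ρ * ∑ v ∈ T, n v := by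
  obtain ⟨τ, h0, h1, h2⟩ := tau hB
  set t : ℝ := τ + (1 - τ) * (255 / 256) with ht
  refine ⟨(1 + t) / 2, by rw [ht]; linarith, by rw [ht]; linarith, fun α T n y hn h => ?_⟩
  set N := ∑ v ∈ T, n v with hN
  have hN0 : 0 ≤ N := sum_nonneg fun v _ => hn v
  have e : ‖∑ v ∈ T, (n v : ℂ) * ee (y v / B)‖ ^ 2 =
      ∑ v' ∈ T, n v' * ∑ v ∈ T, n v * (ee (((y v - y v' : ℤ) : ℝ) / B)).re := by
    rw [← Complex.normSq_eq_norm_sq, ← Complex.ofReal_re (Complex.normSq _),
      Complex.normSq_eq_conj_mul_self, map_sum, sum_mul, Complex.re_sum]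
    refine sum_congr rfl fun v' _ => ?_
    rw [mul_sum, mul_sum, Complex.re_sum]
    refine sum_congr rfl fun v _ => ?_
    rw [map_mul, conj_ee, Complex.conj_ofReal,
      show ((y v - y v' : ℤ) : ℝ) / B = -(y v' / B) + y v / B by push_cast; ring, ee_add,
      show (n v' : ℂ) * ee (-(y v' / B)) * (n v * ee (y v / B)) =
        ((n v' * n v : ℝ) : ℂ) * (ee (-(y v' / B)) * ee (y v / B)) by push_cast; ring,
      Complex.re_ofReal_mul, mul_assoc]
  have h3 : ∀ v', ∑ v ∈ T, n v * (ee (((y v - y v' : ℤ) : ℝ) / B)).re ≤ t * N := by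
    intro v'
    calc _ ≤ ∑ v ∈ T, (τ * n v + (1 - τ) * if (B : ℤ) ∣ y v - y v' then n v else 0) := by
          refine sum_le_sum fun v _ => ?_
          split_ifs with hd
          · have h4 := (Complex.re_le_norm (ee (((y v - y v' : ℤ) : ℝ) / B))).trans (norm_ee _).le
            nlinarith [hn v]
          · nlinarith [hn v, h2 _ hd]
      _ = τ * N + (1 - τ) * ∑ v ∈ T.filter (fun v => (B : ℤ) ∣ y v - y v'), n v := by
          rw [sum_add_distrib, ← mul_sum, ← mul_sum, sum_filter]
      _ ≤ t * N := by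
          have := mul_le_mul_of_nonneg_left (h v') (by linarith : 0 ≤ 1 - τ)
          rw [ht]
          linarith
  have h4 : ‖∑ v ∈ T, (n v : ℂ) * ee (y v / B)‖ ^ 2 ≤ ((1 + t) / 2 * N) ^ 2 := by
    rw [e]
    calc _ ≤ ∑ v' ∈ T, n v' * (t * N) :=
          sum_le_sum fun v' _ => mul_le_mul_of_nonneg_left (h3 v') (hn v')
      _ = t * N ^ 2 := by rw [← sum_mul, ← hN]; ring
      _ ≤ _ := by nlinarith [mul_nonneg (sq_nonneg (1 - t)) (sq_nonneg N)]
  have : 0 ≤ t := by rw [ht]; nlinarith
  exact (pow_le_pow_iff_left₀ (norm_nonneg _) (by positivity) two_ne_zero).1 h4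

lemma card_bad {B : ℕ} (hB : 0 < B) (O : ℕ) :
    ((range B).filter fun a => ∃ x ∈ Ioo 0 O, B ∣ a * x).card ≤ O ^ 2 := by
  calc _ ≤ ((Ioo 0 O).biUnion fun x => (range B).filter fun a => B ∣ a * x).card := by
        refine card_le_card fun a ha => ?_
        obtain ⟨h1, x, h2, h3⟩ := mem_filter.1 ha
        exact mem_biUnion.2 ⟨x, h2, mem_filter.2 ⟨h1, h3⟩⟩
    _ ≤ (Ioo 0 O).card * O := by
        refine card_biUnion_le_card_mul _ _ _ fun x hx => ?_
        obtain ⟨h1, h2⟩ := mem_Ioo.1 hx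
        refine (card_le_card_of_injOn (t := range O) (fun a => a * x / B) ?_ ?_).trans (by simp)
        · intro a ha
          simp only [coe_filter, mem_range, Set.mem_ofPred_eq, coe_range, Set.mem_Iio] at ha ⊢
          rw [Nat.div_lt_iff_lt_mul hB]
          nlinarith [ha.1]
        · intro a ha a' ha' he
          simp only [coe_filter, mem_range, Set.mem_ofPred_eq] at ha ha' he
          have h3 := Nat.div_mul_cancel ha.2
          have h4 := Nat.div_mul_cancel ha'.2
          rw [he, h4] at h3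
          exact (Nat.eq_of_mul_eq_mul_right h1 h3).symm
    _ ≤ O ^ 2 := by
        rw [sq, Nat.card_Ioo]
        exact Nat.mul_le_mul_right _ (by omega)

/-- The Fourier bound for the probability of a residue class. -/
lemma fourier {B : ℕ} (hB : 0 < B) {K α : Type} [Fintype K] [DecidableEq K] (T : Finset α)
    (y : K → α → ℤ) (n : K → α → ℝ) (c : ℤ) :
    ∑ v ∈ Fintype.piFinset fun _ : K => T,
      (if (B : ℤ) ∣ c + ∑ k, y k (v k) then 1 else 0) * ∏ k, n k (v k) ≤
      1 / B * ∑ a ∈ range B, ∏ k, ‖∑ v ∈ T, (n k v : ℂ) * ee (((a * y k v : ℤ) : ℝ) / B)‖ := by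
  have hB0 : (0 : ℝ) < B := by exact_mod_cast hB
  have hee : ∀ (s : Finset K) (f : K → ℝ), ee (∑ k ∈ s, f k) = ∏ k ∈ s, ee (f k) := by
    intro s f
    induction s using Finset.induction_on with
    | empty => simp [ee]
    | insert a s ha ih => rw [sum_insert ha, prod_insert ha, ee_add, ih]
  have e : (((B : ℝ) * ∑ v ∈ Fintype.piFinset fun _ : K => T,
      (if (B : ℤ) ∣ c + ∑ k, y k (v k) then 1 else 0) * ∏ k, n k (v k) : ℝ) : ℂ) =
      ∑ a ∈ range B, ee (a * c / B) *
        ∏ k, ∑ v ∈ T, (n k v : ℂ) * ee (((a * y k v : ℤ) : ℝ) / B) := by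
    simp only [prod_univ_sum, mul_sum]
    rw [sum_comm, Complex.ofReal_sum]
    refine sum_congr rfl fun v _ => ?_
    have h1 : ∀ a : ℕ, ee (a * c / B) * ∏ k, (n k (v k) : ℂ) * ee (((a * y k (v k) : ℤ) : ℝ) / B) =
        ee (a * ((c + ∑ k, y k (v k) : ℤ) : ℝ) / B) * ∏ k, (n k (v k) : ℂ) := by
      intro a
      rw [prod_mul_distrib, ← hee, mul_comm (∏ k, (n k (v k) : ℂ)), ← mul_assoc, ← ee_add]
      congr 2
      push_cast
      rw [mul_add, add_div, mul_sum, sum_div]
    simp only [h1]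
    rw [← sum_mul, sum_ee hB]
    split_ifs <;> simp
  rw [one_div, le_inv_mul_iff₀ hB0, ← Complex.ofReal_re ((B : ℝ) * _), e]
  refine (Complex.re_le_norm _).trans ((norm_sum_le _ _).trans (le_of_eq ?_))
  refine sum_congr rfl fun a _ => ?_
  rw [norm_mul, norm_ee, one_mul, norm_prod]

end WinAux

open WinAux in
theorem win : WinStmt := by
  intro B O hB
  have hB0 : (0 : ℝ) < B := by exact_mod_cast hB
  have hB1 : (1 : ℝ) ≤ B := by exact_mod_cast hB
  obtain ⟨ρ, r0, r1, hρ⟩ := phi_good hB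
  obtain ⟨n₀, hn₀⟩ := exists_pow_lt_of_lt_one (one_div_pos.2 hB0) r1
  refine ⟨max (4 * n₀) B, fun K α _ _ _ T vl σ n Mj c hS hσ hn hd => ?_⟩
  classical
  set N : K → ℝ := fun k => ∑ v ∈ T, n k v with hN
  have hN0 : ∀ k, 0 ≤ N k := fun k => sum_nonneg fun v _ => hn k v
  have hP0 : 0 ≤ ∏ k, N k := prod_nonneg fun k _ => hN0 k
  have hp0 : ∀ v : K → α, 0 ≤ ∏ k, n k (v k) := fun v => prod_nonneg fun k _ => hn k _
  set D : Finset K := univ.filter fun k => ∑ v ∈ T \ Mj k, n k v ≤ 1 / 256 * N k with hD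
  have hO : (0 : ℝ) ≤ (O : ℝ) ^ 2 := by positivity
  have hcard : D.card + Dᶜ.card = Fintype.card K := card_add_card_compl D
  by_cases hc : Fintype.card K ≤ 4 * Dᶜ.card
  · have hn1 : n₀ ≤ Dᶜ.card := by
      have := (le_max_left _ _).trans (hS.trans hc)
      omega
    have hρD : ρ ^ Dᶜ.card ≤ 1 / B := (pow_le_pow_of_le_one r0 r1.le hn1).trans hn₀.le
    calc _ ≤ ∑ v ∈ Fintype.piFinset fun _ : K => T,
          (if (B : ℤ) ∣ c + ∑ k, σ k * vl (v k) then 1 else 0) * ∏ k, n k (v k) := by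
          refine sum_le_sum fun v _ => mul_le_mul_of_nonneg_right ?_ (hp0 v)
          split_ifs
          · exact le_rfl
          · exact (div_le_one hB0).2 hB1
          · exact le_rfl
      _ ≤ _ := fourier hB T (fun k v => σ k * vl v) n c
      _ ≤ 1 / B * ∑ a ∈ range B,
            ((if ∃ x ∈ Ioo 0 O, B ∣ a * x then 1 else 0) + 1 / (B : ℝ)) * ∏ k, N k := by
          refine mul_le_mul_of_nonneg_left (sum_le_sum fun a ha => ?_) (one_div_pos.2 hB0).le
          split_ifs with hg
          · refine (prod_le_prod (fun k _ => norm_nonneg _) fun k _ => phi_le T _ (hn k) _).trans ?_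
            exact le_mul_of_one_le_left hP0 (le_add_of_nonneg_right (one_div_pos.2 hB0).le)
          · rw [zero_add]
            refine le_trans ?_ (mul_le_mul_of_nonneg_right hρD hP0)
            have e : ρ ^ Dᶜ.card * ∏ k, N k = ∏ k, (if k ∈ Dᶜ then ρ else 1) * N k := by
              rw [prod_mul_distrib, prod_ite_mem, univ_inter, prod_const]
            rw [e]
            refine prod_le_prod (fun k _ => norm_nonneg _) fun k _ => ?_
            split_ifs with hk
            · refine hρ α T (n k) (fun v => a * (σ k * vl v)) (hn k) fun v' => ?_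
              have h1 : ¬ ∑ v ∈ T \ Mj k, n k v ≤ 1 / 256 * N k := by
                simpa [hD] using hk
              have h2 := (hd k).resolve_left h1 a ha
                (fun x h0 h1 h2 => hg ⟨x, mem_Ioo.2 ⟨h0, h1⟩, h2⟩) (vl v')
              refine le_trans (le_of_eq (sum_congr (filter_congr fun v _ => ?_) fun _ _ => rfl)) h2
              rcases hσ k with h | h
              · rw [h, one_mul, one_mul, mul_sub]
              · rw [h, ← dvd_neg]
                congr! 1
                ring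
            · rw [one_mul]
              exact phi_le T _ (hn k) _
      _ ≤ _ := by
          rw [← sum_mul, ← mul_assoc]
          refine mul_le_mul_of_nonneg_right ?_ hP0
          rw [sum_add_distrib, sum_boole, sum_const, card_range, nsmul_eq_mul,
            mul_one_div_cancel hB0.ne', one_div, inv_mul_eq_div]
          refine div_le_div_of_nonneg_right ?_ hB0.le
          have h1 : (((range B).filter fun a => ∃ x ∈ Ioo 0 O, B ∣ a * x).card : ℝ) ≤ (O : ℝ) ^ 2 := by
            exact_mod_cast card_bad hB O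
          linarith
  · set S := Fintype.card K with hSd
    set w : K → α → ℝ := fun k u => if k ∈ D ∧ u ∉ Mj k then 256 else 1 with hw
    have h4 : (0 : ℝ) < 4 ^ S := by positivity
    have h2S : (B : ℝ) ≤ 2 ^ S := by
      have := (le_max_right _ _).trans hS
      exact_mod_cast this.trans Nat.lt_two_pow_self.le
    calc _ ≤ ∑ v ∈ Fintype.piFinset fun _ : K => T,
          (1 / (B : ℝ) * ∏ k, n k (v k) + 1 / 4 ^ S * ∏ k, n k (v k) * w k (v k)) := by
          refine sum_le_sum fun v _ => ?_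
          have hw0 : 0 ≤ ∏ k, w k (v k) := prod_nonneg fun k _ => by
            simp only [hw]
            split_ifs <;> norm_num
          rw [prod_mul_distrib, mul_comm (∏ k, n k (v k)), ← mul_assoc, ← add_mul]
          refine mul_le_mul_of_nonneg_right ?_ (hp0 v)
          have h5 : 0 ≤ 1 / (4 : ℝ) ^ S * ∏ k, w k (v k) := by positivity
          have h6 : 0 ≤ 1 / (B : ℝ) := by positivity
          split_ifs with _ hm
          · have h7 : ∏ k, w k (v k) = 256 ^ (univ.filter fun k => k ∈ D ∧ v k ∉ Mj k).card := by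
              simp only [hw]
              rw [prod_ite, prod_const_one, mul_one, prod_const]
            have h8 : D.card ≤ (univ.filter fun k => k ∈ D ∧ v k ∉ Mj k).card +
                (univ.filter fun k => v k ∈ Mj k).card := by
              refine le_trans (card_le_card fun k hk => ?_) (card_union_le _ _)
              by_cases h9 : v k ∈ Mj k <;> simp [hk, h9]
            have h9 : (4 : ℝ) ^ S ≤ ∏ k, w k (v k) := by
              rw [h7, show (256 : ℝ) = 4 ^ 4 by norm_num, ← pow_mul]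
              exact pow_le_pow_right₀ (by norm_num) (by omega)
            have h10 : 1 ≤ 1 / (4 : ℝ) ^ S * ∏ k, w k (v k) := by
              rw [one_div, le_inv_mul_iff₀ h4, mul_one]
              exact h9
            linarith
          · linarith
          · linarith
      _ = 1 / (B : ℝ) * ∏ k, N k + 1 / 4 ^ S * ∏ k, ∑ u ∈ T, n k u * w k u := by
          rw [sum_add_distrib, ← mul_sum, ← mul_sum, ← prod_univ_sum,
            ← prod_univ_sum (fun _ : K => T) fun k u => n k u * w k u]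
      _ ≤ 1 / (B : ℝ) * ∏ k, N k + 1 / 4 ^ S * ∏ k, 2 * N k := by
          refine add_le_add_right (mul_le_mul_of_nonneg_left (prod_le_prod (fun k _ => ?_)
            fun k _ => ?_) (one_div_pos.2 h4).le) _
          · refine sum_nonneg fun u _ => mul_nonneg (hn k u) ?_
            simp only [hw]
            split_ifs <;> norm_num
          · by_cases hk : k ∈ D
            · have h1 := (mem_filter.1 hk).2
              calc _ ≤ ∑ u ∈ T, (n k u + 256 * if u ∉ Mj k then n k u else 0) := by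
                    refine sum_le_sum fun u _ => ?_
                    by_cases hu : u ∈ Mj k
                    · simp [hw, hu]
                    · simp only [hw, hk, hu, not_false_eq_true, and_self, if_true]
                      linarith [hn k u]
                _ = N k + 256 * ∑ u ∈ T \ Mj k, n k u := by
                    rw [sum_add_distrib, ← mul_sum, ← sum_filter, sdiff_eq_filter]
                _ ≤ _ := by linarith
            · simp only [hw, hk, false_and, if_false, mul_one]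
              linarith [hN0 k]
      _ ≤ _ := by
          rw [prod_mul_distrib, prod_const, card_univ, ← hSd, ← mul_assoc, ← add_mul]
          refine mul_le_mul_of_nonneg_right ?_ hP0
          have h1 : 1 / (4 : ℝ) ^ S * 2 ^ S = 1 / 2 ^ S := by
            rw [show (4 : ℝ) = 2 * 2 by norm_num, mul_pow]
            field_simp
          have h2 : 1 / (2 : ℝ) ^ S ≤ 1 / B := one_div_le_one_div_of_le hB0 h2S
          rw [h1, add_div]
          have h3 : 0 ≤ (O : ℝ) ^ 2 / B := by positivity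
          have h5 : (2 : ℝ) / B = 1 / B + 1 / B := by ring
          linarith

end Pool.Agent.MP_c6582e_nt.H5
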