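import Pool.Agent.MP_c6582e_nt.H5.Core
import Pool.Agent.MP_c6582e_nt.H5.Win
import Pool.Agent.MP_c6582e_nt.H5.Coll
import Pool.Agent.MP_c6582e_nt.H5.Sieve
import Pool.Agent.MP_c6582e_nt.H5.Fin

/-! The choice of the parameters. -/

namespace Pool.Agent.MP_c6582e_nt.H5

open Finset Filter

lemma exists_ent {p : ℕ} {Lg : ℕ → Finset (List ℤ)} (hF : Fac p Lg) (h0 : 0 < (Lg 0).card)
    (h8 : ∀ b, 0 < b → 8 ^ b < (Lg b).card) : ∃ h, Ent h Lg := by
  have h1 : ∀ b, (8 : ℝ) ^ b ≤ (Lg b).card := fun b => by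
    rcases Nat.eq_zero_or_pos b with rfl | hb
    · exact_mod_cast h0
    · exact_mod_cast (h8 b hb).le
  have h2 : ∀ b, (0 : ℝ) < (Lg b).card := fun b => lt_of_lt_of_le (by positivity) (h1 b)
  have hs : Subadditive fun b => Real.log (Lg b).card := fun a b => by
    rw [← Real.log_mul (h2 a).ne' (h2 b).ne']
    exact Real.log_le_log (h2 _) (by exact_mod_cast hF.card_add a b)
  have h3 : ∀ b : ℕ, b * Real.log 8 ≤ Real.log (Lg b).card := fun b => by
    rw [← Real.log_pow]
    exact Real.log_le_log (by positivity) (h1 b)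
  have hb : BddBelow (Set.range fun n : ℕ => Real.log (Lg n).card / n) :=
    ⟨0, by rintro _ ⟨n, rfl⟩; exact div_nonneg (Real.log_natCast_nonneg _) n.cast_nonneg⟩
  have ht := hs.tendsto_lim hb
  refine ⟨hs.lim, fun b => ?_, fun ε hε => ?_, ge_of_tendsto ht ?_⟩
  · rw [← Real.le_log_iff_exp_le (h2 b)]
    rcases Nat.eq_zero_or_pos b with rfl | hb0
    · simpa using Real.log_natCast_nonneg _
    · exact (le_div_iff₀ (by exact_mod_cast hb0)).1 (hs.lim_le_div hb hb0.ne')
  · obtain ⟨b₀, h4⟩ := eventually_atTop.1 (ht.eventually_le_const (lt_add_of_pos_right _ hε))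
    refine ⟨b₀ + 1, fun b hb1 => ?_⟩
    rw [← Real.log_le_iff_le_exp (h2 b)]
    exact (div_le_iff₀ (by exact_mod_cast (by omega : 0 < b))).1 (h4 b (by omega))
  · filter_upwards [eventually_gt_atTop 0] with b hb0
    rw [le_div_iff₀ (by exact_mod_cast hb0), mul_comm]
    exact h3 b

theorem tstmt : TStmt := by
  intro p q hc hq hqp
  by_contra hcon
  push Not at hcon
  have hp : 1 < p := by omega
  have hp1 : (1 : ℝ) < p := by exact_mod_cast hp
  have hF : Fac p (LS p q) := fac_LS (by omega)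
  obtain ⟨h, hE⟩ := exists_ent hF (card_pos.2 ⟨[], mem_LS.2 ⟨by simp [Wd], fun l hl _ =>
    ⟨1, fun j hj hd => hl.one_lt.ne' (by
      obtain rfl : j = 0 := by simpa using hj
      simpa using Int.natCast_dvd_natCast.1 (by simpa using hd : (l : ℤ) ∣ (1 : ℕ)))⟩⟩⟩) hcon
  have l2 := Real.log_two_gt_d9
  have hlp := Real.log_pos hp1
  obtain ⟨θ, hθ⟩ : ∃ θ, θ = Real.log 2 / (4 * Real.log p) := ⟨_, rfl⟩
  obtain ⟨c, hc'⟩ : ∃ c, c = Real.log 2 / Real.log (2 * p) := ⟨_, rfl⟩
  have hθ0 : 0 < θ := by rw [hθ]; positivity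
  have hc0 : 0 < c := by rw [hc']; exact div_pos (by linarith) (Real.log_pos (by linarith))
  obtain ⟨κ, hκ, hK⟩ := mert ((2 * Real.log (2 * p) + 1) / (c * θ / 8) + 1)
  obtain ⟨m₁, s, hm₁, hs, hcol⟩ := coll win p q h _ hc hq hqp hF hE (θ * κ / 16) (by positivity)
  have hs1 : (1 : ℝ) ≤ s := by exact_mod_cast hs
  obtain ⟨a, ha⟩ : ∃ a, a = θ * κ * Real.log p / 8 := ⟨_, rfl⟩
  have ha0 : 0 < a := by rw [ha]; positivity
  obtain ⟨b₁, h1⟩ := hE.upp (Real.log 2 / 8) (by positivity)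
  obtain ⟨b₂, h2⟩ := hE.upp (a * c * θ / (256 * s)) (by positivity)
  obtain ⟨b₃, h3⟩ := hE.upp (θ * Real.log 2 / 32) (by positivity)
  have ev : ∀ x y : ℝ, 0 < y → ∀ᶠ m : ℕ in atTop, x ≤ y * m := fun x y hy =>
    (tendsto_natCast_atTop_atTop.const_mul_atTop hy).eventually_ge_atTop x
  obtain ⟨m₀, hm₀⟩ := eventually_atTop.1 ((ev (2 * (b₁ + 12 + 3 : ℕ)) κ hκ).and ((ev 1 a ha0).and
    ((ev (448 * s ^ 2 * p) a ha0).and ((ev 128 (a * c * θ) (by positivity)).and
    ((ev 32 (θ * Real.log 2) (by positivity)).and ((ev (384 * s ^ 3) (a ^ 4) (by positivity)).and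
    (eventually_ge_atTop (b₂ + b₃ + 1))))))))
  obtain ⟨n, hn, hK'⟩ := hK (m₁ * Real.log p / 2) (by positivity) m₀
  obtain ⟨e1, e2, e3, e4, e5, e6, e7⟩ := hm₀ (n * m₁) (hn.trans (Nat.le_mul_of_pos_right _ hm₁))
  have hn0 : 0 < n := Nat.pos_of_mul_pos_right (by omega : 0 < n * m₁)
  have h4 := hcol n hn0
  rw [show m₁ * Real.log p / 2 * n = (n * m₁ : ℕ) * Real.log p / 2 by push_cast; ring] at hK'
  generalize n * m₁ = m at *
  have hm0 : (0 : ℝ) < m := by exact_mod_cast (by omega : 0 < m)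
  have hA : θ / 4 * (κ * (m * Real.log p / 2)) = a * m := by rw [ha]; ring
  have hbm : m ≤ 2 * s * m := Nat.le_mul_of_pos_left _ (by omega)
  have hZ := hE.one_le m
  have h5 := core sieve hc hq hqp hE (m := m) (j₀ := b₁ + 12) (by omega) hs rfl
    (P := pr (κ * (m * Real.log p / 2)) (m * Real.log p / 2)) (A := κ * (m * Real.log p / 2))
    (γ := a * m / 4) hθ hc' rfl (by omega) (fun j hj => h1 j (by omega)) ?_ (hA ▸ e2)
    (by positivity) ?_ ?_ ?_ ?_
  · have h6 := (le_div_iff₀' (by positivity : 0 < c * θ / 8)).2 h5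
    linarith
  · intro l hl
    rw [pr, mem_filter, mem_Icc, Nat.le_floor_iff (Real.exp_pos _).le] at hl
    have hl0 : (0 : ℝ) < l := by exact_mod_cast hl.2.1.pos
    refine ⟨hl.2.1, ?_, ?_, hl.2.2.le⟩
    · have : ((p : ℝ) ^ (b₁ + 12 + 3)) ≤ l := by
        rw [← Real.log_le_log_iff (by positivity) hl0, Real.log_pow]
        nlinarith [hl.2.2]
      exact_mod_cast this
    · have : (l : ℝ) ^ 2 ≤ (p : ℝ) ^ m := by
        rw [← Real.log_le_log_iff (by positivity) (by positivity), Real.log_pow, Real.log_pow]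
        have := (Real.log_le_iff_le_exp hl0).2 hl.1.2
        push_cast
        linarith
      exact_mod_cast this
  · rw [hA]
    have h6 : (p : ℝ) ^ m = Real.exp (m * Real.log p) := by
      rw [← Real.log_pow, Real.exp_log (by positivity)]
    have h7 : 112 * s ^ 2 * (p : ℝ) ≤ Real.exp (a * m / 4) := by
      linarith [Real.add_one_le_exp (a * m / 4)]
    rw [pow_succ' (p : ℝ), h6, ← mul_assoc (112 * _)]
    calc _ ≤ Real.exp (-(a * m)) * (Real.exp (a * m / 4) * Real.exp (m * Real.log p) *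
          (((LS p q m).card : ℝ) ^ (2 * s) * Real.exp (-((1 - θ * κ / 16) * m * Real.log p)))) := by
          gcongr
      _ = _ := by
          rw [mul_comm (_ ^ (2 * s)), ← mul_assoc, ← mul_assoc, ← mul_assoc, ← Real.exp_add,
            ← Real.exp_add, ← Real.exp_add]
          congr 2
          rw [ha]
          ring
  · have h6 := (Real.log_le_iff_le_exp (by linarith)).2 (h2 m (by omega))
    have h7 := mul_le_mul_of_nonneg_left h6 (by positivity : (0 : ℝ) ≤ 2 * s)
    have h8 : 2 * s * ((h + a * c * θ / (256 * s)) * m) = h * (2 * s * m) + a * c * θ * m / 128 := by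
      field_simp
      ring
    rw [Real.log_pow, div_le_iff₀ (by positivity)]
    push_cast
    linarith
  · have h6 := (Real.log_le_iff_le_exp (by linarith [hE.one_le (2 * s * m)])).2
      (h3 (2 * s * m) (by omega))
    have h7 : (m : ℝ) ≤ (2 * s * m : ℕ) := by exact_mod_cast hbm
    have h8 := mul_le_mul_of_nonneg_left h7 (by positivity : 0 ≤ θ * Real.log 2)
    rw [div_le_iff₀ (mul_pos (by linarith) (by linarith))]
    linarith
  · have h6 := Real.pow_div_factorial_le_exp (a * m) (by positivity) 4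
    have h7 := mul_le_mul_of_nonneg_right e6 (by positivity : (0 : ℝ) ≤ m ^ 3)
    rw [hA, Real.exp_neg, ← div_eq_mul_inv, div_le_one (Real.exp_pos _)]
    norm_num [Nat.factorial] at h6 ⊢
    nlinarith

theorem final : FinStmt := fin tstmt

end Pool.Agent.MP_c6582e_nt.H5
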