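import Pool.Agent.MP_c6582e_nt.H5.Basic

/-! Long ranges of primes have a large sum of reciprocals. -/

namespace Pool.Agent.MP_c6582e_nt.H5

open Finset

namespace MertAux

/-- The sum of the reciprocals of the primes with `log l ≤ x`. -/
noncomputable def Phi (x : ℝ) : ℝ :=
  ∑ l ∈ (Icc 1 ⌊Real.exp x⌋₊).filter Nat.Prime, (1 : ℝ) / l

lemma harm_le (n : ℕ) : ∑ m ∈ Icc 1 n, ((m : ℝ))⁻¹ ≤
    ∏ l ∈ (n + 1).primesBelow, (1 - (l : ℝ)⁻¹)⁻¹ := by
  let f : ℕ →* ℝ := ⟨⟨fun m => (m : ℝ)⁻¹, by simp⟩, fun a b => by simp [mul_comm]⟩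
  have hf : ∀ {l : ℕ}, l.Prime → ‖f l‖ < 1 := by
    intro l hl
    have h1 : (1 : ℝ) < l := by exact_mod_cast hl.one_lt
    change ‖(l : ℝ)⁻¹‖ < 1
    rw [Real.norm_eq_abs, abs_of_nonneg (by positivity)]
    exact inv_lt_one_of_one_lt₀ h1
  have h := (EulerProduct.summable_and_hasSum_smoothNumbers_prod_primesBelow_geometric hf
    (n + 1)).2
  have h2 := sum_le_hasSum ((Icc 1 n).subtype (· ∈ (n + 1).smoothNumbers))
    (fun m _ => show (0 : ℝ) ≤ ((m : ℕ) : ℝ)⁻¹ by positivity) h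
  refine le_trans (le_of_eq ?_) h2
  rw [sum_subtype_eq_sum_filter (fun m : ℕ => (m : ℝ)⁻¹), filter_true_of_mem]
  intro m hm
  rw [mem_Icc] at hm
  exact Nat.mem_smoothNumbers_of_lt (by omega) (by omega)

lemma le_exp_Phi (x : ℝ) : x ≤ Real.exp (2 * Phi x) := by
  set n := ⌊Real.exp x⌋₊ with hn
  have h1 : x ≤ Real.log ((n + 1 : ℕ) : ℝ) := by
    rw [Real.le_log_iff_exp_le (by positivity)]
    push_cast
    exact (Nat.lt_floor_add_one _).le
  have h2 : ((harmonic n : ℚ) : ℝ) = ∑ m ∈ Icc 1 n, ((m : ℝ))⁻¹ := by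
    rw [harmonic_eq_sum_Icc]
    push_cast
    rfl
  have h3 : (n + 1).primesBelow = (Icc 1 n).filter Nat.Prime := by
    ext l
    rw [Nat.mem_primesBelow, mem_filter, mem_Icc]
    exact ⟨fun h => ⟨⟨h.2.one_le, by omega⟩, h.2⟩, fun h => ⟨by omega, h.2⟩⟩
  refine h1.trans ((log_add_one_le_harmonic n).trans ?_)
  rw [h2]
  refine (harm_le n).trans ?_
  rw [h3, Phi, ← hn, mul_sum, Real.exp_sum]
  refine prod_le_prod (fun l hl => ?_) fun l hl => ?_
  · have h4 : (2 : ℝ) ≤ l := by exact_mod_cast (mem_filter.1 hl).2.two_le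
    have h5 : (l : ℝ)⁻¹ ≤ 1 := inv_le_one_of_one_le₀ (by linarith)
    exact inv_nonneg.2 (by linarith)
  · have h4 : (2 : ℝ) ≤ l := by exact_mod_cast (mem_filter.1 hl).2.two_le
    have h5 : (l : ℝ)⁻¹ ≤ 1 / 2 := by
      rw [one_div]
      exact inv_anti₀ (by norm_num) h4
    have h6 : (0 : ℝ) ≤ (l : ℝ)⁻¹ := by positivity
    rw [one_div, inv_le_iff_one_le_mul₀ (by linarith)]
    have h7 := Real.add_one_le_exp (2 * (l : ℝ)⁻¹)
    nlinarith

lemma Phi_le (A B : ℝ) : Phi B ≤ Phi A + ∑ l ∈ pr A B, (1 : ℝ) / l := by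
  classical
  have h : (Icc 1 ⌊Real.exp B⌋₊).filter Nat.Prime ⊆
      (Icc 1 ⌊Real.exp A⌋₊).filter Nat.Prime ∪ pr A B := by
    intro l hl
    rw [mem_filter, mem_Icc] at hl
    rw [mem_union, pr, mem_filter, mem_filter, mem_Icc, mem_Icc]
    by_cases h1 : A < Real.log l
    · exact Or.inr ⟨hl.1, hl.2, h1⟩
    · refine Or.inl ⟨⟨hl.1.1, Nat.le_floor ?_⟩, hl.2⟩
      have h2 : (0 : ℝ) < l := by exact_mod_cast hl.2.pos
      exact (Real.log_le_iff_le_exp h2).1 (not_lt.1 h1)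
  refine (sum_le_sum_of_subset_of_nonneg h fun l _ _ => by positivity).trans ?_
  rw [Phi, ← sum_union_inter]
  exact le_add_of_nonneg_right (sum_nonneg fun l _ => by positivity)

end MertAux

open MertAux in
theorem mert : MertStmt := by
  intro K
  obtain ⟨N, hN⟩ := exists_nat_ge (Real.exp (2 * K + 1))
  have hN0 : (0 : ℝ) < N := (Real.exp_pos _).trans_le hN
  have hN1 : 1 ≤ N := by exact_mod_cast hN0
  refine ⟨(N : ℝ)⁻¹, by positivity, fun c hc n₀ => ?_⟩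
  by_contra hcon
  push Not at hcon
  set m := n₀ + 1 with hm
  have h1 : ∀ i : ℕ, Phi (c * (m * N ^ i : ℕ)) ≤ Phi (c * m) + i * K := by
    intro i
    induction i with
    | zero => simp
    | succ i ih =>
      have h2 := hcon (m * N ^ (i + 1))
        (by nlinarith [Nat.one_le_pow (i + 1) N hN1])
      have h3 := Phi_le ((N : ℝ)⁻¹ * (c * (m * N ^ (i + 1) : ℕ))) (c * (m * N ^ (i + 1) : ℕ))
      have h4 : (N : ℝ)⁻¹ * (c * (m * N ^ (i + 1) : ℕ)) = c * (m * N ^ i : ℕ) := by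
        push_cast
        field_simp
        ring
      rw [h4] at h2 h3
      push_cast at h2 h3 ih ⊢
      linarith
  obtain ⟨i, hi⟩ := exists_nat_ge (Real.exp (2 * Phi (c * m)) / (c * m))
  have hm0 : (0 : ℝ) < c * m := by positivity
  rw [div_le_iff₀ hm0] at hi
  have h2 := le_exp_Phi (c * (m * N ^ i : ℕ))
  have h3 : Real.exp (2 * Phi (c * (m * N ^ i : ℕ))) ≤
      Real.exp (2 * Phi (c * m)) * Real.exp (i * (2 * K)) := by
    rw [← Real.exp_add]
    exact Real.exp_le_exp.2 (by linarith [h1 i])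
  have h4 : Real.exp (i * (2 * K)) * Real.exp i ≤ (N : ℝ) ^ i := by
    rw [← Real.exp_add, show (i : ℝ) * (2 * K) + i = i * (2 * K + 1) by ring, Real.exp_nat_mul]
    exact pow_le_pow_left₀ (Real.exp_pos _).le hN i
  have h5 := Real.add_one_le_exp (i : ℝ)
  have h6 := Real.exp_pos (i * (2 * K))
  have h7 : c * (m * N ^ i : ℕ) = c * m * (N : ℝ) ^ i := by
    push_cast
    ring
  rw [h7] at h2 h3
  have h8 := mul_le_mul_of_nonneg_left h4 hm0.le
  have h9 := mul_le_mul_of_nonneg_right hi h6.le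
  have h10 := mul_le_mul_of_nonneg_left h5 (mul_pos hm0 h6).le
  nlinarith [mul_pos hm0 h6]

end Pool.Agent.MP_c6582e_nt.H5
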