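import Pool.Agent.MP_c6582e_nt.H5.Basic

/-! Small sets of blocks are rarely visited. -/

namespace Pool.Agent.MP_c6582e_nt.H5

open Finset

lemma jens {α : Type} (S : Finset α) (x : α → ℝ) {D : ℝ} (hD : ∑ w ∈ S, Real.exp (x w) ≤ D) :
    ∑ w ∈ S, x w ≤ S.card * Real.log (D / S.card) := by
  rcases S.eq_empty_or_nonempty with rfl | hS
  · simp
  have h0 : (0 : ℝ) < S.card := by exact_mod_cast hS.card_pos
  have h1 : 0 < D := (sum_pos (fun _ _ => Real.exp_pos _) hS).trans_le hD
  have h2 : ∀ w ∈ S, x w ≤ Real.log (D / S.card) - 1 + Real.exp (x w) * (S.card / D) := by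
    intro w _
    have := Real.add_one_le_exp (x w - Real.log (D / S.card))
    rw [Real.exp_sub, Real.exp_log (by positivity), div_div_eq_mul_div, mul_div_assoc] at this
    linarith
  refine (sum_le_sum h2).trans ?_
  rw [sum_add_distrib, sum_const, nsmul_eq_mul, ← sum_mul]
  have h3 := mul_le_mul_of_nonneg_right hD (by positivity : 0 ≤ S.card / D)
  rw [mul_div_cancel₀ _ h1.ne'] at h3
  linarith

theorem rare : RareStmt := by
  intro p h Lg hp hF L b S M Θ γ bad _ hb hS hM hL hΘ hbΘ hγ hbad hbig
  have hp1 : (1 : ℝ) ≤ p := by exact_mod_cast hp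
  have hb1 : (1 : ℝ) ≤ b := by exact_mod_cast hb
  have l2 := Real.log_two_gt_d9
  have l2' := Real.log_two_lt_d9
  have hΛ : Real.log 2 ≤ Real.log (2 * p) := Real.log_le_log two_pos (by linarith)
  have hlM := Real.log_nonneg hM
  have hM0 : 0 < M := by linarith
  have hΘ0 : 0 < Θ := by linarith
  have hlΘ := Real.log_nonneg hΘ
  have hbL : b ≤ L := by
    have h1 : 1 / 4 ≤ 2 * b * Real.log (2 * p) + Real.log M := by nlinarith
    have h2 : (b : ℝ) ≤ L := by nlinarith
    exact_mod_cast h2
  have hS0 : (0 : ℝ) < S.card := by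
    by_contra hc
    nlinarith [Real.exp_pos (h * L), (Nat.cast_nonneg S.card : (0 : ℝ) ≤ S.card)]
  set c : ℕ → ℝ := fun t => ((S.filter fun w => bad (w.take t) (blk t b w)).card : ℝ) with hc
  have key : ∀ r ∈ range b, γ * ∑ i ∈ range ((L - r) / b), c (r + i * b) ≤ S.card *
      (2 * b * Real.log (2 * p) + Real.log M + L / b * (Real.log 2 + Real.log Θ) - h * L) := by
    intro r hr
    rw [mem_range] at hr
    have h1 : (L - r) / b * b ≤ L - r := Nat.div_mul_le_self _ _
    have h2 : L - r < (L - r) / b * b + b := Nat.lt_div_mul_add hb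
    generalize (L - r) / b = k at h1 h2 ⊢
    obtain ⟨e, he⟩ : ∃ e, L = r + k * b + e := ⟨L - (r + k * b), by omega⟩
    set F : List ℤ → List ℤ → ℝ := fun u v => Real.exp (if bad u v then γ else 0) with hF'
    have h3 : ∀ u, ∑ v ∈ Lg b, F u v ≤ 2 * Θ := by
      intro u
      have h4 : ∀ v ∈ Lg b, F u v ≤ 1 + if bad u v then Real.exp γ else 0 := by
        intro v _
        simp only [hF']
        split_ifs <;> simp
      refine (sum_le_sum h4).trans ?_
      rw [sum_add_distrib, ← sum_filter, sum_const, sum_const, nsmul_eq_mul, nsmul_eq_mul]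
      have h5 := mul_le_mul_of_nonneg_right (hbad u) (Real.exp_pos γ).le
      rw [mul_right_comm, ← Real.exp_add, neg_add_cancel, Real.exp_zero] at h5
      linarith
    have h4 := hF.tree r b k F _ (fun _ _ => (Real.exp_pos _).le) h3
    set G : List ℤ → ℝ := fun w => ∏ i ∈ range k, F (w.take (r + i * b)) (blk (r + i * b) b w)
      with hG
    have hG0 : ∀ w, 0 ≤ G w := fun w => prod_nonneg fun _ _ => (Real.exp_pos _).le
    have h5 : ∑ w ∈ S, G w ≤ (Lg e).card * ((Lg r).card * (2 * Θ) ^ k) := by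
      refine (sum_le_sum_of_subset_of_nonneg hS fun w _ _ => hG0 w).trans ?_
      rw [he]
      refine (hF.split _ _ G hG0).trans ?_
      refine le_trans (le_of_eq ?_) (mul_le_mul_of_nonneg_left h4 (Nat.cast_nonneg _))
      rw [mul_sum]
      refine sum_congr rfl fun u hu => ?_
      rw [← nsmul_eq_mul, ← sum_const]
      refine sum_congr rfl fun v _ => prod_congr rfl fun i hi => ?_
      have h1 : r + i * b + b ≤ r + k * b := by nlinarith [mem_range.1 hi]
      have e' : (u ++ v).take (r + k * b) = u := by rw [← hF.len hu, List.take_left]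
      rw [← blk_take h1 (u ++ v), e', List.take_append_of_le_length (by rw [hF.len hu]; omega)]
    have h6 : ∀ a, a ≤ b → ((Lg a).card : ℝ) ≤ (2 * p) ^ b := fun a ha =>
      le_trans (by exact_mod_cast hF.card_le a) (pow_le_pow_right₀ (by linarith) ha)
    have h7 : ∑ w ∈ S, G w ≤ (2 * p) ^ b * ((2 * p) ^ b * (2 * Θ) ^ k) := by
      refine h5.trans ?_
      gcongr
      exacts [h6 e (by omega), h6 r hr.le]
    have h8 := jens S (fun w => ∑ i ∈ range k,
        if bad (w.take (r + i * b)) (blk (r + i * b) b w) then γ else 0)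
      (le_trans (sum_le_sum fun w _ => (Real.exp_sum _ _).le) h7)
    rw [sum_comm] at h8
    refine le_trans (le_of_eq ?_) (h8.trans (mul_le_mul_of_nonneg_left ?_ hS0.le))
    · rw [mul_sum]
      refine sum_congr rfl fun i _ => ?_
      rw [← sum_filter, sum_const, nsmul_eq_mul, mul_comm]
    · have h9 : h * L ≤ Real.log M + Real.log S.card := by
        rw [← Real.log_mul (by linarith) hS0.ne', Real.le_log_iff_exp_le (by positivity)]
        exact hL
      have h10 : (k : ℝ) ≤ L / b := by
        rw [le_div_iff₀ (by linarith)]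
        exact_mod_cast (by omega : k * b ≤ L)
      rw [Real.log_div (by positivity) hS0.ne', Real.log_mul (by positivity) (by positivity),
        Real.log_mul (by positivity) (by positivity), Real.log_pow, Real.log_pow,
        Real.log_mul two_ne_zero (by linarith : Θ ≠ 0)]
      nlinarith [mul_le_mul_of_nonneg_right h10 (by linarith : 0 ≤ Real.log 2 + Real.log Θ)]
  have h1 : ∑ t ∈ range (L + 1 - b), c t ≤
      ∑ r ∈ range b, ∑ i ∈ range ((L - r) / b), c (r + i * b) := by
    rw [sum_sigma']
    refine sum_le_of_inj (fun t => (⟨t % b, t / b⟩ : Σ _ : ℕ, ℕ)) ?_ ?_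
      (fun _ _ => Nat.cast_nonneg _) fun t _ => by rw [Nat.mod_add_div']
    · intro t _ t' _ he
      simp only [Sigma.mk.injEq, heq_eq_eq] at he
      rw [← Nat.mod_add_div t b, he.1, he.2, Nat.mod_add_div]
    · intro t ht
      simp only [mem_sigma, mem_range] at ht ⊢
      refine ⟨Nat.mod_lt _ hb, (Nat.le_div_iff_mul_le hb).2 ?_⟩
      have := Nat.mod_add_div' t b
      rw [Nat.succ_mul]
      omega
  have h2 := sum_le_sum key
  rw [← mul_sum, sum_const, card_range, nsmul_eq_mul] at h2
  rw [← mul_div_assoc, le_div_iff₀ hγ, mul_comm]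
  refine (mul_le_mul_of_nonneg_left h1 hγ.le).trans (h2.trans ?_)
  rw [mul_left_comm, mul_assoc (S.card : ℝ)]
  refine mul_le_mul_of_nonneg_left ?_ hS0.le
  have h3 : (b : ℝ) * (L / b * (Real.log 2 + Real.log Θ)) = L * (Real.log 2 + Real.log Θ) := by
    field_simp
  have h4 : (0 : ℝ) ≤ L := Nat.cast_nonneg _
  nlinarith

end Pool.Agent.MP_c6582e_nt.H5
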