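import Pool.Agent.MP_c6582e_nt.H5.Chain

/-! The residues of the state are spread out. -/

namespace Pool.Agent.MP_c6582e_nt.H5

open Finset

variable {p q : ℕ} {h : ℝ} {Lg : ℕ → Finset (List ℤ)}

/-- The state at time `n`, multiplied by `p ^ n`. -/
def yy (p q : ℕ) (z : ℤ) (n : ℕ) (w : List ℤ) : ℤ := (q : ℤ) ^ n * z + val p q (w.take n)

/-- The expected number of hits. -/
noncomputable def mu (θ : ℝ) (S : Finset (List ℤ)) (y : List ℤ → ℤ) (P : Finset ℕ) (x : ℤ) : ℝ :=
  ∑ l ∈ P, (∑ x' ∈ range l, nl θ S y P l x x') / l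

lemma Ent.four (hE : Ent h Lg) (j : ℕ) :
    (4 : ℝ) ^ j ≤ Real.exp (-(j * Real.log 2)) * (Lg j).card := by
  refine le_trans ?_ (mul_le_mul_of_nonneg_left (hE.low j) (Real.exp_pos _).le)
  have h1 := hE.big
  rw [show (8 : ℝ) = 2 ^ 3 by norm_num, Real.log_pow] at h1
  rw [← Real.exp_add, show (4 : ℝ) = Real.exp (2 * Real.log 2) by
    rw [mul_comm, Real.exp_mul, Real.exp_log two_pos]; norm_num, ← Real.exp_nat_mul,
    Real.exp_le_exp]
  push_cast at h1
  nlinarith [(Nat.cast_nonneg j : (0 : ℝ) ≤ j)]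

lemma Ent.one_le (hE : Ent h Lg) (j : ℕ) : (1 : ℝ) ≤ (Lg j).card :=
  (Real.one_le_exp (mul_nonneg ((Real.log_nonneg (by norm_num)).trans hE.big)
    (Nat.cast_nonneg j))).trans (hE.low j)

lemma big_mono (hp : 0 < p) {j J L : ℕ} {M0 : ℝ} (hM0 : 1 ≤ M0) (hj : j ≤ J)
    (hbig : 4 * J * (2 * J * Real.log (2 * p) + Real.log M0) ≤ L) :
    4 * j * (2 * j * Real.log (2 * p) + Real.log M0) ≤ L := by
  have h1 : (1 : ℝ) ≤ p := by exact_mod_cast hp
  have h2 : 0 ≤ Real.log (2 * p) := Real.log_nonneg (by linarith)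
  have h3 := Real.log_nonneg hM0
  refine le_trans ?_ hbig
  gcongr

lemma shift_sum {I : Finset ℕ} {L b : ℕ} (c : ℕ → ℝ) (hc : ∀ t, 0 ≤ c t) (f : ℕ → ℕ)
    (hf : Set.InjOn f I) (hI : ∀ n ∈ I, f n + b ≤ L) :
    ∑ n ∈ I, c (f n) ≤ ∑ t ∈ range (L + 1 - b), c t :=
  sum_le_of_inj f hf (fun n hn => mem_range.2 (by have := hI n hn; omega)) (fun t _ => hc t)
    fun _ _ => le_rfl

lemma card_sub {α : Type} (S : Finset α) (b : α → Prop) [DecidablePred b] :
    (S.card : ℝ) - (S.filter b).card = ∑ w ∈ S, (1 - if b w then 1 else 0) := by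
  rw [sum_sub_distrib, natCast_card_filter, sum_const, nsmul_eq_mul, mul_one]

lemma ent_mod (hc : p.Coprime q) (hq : 0 < q) (hqp : q < p) (hF : Fac p Lg) (hE : Ent h Lg)
    {L J j₀ M : ℕ} {S : Finset (List ℤ)} {M0 : ℝ} (z : ℤ) (hS : S ⊆ Lg L) (hM0 : 1 ≤ M0)
    (hL : Real.exp (h * L) ≤ M0 * S.card) (hj : 12 ≤ j₀)
    (hu : ∀ j, j₀ ≤ j → ((Lg j).card : ℝ) ≤ Real.exp ((h + Real.log 2 / 8) * j))
    (hM : p ^ (j₀ + 3) ≤ M) (hMJ : M ≤ J) (hcM : M.Coprime p)
    (hbig : 4 * J * (2 * J * Real.log (2 * p) + Real.log M0) ≤ L) {I : Finset ℕ}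
    (hI : ∀ n ∈ I, J ≤ n ∧ n ≤ L) (hIL : L ≤ 2 * I.card) :
    Real.log 2 / (4 * Real.log p) * Real.log M * (I.card * S.card) ≤
      ∑ n ∈ I, ∑ w ∈ S, -Real.log ((cn S (yy p q z n) M (yy p q z n w) : ℝ) / S.card) := by
  have hp : 1 < p := by omega
  have hM1 : 0 < M := (pow_pos (by omega) _).trans_le hM
  obtain ⟨j, hj1⟩ : ∃ j, Nat.log p M = j + 2 := ⟨Nat.log p M - 2, by
    have := Nat.le_log_of_pow_le hp hM; omega⟩
  have hj2 : j₀ ≤ j := by have := Nat.le_log_of_pow_le hp hM; omega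
  have h1 : p ^ (j + 2) ≤ M := hj1 ▸ Nat.pow_log_le_self p hM1.ne'
  have h2 : M < p ^ (j + 3) := by have := Nat.lt_pow_succ_log_self hp M; rwa [hj1] at this
  have h3 : j ≤ J := by have := Nat.lt_pow_self (n := j + 2) hp; omega
  have hjr : (12 : ℝ) ≤ j := by exact_mod_cast hj.trans hj2
  have l2 := Real.log_two_gt_d9
  have hS0 : (0 : ℝ) < S.card := by
    by_contra hc
    nlinarith [Real.exp_pos (h * L), (Nat.cast_nonneg S.card : (0 : ℝ) ≤ S.card)]
  set bad : List ℤ → List ℤ → Prop := fun u v => S.card ≤ 2 ^ j * cn S (yy p q z (u.length + j)) M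
    ((q : ℤ) ^ (u.length + j) * z + val p q (u ++ v)) with hbad
  have h4 : ∀ u, (((Lg j).filter fun v => bad u v).card : ℝ) ≤
      Real.exp (-(j * Real.log 2)) * (Lg j).card := by
    intro u
    refine le_trans ?_ (hE.four j)
    have h5 : ∑ v ∈ Lg j, cn S (yy p q z (u.length + j)) M
        ((q : ℤ) ^ (u.length + j) * z + val p q (u ++ v)) ≤ S.card * 2 ^ j := by
      simp only [cn, card_filter]
      rw [sum_comm]
      refine sum_le_card_nsmul _ _ _ fun w _ => ?_
      rw [← card_filter]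
      refine card_same hc ((filter_subset _ _).trans (hF.sub j)) fun v hv v' hv' => ?_
      rw [mem_filter] at hv hv'
      have h6 := (hv'.2.symm.trans hv.2).dvd
      rw [val_append, val_append, hF.len hv.1, hF.len hv'.1, add_sub_add_left_eq_sub,
        add_sub_add_left_eq_sub, ← mul_sub] at h6
      have h7 := (Nat.isCoprime_iff_coprime.2 hcM).pow_right.dvd_of_dvd_mul_left h6
      have h8 := abs_lt.1 (val_abs_lt hq hqp (hF.sub _ hv.1))
      have h9 := abs_lt.1 (val_abs_lt hq hqp (hF.sub _ hv'.1))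
      have h10 : 2 * (p : ℤ) ^ (j + 1) ≤ M := by
        exact_mod_cast (pow_succ' p (j + 1) ▸ Nat.mul_le_mul_right _ hp).trans h1
      have := Int.eq_zero_of_abs_lt_dvd h7 (abs_lt.2 ⟨by linarith, by linarith⟩)
      linarith
    have h6 : ((Lg j).filter fun v => bad u v).card * S.card ≤ 2 ^ j * (S.card * 2 ^ j) := by
      refine le_trans ?_ (Nat.mul_le_mul_left _ h5)
      rw [mul_sum]
      exact (card_nsmul_le_sum _ _ _ fun v hv => (mem_filter.1 hv).2).trans
        (sum_le_sum_of_subset (filter_subset _ _))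
    have h7 : (((Lg j).filter fun v => bad u v).card : ℝ) * S.card ≤ 4 ^ j * S.card := by
      rw [show (4 : ℝ) = 2 * 2 by norm_num, mul_pow, mul_assoc, mul_comm (2 ^ j : ℝ) (S.card : ℝ)]
      exact_mod_cast h6
    exact le_of_mul_le_mul_right h7 hS0
  have hγ : 0 < j * Real.log 2 := by positivity
  have h5 := rare p h Lg (by omega) hF L j S M0 _ _ bad (by omega) hS hM0 hL (hE.one_le j) le_rfl hγ
    h4 (big_mono (by omega) hM0 h3 hbig)
  have h6 : (1 + Real.log (Lg j).card - h * j) / (j * Real.log 2) ≤ 1 / 4 := by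
    have := (Real.log_le_iff_le_exp (by linarith [hE.one_le j])).2 (hu j hj2)
    rw [div_le_iff₀ hγ]
    nlinarith
  have h7 := (shift_sum (I := I) _ (fun _ => Nat.cast_nonneg _) (· - j)
    (fun a ha b hb e => by have := hI a ha; have := hI b hb; dsimp only at e; omega)
    fun n hn => by have := hI n hn; omega).trans
      (h5.trans (mul_le_mul_of_nonneg_left h6 (by positivity)))
  have h8 : ∀ n ∈ I, j * Real.log 2 * (S.card -
      ((S.filter fun w => bad (w.take (n - j)) (blk (n - j) j w)).card : ℝ)) ≤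
      ∑ w ∈ S, -Real.log ((cn S (yy p q z n) M (yy p q z n w) : ℝ) / S.card) := by
    intro n hn
    have h9 := hI n hn
    rw [card_sub, mul_sum]
    refine sum_le_sum fun w hw => ?_
    have h10 : (w.take (n - j)).length + j = n := by
      rw [List.length_take, hF.len (hS hw)]
      omega
    have h11 := cn_pos (y := yy p q z n) (M := M) hw
    split_ifs with hb
    · rw [sub_self, mul_zero, neg_nonneg]
      refine Real.log_nonpos (by positivity) ((div_le_one hS0).2 ?_)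
      exact_mod_cast card_filter_le _ _
    · simp only [hbad, h10, ← take_add', Nat.sub_add_cancel (h3.trans h9.1), not_le] at hb
      have h12 : (2 : ℝ) ^ j * cn S (yy p q z n) M (yy p q z n w) ≤ S.card := by
        exact_mod_cast hb.le
      rw [← Real.log_inv, inv_div, sub_zero, mul_one, ← Real.log_pow]
      exact Real.log_le_log (by positivity) ((le_div_iff₀ h11).2 h12)
  refine le_trans ?_ (sum_le_sum h8)
  rw [← mul_sum, sum_sub_distrib, sum_const, nsmul_eq_mul]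
  have hlp : 0 < Real.log p := Real.log_pos (by exact_mod_cast hp)
  have h9 : Real.log M ≤ 2 * j * Real.log p := by
    have h10 : Real.log M ≤ (j + 3 : ℕ) * Real.log p := by
      rw [← Real.log_pow]
      exact Real.log_le_log (by exact_mod_cast hM1) (by exact_mod_cast h2.le)
    push_cast at h10
    nlinarith
  have h10 : Real.log 2 / (4 * Real.log p) * Real.log M ≤ j * Real.log 2 / 2 := by
    rw [div_mul_eq_mul_div, div_le_iff₀ (by positivity)]
    nlinarith
  have h11 : (L : ℝ) ≤ 2 * I.card := by exact_mod_cast hIL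
  refine (mul_le_mul_of_nonneg_right h10 (by positivity)).trans ?_
  rw [div_mul_eq_mul_div, mul_div_assoc]
  refine mul_le_mul_of_nonneg_left ?_ hγ.le
  nlinarith [mul_le_mul_of_nonneg_left h11 hS0.le]

lemma spread (hc : p.Coprime q) (hq : 0 < q) (hqp : q < p) (hF : Fac p Lg) (hE : Ent h Lg)
    {L J j₀ : ℕ} {S : Finset (List ℤ)} {M0 θ : ℝ} (z : ℤ) (hS : S ⊆ Lg L) (hM0 : 1 ≤ M0)
    (hL : Real.exp (h * L) ≤ M0 * S.card) (hj : 12 ≤ j₀)
    (hu : ∀ j, j₀ ≤ j → ((Lg j).card : ℝ) ≤ Real.exp ((h + Real.log 2 / 8) * j))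
    (hθ : θ = Real.log 2 / (4 * Real.log p)) {P : Finset ℕ}
    (hP : ∀ l ∈ P, l.Prime ∧ p ^ (j₀ + 3) ≤ l ∧ 1 ≤ θ / 4 * Real.log l) (hJ : ∏ l ∈ P, l ≤ J)
    (hbig : 4 * J * (2 * J * Real.log (2 * p) + Real.log M0) ≤ L) {I : Finset ℕ}
    (hI : ∀ n ∈ I, J ≤ n ∧ n ≤ L) (hIL : L ≤ 2 * I.card) :
    θ / 2 * (I.card * S.card) * ∑ l ∈ P, (1 : ℝ) / l ≤
      ∑ n ∈ I, ∑ w ∈ S, mu (θ / 4) S (yy p q z n) P (yy p q z n w) := by
  have hθ0 : 0 ≤ θ := by
    rw [hθ]
    exact div_nonneg (Real.log_nonneg one_le_two) (by linarith [Real.log_natCast_nonneg p])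
  set Pi : ℕ → ℝ := fun l => ∑ n ∈ I, ∑ w ∈ S, ∑ x ∈ range l,
    nl (θ / 4) S (yy p q z n) P l (yy p q z n w) x with hPi
  have key : ∀ R, 0 ≤ ∑ l ∈ P.filter (· < R), Real.log l * (Pi l - θ / 2 * (I.card * S.card)) := by
    intro R
    rcases (P.filter (· < R)).eq_empty_or_nonempty with h0 | ⟨l₀, h0⟩
    · simp [h0]
    have hpos : ∀ l ∈ P, 0 < l := fun l hl => (hP l hl).1.pos
    have h1 : 0 < Mo P R := prod_pos fun l hl => hpos l (mem_filter.1 hl).1
    have h2 := ent_mod hc hq hqp hF hE (M := Mo P R) z hS hM0 hL hj hu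
      ((hP _ (mem_filter.1 h0).1).2.1.trans (Nat.le_of_dvd h1 (dvd_prod_of_mem _ h0)))
      ((Nat.le_of_dvd (prod_pos hpos) (prod_dvd_prod_of_subset _ _ _ (filter_subset _ _))).trans hJ)
      (Nat.Coprime.prod_left fun l hl => by
        have h3 := hP l (mem_filter.1 hl).1
        refine Nat.coprime_of_lt_prime (by omega) (lt_of_lt_of_le ?_ h3.2.1) h3.1
        simpa using Nat.pow_lt_pow_right (by omega : 1 < p) (by omega : 1 < j₀ + 3))
      hbig hI hIL
    have h3 := h2.trans (sum_le_sum fun n _ =>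
      low _ S (yy p q z n) P (θ / 4) R (fun l hl => (hP l hl).1) (by positivity))
    rw [← hθ, sum_comm, Mo, Nat.cast_prod, Real.log_prod fun l hl => by
      exact_mod_cast (hpos l (mem_filter.1 hl).1).ne', mul_sum, sum_mul, ← sub_nonneg,
      ← sum_sub_distrib] at h3
    refine h3.trans (sum_le_sum fun l hl => ?_)
    rw [sum_add_distrib, sum_const, nsmul_eq_mul, ← mul_sum]
    have h4 := mul_le_mul_of_nonneg_left (hP l (mem_filter.1 hl).1).2.2
      (by positivity : (0 : ℝ) ≤ I.card * S.card)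
    simp only [hPi]
    linarith
  have hmax : ∀ l : ℕ, (2 : ℝ) ≤ (max l 2 : ℕ) := fun l => by exact_mod_cast le_max_right l 2
  have hlog : ∀ l : ℕ, 0 < Real.log (max l 2 : ℕ) := fun l => Real.log_pos (by linarith [hmax l])
  have h1 := abel P _ (fun l => 1 / ((max l 2 : ℕ) * Real.log (max l 2 : ℕ))) (fun l => by
    have h1 := hmax l
    have h2 := hlog l
    have h3 : ((max l 2 : ℕ) : ℝ) ≤ (max (l + 1) 2 : ℕ) := by
      exact_mod_cast max_le_max_right 2 (Nat.le_succ l)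
    gcongr) (fun l => by have := hlog l; positivity) key
  have h2 : ∀ l ∈ P, 1 / ((max l 2 : ℕ) * Real.log (max l 2 : ℕ)) *
      (Real.log l * (Pi l - θ / 2 * (I.card * S.card))) =
        Pi l / l - θ / 2 * (I.card * S.card) * (1 / l) := by
    intro l hl
    have h3 := hlog l
    have h4 := hmax l
    rw [max_eq_left (hP l hl).1.two_le] at h3 h4 ⊢
    field_simp
  rw [sum_congr rfl h2, sum_sub_distrib, sub_nonneg, ← mul_sum] at h1
  refine h1.trans (le_of_eq ?_)
  simp only [hPi, mu, sum_div]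
  rw [sum_comm]
  exact sum_congr rfl fun n _ => sum_comm

end Pool.Agent.MP_c6582e_nt.H5
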